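import Pool.Agent.Zk99.Pers.Prob

/-! Comparison of the two probabilities. -/

set_option autoImplicit false

namespace Pool.Agent.Zk99.Pers

open MeasureTheory ProbabilityTheory Filter Topology
open scoped ENNReal NNReal

lemma le_exp_self (c : ℝ) : c ≤ Real.exp c := by linarith [Real.add_one_le_exp c]

lemma pow_le_exp {x : ℝ} (hx : 0 ≤ x) (n : ℕ) : x ^ n ≤ Real.exp (n * x) := by
  rw [Real.exp_nat_mul]; exact pow_le_pow_left₀ hx (le_exp_self x) n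

lemma n1 {x : ℝ} (hx : 16 ≤ x) :
    192 * x ^ 13 * Real.exp (20 * (2 * x ^ 6)) ≤ Real.exp (x ^ 8) := by
  have h0 : 0 ≤ x := by linarith
  calc 192 * x ^ 13 * Real.exp (20 * (2 * x ^ 6)) ≤
      Real.exp 192 * Real.exp ((13 : ℕ) * x) * Real.exp (20 * (2 * x ^ 6)) := by
        gcongr
        · exact le_exp_self _
        · exact pow_le_exp h0 13
    _ = Real.exp (192 + 13 * x + 40 * x ^ 6) := by
        rw [← Real.exp_add, ← Real.exp_add]; congr 1; push_cast; ring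
    _ ≤ _ := by
        apply Real.exp_le_exp.2
        have h1 : x ≤ x ^ 6 := le_self_pow₀ (by linarith) (by norm_num)
        have h2 : (16 : ℝ) ^ 6 ≤ x ^ 6 := by gcongr
        have h3 : x ^ 8 = x ^ 2 * x ^ 6 := by ring
        have h4 : (16 : ℝ) ^ 2 ≤ x ^ 2 := by gcongr
        have h5 : (16 : ℝ) ^ 2 * x ^ 6 ≤ x ^ 2 * x ^ 6 := by gcongr
        norm_num at h2 h5
        linarith

lemma n2 {x : ℝ} (hx : 16 ≤ x) : 14 * (x * Real.exp (x ^ 8) ^ 2) ≤ Real.exp (x ^ 9) := by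
  have h0 : 0 ≤ x := by linarith
  calc 14 * (x * Real.exp (x ^ 8) ^ 2) ≤
      Real.exp 14 * (Real.exp x * Real.exp (x ^ 8) ^ 2) := by
        gcongr
        · exact le_exp_self _
        · exact le_exp_self _
    _ = Real.exp (14 + x + 2 * x ^ 8) := by
        rw [← Real.exp_nat_mul, ← Real.exp_add, ← Real.exp_add]; congr 1; push_cast; ring
    _ ≤ _ := by
        apply Real.exp_le_exp.2
        have h1 : x ≤ x ^ 8 := le_self_pow₀ (by linarith) (by norm_num)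
        have h3 : x ^ 9 = x * x ^ 8 := by ring
        have h5 : 16 * x ^ 8 ≤ x * x ^ 8 := by gcongr
        linarith

lemma n3 {x : ℝ} (hx : 16 ≤ x) :
    64 * x ^ 25 * Real.exp 63 * Real.exp (x ^ 9) ≤ Real.exp (x ^ 12 * Real.log 2) := by
  have h0 : 0 ≤ x := by linarith
  calc 64 * x ^ 25 * Real.exp 63 * Real.exp (x ^ 9) ≤
      Real.exp 64 * Real.exp ((25 : ℕ) * x) * Real.exp 63 * Real.exp (x ^ 9) := by
        gcongr
        · exact le_exp_self _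
        · exact pow_le_exp h0 25
    _ = Real.exp (127 + 25 * x + x ^ 9) := by
        rw [← Real.exp_add, ← Real.exp_add, ← Real.exp_add]; congr 1; push_cast; ring
    _ ≤ _ := by
        apply Real.exp_le_exp.2
        have h1 : x ≤ x ^ 9 := le_self_pow₀ (by linarith) (by norm_num)
        have h2 : (16 : ℝ) ^ 9 ≤ x ^ 9 := by gcongr
        have h3 : x ^ 12 = x ^ 3 * x ^ 9 := by ring
        have h5 : (16 : ℝ) ^ 3 * x ^ 9 ≤ x ^ 3 * x ^ 9 := by gcongr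
        have h6 := Real.log_two_gt_d9
        have h7 : x ^ 12 * (1 / 2) ≤ x ^ 12 * Real.log 2 := by gcongr; linarith
        norm_num at h2 h5
        linarith

lemma sixteen_le_TT (κ : ℕ) : (16 : ℝ) ≤ TT κ := by
  have h : 16 ≤ TT κ := by
    rw [TT]
    calc 16 = 2 ^ 4 := by norm_num
      _ ≤ 2 ^ (NN κ ^ 12) := Nat.pow_le_pow_right (by norm_num) (by
        calc 4 ≤ 2 ^ 12 := by norm_num
          _ ≤ NN κ ^ 12 := Nat.pow_le_pow_left (two_le_NN κ) _)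
  exact_mod_cast h

lemma TT_succ_eq (κ : ℕ) : (TT (κ + 1) : ℝ) = Real.exp ((TT κ : ℝ) ^ 12 * Real.log 2) := by
  have h : TT (κ + 1) = 2 ^ (TT κ ^ 12) := rfl
  rw [h]
  push_cast
  rw [mul_comm, Real.exp_mul, Real.exp_log (by norm_num), ← Real.rpow_natCast]
  push_cast
  rfl

lemma log_TT_succ (κ : ℕ) : Real.log (TT (κ + 1)) = (TT κ : ℝ) ^ 12 * Real.log 2 := by
  rw [TT_succ_eq, Real.log_exp]

lemma ell_sq (κ : ℕ) : ell 1 0 (TT (κ + 1)) ^ 2 = 2 * ((TT κ : ℝ) ^ 12 * Real.log 2) := by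
  have h6 := Real.log_two_gt_d9
  rw [ell, Real.sq_sqrt, log_TT_succ]
  · ring
  · rw [log_TT_succ]; positivity

lemma ell_nonneg (m α T : ℝ) : 0 ≤ ell m α T := Real.sqrt_nonneg _

lemma ell_le (κ : ℕ) : ell 1 0 (TT (κ + 1)) ≤ 2 * (TT κ : ℝ) ^ 6 := by
  refine abs_le_of_sq_le_sq' ?_ (by positivity) |>.2
  rw [ell_sq]
  have h6 := Real.log_two_lt_d9
  have h7 : (TT κ : ℝ) ^ 12 * Real.log 2 ≤ (TT κ : ℝ) ^ 12 * 1 := by gcongr; linarith
  nlinarith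

lemma ell_ge (κ : ℕ) : (TT κ : ℝ) ^ 6 ≤ ell 1 0 (TT (κ + 1)) := by
  refine abs_le_of_sq_le_sq' ?_ (ell_nonneg _ _ _) |>.2
  rw [ell_sq]
  have h6 := Real.log_two_gt_d9
  have h7 : (TT κ : ℝ) ^ 12 * (1 / 2) ≤ (TT κ : ℝ) ^ 12 * Real.log 2 := by gcongr; linarith
  nlinarith

lemma ell_ge' (κ : ℕ) : (1000 : ℝ) ≤ ell 1 0 (TT (κ + 1)) := by
  have h1 := ell_ge κ
  have h2 := sixteen_le_TT κ
  have h3 : (16 : ℝ) ^ 6 ≤ (TT κ : ℝ) ^ 6 := by gcongr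
  norm_num at h3
  linarith

/-- number of blocks in the window -/
def JJ (κ : ℕ) : ℕ := TT (κ + 1) / (4 * TT κ ^ 13)

lemma JJ_mul_le (κ : ℕ) : JJ κ * (4 * TT κ ^ 13) ≤ TT (κ + 1) := Nat.div_mul_le_self _ _

lemma T_large (κ : ℕ) :
    64 * (TT κ : ℝ) ^ 25 * Real.exp 63 * Real.exp ((TT κ : ℝ) ^ 9) ≤ TT (κ + 1) := by
  rw [TT_succ_eq]; exact n3 (sixteen_le_TT κ)

lemma T_ge_pow (κ : ℕ) : 64 * (TT κ : ℝ) ^ 25 ≤ TT (κ + 1) := by
  have h1 := T_large κ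
  have h2 : (1 : ℝ) ≤ Real.exp 63 := Real.one_le_exp (by norm_num)
  have h3 : (1 : ℝ) ≤ Real.exp ((TT κ : ℝ) ^ 9) := Real.one_le_exp (by positivity)
  calc 64 * (TT κ : ℝ) ^ 25 = 64 * (TT κ : ℝ) ^ 25 * 1 * 1 := by ring
    _ ≤ 64 * (TT κ : ℝ) ^ 25 * Real.exp 63 * Real.exp ((TT κ : ℝ) ^ 9) := by gcongr
    _ ≤ _ := h1

lemma JJ_ge (κ : ℕ) : (TT (κ + 1) : ℝ) / (8 * (TT κ : ℝ) ^ 13) ≤ JJ κ := by
  have h1 : TT (κ + 1) < (JJ κ + 1) * (4 * TT κ ^ 13) := by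
    have := Nat.lt_div_mul_add (a := TT (κ + 1)) (b := 4 * TT κ ^ 13)
      (by have := TT_pos κ; positivity)
    rw [JJ]
    linarith
  have h1' : (TT (κ + 1) : ℝ) < (JJ κ + 1) * (4 * (TT κ : ℝ) ^ 13) := by exact_mod_cast h1
  have hx := sixteen_le_TT κ
  have h2 := T_ge_pow κ
  have h3 : (8 : ℝ) * (TT κ : ℝ) ^ 13 ≤ 64 * (TT κ : ℝ) ^ 25 := by
    have : (TT κ : ℝ) ^ 13 ≤ (TT κ : ℝ) ^ 25 := pow_le_pow_right₀ (by linarith) (by norm_num)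
    nlinarith
  rw [div_le_iff₀ (by positivity)]
  nlinarith

lemma hJ1 (κ : ℕ) : JJ κ * (4 * TT κ) ≤ TT (κ + 1) := by
  refine le_trans (Nat.mul_le_mul_left _ (Nat.mul_le_mul_left _ ?_)) (JJ_mul_le κ)
  exact Nat.le_self_pow (by norm_num) _

lemma hJ2 (κ : ℕ) : th (κ + 1) * (JJ κ * (4 * TT κ) : ℕ) ≤ 2 / (TT κ : ℝ) ^ 12 := by
  have hx : (0 : ℝ) < TT κ := TT_pos' κ
  have h1 : (JJ κ : ℝ) * (4 * (TT κ : ℝ) ^ 13) ≤ TT (κ + 1) := by exact_mod_cast JJ_mul_le κ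
  have h2 := th_mul_TT (κ + 1)
  have h3 := th_pos (κ + 1)
  have h4 := Real.pi_lt_four
  rw [le_div_iff₀ (by positivity)]
  push_cast
  calc th (κ + 1) * (JJ κ * (4 * TT κ)) * (TT κ : ℝ) ^ 12 =
      th (κ + 1) * (JJ κ * (4 * (TT κ : ℝ) ^ 13)) := by ring
    _ ≤ th (κ + 1) * TT (κ + 1) := by gcongr
    _ ≤ 2 := by rw [h2]; linarith

lemma hb1 (κ : ℕ) : 2 * (4 * TT κ) ≤ TT (κ + 1) := by
  have h2 := T_ge_pow κ
  have hx := sixteen_le_TT κ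
  have h3 : (TT κ : ℝ) ≤ (TT κ : ℝ) ^ 25 := le_self_pow₀ (by linarith) (by norm_num)
  have : (2 : ℝ) * (4 * TT κ) ≤ TT (κ + 1) := by linarith
  exact_mod_cast this

lemma hε1 (κ : ℕ) : 2 / (TT κ : ℝ) ^ 12 ≤ 1 / 4 := by
  have hx := sixteen_le_TT κ
  have h3 : (16 : ℝ) ^ 12 ≤ (TT κ : ℝ) ^ 12 := by gcongr
  rw [div_le_iff₀ (by positivity)]
  norm_num at h3 ⊢
  linarith

/-- the level of the auxiliary mode -/
noncomputable def ww (κ : ℕ) : ℝ := Real.exp ((TT κ : ℝ) ^ 8)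

lemma ww_pos (κ : ℕ) : 0 < ww κ := Real.exp_pos _

lemma ww_le (κ : ℕ) : ww κ ≤ TT (κ + 1) := by
  rw [TT_succ_eq, ww]
  apply Real.exp_le_exp.2
  have hx := sixteen_le_TT κ
  have h6 := Real.log_two_gt_d9
  have h3 : (TT κ : ℝ) ^ 12 = (TT κ : ℝ) ^ 4 * (TT κ : ℝ) ^ 8 := by ring
  have h4 : (16 : ℝ) ^ 4 * (TT κ : ℝ) ^ 8 ≤ (TT κ : ℝ) ^ 4 * (TT κ : ℝ) ^ 8 := by gcongr
  have h7 : (TT κ : ℝ) ^ 12 * (1 / 2) ≤ (TT κ : ℝ) ^ 12 * Real.log 2 := by gcongr; linarith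
  have h8 : 0 ≤ (TT κ : ℝ) ^ 8 := by positivity
  norm_num at h4
  linarith

lemma sa_eq (κ : ℕ) : sa (κ + 2) = Real.exp (-(TT κ : ℝ) ^ 9 / 2) := rfl

lemma sa_sq_eq (κ : ℕ) : sa (κ + 2) ^ 2 = Real.exp (-(TT κ : ℝ) ^ 9) := by
  rw [sa_sq]; rfl

/-- the comparison hypothesis -/
lemma comp_hyp (κ : ℕ) (v : ℝ) (h8 : 8 ≤ v) (hv : v ≤ 2 * ell 1 0 (TT (κ + 1))) :
    8 * TT (κ + 1) / ww κ * qq (v - 7) ≤ JJ κ * qq (v + 2) := by
  have hx := sixteen_le_TT κ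
  have hT := TT_pos' (κ + 1)
  have h1 : qq (v - 7) ≤ Real.exp (-(v - 7) ^ 2 / 2) := qq_le_exp (by linarith)
  have h2 : (1 / 3) * Real.exp (-(v + 2 + 1) ^ 2 / 2) ≤ qq (v + 2) := qq_ge (by linarith)
  have h3 := JJ_ge κ
  have h4 : Real.exp (-(v - 7) ^ 2 / 2) =
      Real.exp (10 * v - 20) * Real.exp (-(v + 2 + 1) ^ 2 / 2) := by
    rw [← Real.exp_add]; congr 1; ring
  have h5 : Real.exp (10 * v - 20) ≤ Real.exp (20 * (2 * (TT κ : ℝ) ^ 6)) := by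
    apply Real.exp_le_exp.2
    have := ell_le κ
    linarith
  have h6 : 192 * (TT κ : ℝ) ^ 13 * Real.exp (20 * (2 * (TT κ : ℝ) ^ 6)) ≤ ww κ := n1 hx
  have hw := ww_pos κ
  set y := Real.exp (-(v + 2 + 1) ^ 2 / 2) with hy
  have hy0 : 0 < y := Real.exp_pos _
  have h7 : 8 * TT (κ + 1) / ww κ * Real.exp (20 * (2 * (TT κ : ℝ) ^ 6)) ≤
      (TT (κ + 1) : ℝ) / (8 * (TT κ : ℝ) ^ 13) * (1 / 3) := by
    rw [div_mul_eq_mul_div, div_mul_eq_mul_div, div_le_div_iff₀ hw (by positivity)]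
    have : 8 * (TT (κ + 1) : ℝ) * Real.exp (20 * (2 * (TT κ : ℝ) ^ 6)) *
        (8 * (TT κ : ℝ) ^ 13) = (TT (κ + 1) : ℝ) * (1 / 3) *
        (192 * (TT κ : ℝ) ^ 13 * Real.exp (20 * (2 * (TT κ : ℝ) ^ 6))) := by ring
    rw [this]
    gcongr
  calc 8 * TT (κ + 1) / ww κ * qq (v - 7) ≤
      8 * TT (κ + 1) / ww κ * (Real.exp (20 * (2 * (TT κ : ℝ) ^ 6)) * y) := by
        gcongr
        rw [h4] at h1
        exact h1.trans (by gcongr)
    _ = (8 * TT (κ + 1) / ww κ * Real.exp (20 * (2 * (TT κ : ℝ) ^ 6))) * y := by ring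
    _ ≤ ((TT (κ + 1) : ℝ) / (8 * (TT κ : ℝ) ^ 13) * (1 / 3)) * y := by gcongr
    _ ≤ ((JJ κ : ℝ) * (1 / 3)) * y := by gcongr
    _ = (JJ κ : ℝ) * ((1 / 3) * y) := by ring
    _ ≤ (JJ κ : ℝ) * qq (v + 2) := by gcongr

/-- the exponent of the main lower bound -/
noncomputable def QQ (κ : ℕ) : ℝ := 3 * TT κ + 8 + TT κ * ww κ ^ 2 +
  (ell 1 0 (TT (κ + 1)) + 7) ^ 2 * Real.exp ((TT κ : ℝ) ^ 9) / 2

lemma E_ge (κ : ℕ) : 3 * TT κ + 10 + TT κ * ww κ ^ 2 ≤ Real.exp ((TT κ : ℝ) ^ 9) := by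
  have hx := sixteen_le_TT κ
  have h1 : 14 * (TT κ * ww κ ^ 2) ≤ Real.exp ((TT κ : ℝ) ^ 9) := n2 hx
  have h2 : 1 ≤ ww κ := Real.one_le_exp (by positivity)
  have h3 : 1 ≤ ww κ ^ 2 := one_le_pow₀ h2
  nlinarith

lemma QQ_le (κ : ℕ) : QQ κ + 2 ≤ 2 * ell 1 0 (TT (κ + 1)) ^ 2 * Real.exp ((TT κ : ℝ) ^ 9) := by
  have h1 := E_ge κ
  have h2 := ell_ge' κ
  have h3 := Real.exp_pos ((TT κ : ℝ) ^ 9)
  rw [QQ]
  set ℓ := ell 1 0 (TT (κ + 1))
  have h4 : (ℓ + 7) ^ 2 ≤ 2 * ℓ ^ 2 := by nlinarith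
  have h5 : (ℓ + 7) ^ 2 * Real.exp ((TT κ : ℝ) ^ 9) ≤ 2 * ℓ ^ 2 * Real.exp ((TT κ : ℝ) ^ 9) := by
    gcongr
  have h6 : Real.exp ((TT κ : ℝ) ^ 9) ≤ ℓ ^ 2 * Real.exp ((TT κ : ℝ) ^ 9) := by
    have : 1 ≤ ℓ ^ 2 := by nlinarith
    nlinarith
  linarith

lemma pG_lower (κ : ℕ) :
    Real.exp (-(3 * TT κ + 3 + TT κ * ww κ ^ 2)) ≤ pG (κ + 1) (ww κ) := by
  refine le_trans ?_ (pG_ge (ww_pos κ))
  have h1 : Real.exp (-(3 * (TT κ : ℝ))) ≤ (1 / 4) ^ (2 * (κ + 1) + 1) := by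
    have h2 : 2 * (κ + 1) + 1 ≤ 2 * TT κ := by
      have := le_NN (κ + 1)
      rw [NN_succ] at this
      omega
    have h3 : (1 / 4 : ℝ) ^ (2 * TT κ) ≤ (1 / 4) ^ (2 * (κ + 1) + 1) :=
      pow_le_pow_of_le_one (by norm_num) (by norm_num) h2
    refine le_trans ?_ h3
    have h4 : Real.exp (-(3 / 2)) ≤ 1 / 4 := by
      rw [Real.exp_neg, inv_le_comm₀ (Real.exp_pos _) (by norm_num)]
      have h5 : (4 : ℝ) ^ 2 ≤ Real.exp (3 / 2) ^ 2 := by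
        rw [← Real.exp_nat_mul]
        have h6 : (2.7 : ℝ) ^ 3 ≤ Real.exp 1 ^ 3 := by
          have := Real.exp_one_gt_d9
          gcongr
          linarith
        rw [← Real.exp_nat_mul] at h6
        norm_num at h6 ⊢
        linarith
      have := abs_le_of_sq_le_sq' h5 (Real.exp_pos _).le
      norm_num
      linarith [this.2]
    calc Real.exp (-(3 * (TT κ : ℝ))) = Real.exp (-(3 / 2)) ^ (2 * TT κ) := by
          rw [← Real.exp_nat_mul]; congr 1; push_cast; ring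
      _ ≤ (1 / 4) ^ (2 * TT κ) := pow_le_pow_left₀ (Real.exp_pos _).le h4 _
  have h7 : Real.exp (-2) ≤ 1 / 3 := by
    rw [Real.exp_neg, inv_le_comm₀ (Real.exp_pos _) (by norm_num)]
    have := Real.add_one_le_exp (2 : ℝ)
    norm_num at this ⊢
    linarith
  have h8 : Real.exp (-(TT κ * ww κ ^ 2 + 1)) ≤ Real.exp (-(ww κ / sa (κ + 1) + 1) ^ 2 / 2) := by
    apply Real.exp_le_exp.2
    have h9 : (ww κ / sa (κ + 1)) ^ 2 ≤ TT κ * ww κ ^ 2 := by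
      rw [div_pow, sa_sq, div_eq_inv_mul]
      have := inv_am_le (κ + 1)
      rw [NN_succ] at this
      gcongr
    nlinarith [sq_nonneg (ww κ / sa (κ + 1) - 1)]
  calc Real.exp (-(3 * TT κ + 3 + TT κ * ww κ ^ 2)) =
      Real.exp (-(3 * (TT κ : ℝ))) * (Real.exp (-2) * Real.exp (-(TT κ * ww κ ^ 2 + 1))) := by
        rw [← Real.exp_add, ← Real.exp_add]; congr 1; ring
    _ ≤ _ := by gcongr

/-- the main estimate -/
theorem half_prob (κ : ℕ) {L : ℝ} (hL : 4 * (L + 1) ≤ (TT κ : ℝ) ^ 12) :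
    PP.real (Per ff (TT (κ + 1) : ℝ) ∩ Prod.fst ⁻¹' (AA κ L)) <
      1 / 2 * PP.real (Per ff (TT (κ + 1) : ℝ)) := by
  have hx := sixteen_le_TT κ
  have hT := TT_pos' (κ + 1)
  have hw := ww_pos κ
  set x : ℝ := (TT κ : ℝ) with hxdef
  set ℓ := ell 1 0 (TT (κ + 1)) with hℓ
  set E := Real.exp (x ^ 9) with hE
  have hup := upper_prob (κ := κ) (J := JJ κ) (L := L) (ε := 2 / x ^ 12) (hb1 κ) (hJ1 κ) (hJ2 κ)
    (hε1 κ) (by
      have : (0 : ℝ) < x ^ 12 := by positivity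
      rw [show 2 * (2 / x ^ 12) * (L + 1) = 4 * (L + 1) / x ^ 12 by ring, div_le_one this]
      exact hL)
  have hlow := lower_prob (k := κ + 1) hw (ww_le κ)
  set M : ℝ := 8 * TT (κ + 1) / ww κ with hM
  have hM0 : 0 ≤ M := by positivity
  have hσ : 0 < sa (κ + 2) := sa_pos _
  have hs : 0 < (sa (κ + 2) ^ 2).toNNReal := by
    rw [Real.toNNReal_pos]; positivity
  have hs' : (((sa (κ + 2) ^ 2).toNNReal : ℝ≥0) : ℝ) = Real.exp (-x ^ 9) := by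
    rw [Real.coe_toNNReal _ (sq_nonneg _), sa_sq_eq]
  have hcomp := compare hs (M := M) (J := JJ κ) (B := 2 * ℓ) hM0 (by positivity) (comp_hyp κ)
  rw [hs', one_div, ← Real.exp_neg, neg_neg, ← hE] at hcomp
  have htail := gauss_s_tail hσ (B := 2 * ℓ) (by have := ell_ge' κ; linarith)
  have hℓ0 := ell_ge' κ
  have hℓ1 := ell_ge κ
  have hℓ2 := ell_le κ
  have e1 : ∀ y : ℝ, (y / sa (κ + 2)) ^ 2 = y ^ 2 * E := by
    intro y
    rw [div_pow, sa_sq_eq, Real.exp_neg, div_inv_eq_mul]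
  have hI := gl_integral_ge hσ (sa_le_one _) (M := M) (u := ℓ + 6) hM0 (by linarith) (by
    rw [show ℓ + 6 - 6 = ℓ by ring]
    have h1 : qq ℓ ≤ Real.exp (-ℓ ^ 2 / 2) := qq_le_exp (by linarith)
    have h2 : Real.exp (-ℓ ^ 2 / 2) = (TT (κ + 1) : ℝ)⁻¹ := by
      rw [TT_succ_eq, ← Real.exp_neg]; congr 1
      have := ell_sq κ
      rw [← hℓ] at this
      rw [neg_div, this]; ring
    rw [h2] at h1
    have h3 : M * qq ℓ ≤ M * (TT (κ + 1) : ℝ)⁻¹ := by gcongr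
    have h4 : M * (TT (κ + 1) : ℝ)⁻¹ = 8 / ww κ := by
      rw [hM]; field_simp
    have h5 : (8 : ℝ) ≤ ww κ := by
      have : x ^ 8 ≤ ww κ := le_exp_self _
      have h6 : (16 : ℝ) ^ 8 ≤ x ^ 8 := by gcongr
      norm_num at h6
      linarith
    have h7 : 8 / ww κ ≤ 1 := by rw [div_le_one hw]; exact h5
    linarith)
  set I := ∫ v, gl M v ∂(gaussianReal 0 (sa (κ + 2) ^ 2).toNNReal) with hIdef
  set p := pG (κ + 1) (ww κ) with hp
  have hpl := pG_lower κ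
  have hEge := E_ge κ
  have hQ := QQ_le κ
  rw [QQ] at hQ
  have hI0 : Real.exp (-(3 + (ℓ + 7) ^ 2 * E / 2)) ≤ I := by
    refine le_trans ?_ hI
    have h7 : Real.exp (-2) ≤ 1 / 3 := by
      rw [Real.exp_neg, inv_le_comm₀ (Real.exp_pos _) (by norm_num)]
      have := Real.add_one_le_exp (2 : ℝ)
      norm_num at this ⊢
      linarith
    have e2 : -((ℓ + 6 + 1) / sa (κ + 2)) ^ 2 / 2 = -((ℓ + 7) ^ 2 * E / 2) := by
      rw [e1]; ring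
    rw [e2]
    calc Real.exp (-(3 + (ℓ + 7) ^ 2 * E / 2)) =
        Real.exp (-1) * (Real.exp (-2) * Real.exp (-((ℓ + 7) ^ 2 * E / 2))) := by
          rw [← Real.exp_add, ← Real.exp_add]; congr 1; ring
      _ ≤ _ := by gcongr
  have hE0 : 0 < E := Real.exp_pos _
  have hI00 : 0 < I := lt_of_lt_of_le (Real.exp_pos _) hI0
  have hp0 : 0 ≤ p := (Real.exp_pos _).le.trans hpl
  have hquarter : Real.exp (-2) ≤ 1 / 4 := by
    rw [Real.exp_neg, inv_le_comm₀ (Real.exp_pos _) (by norm_num)]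
    have h6 : (2.7 : ℝ) ^ 2 ≤ Real.exp 1 ^ 2 := by
      have := Real.exp_one_gt_d9
      gcongr
      linarith
    rw [← Real.exp_nat_mul] at h6
    norm_num at h6 ⊢
    linarith
  -- `exp (-E) ≤ p / 4`
  have c4 : Real.exp (-E) ≤ p * (1 / 4) := by
    calc Real.exp (-E) ≤ Real.exp (-(3 * x + 3 + x * ww κ ^ 2)) * Real.exp (-2) := by
          rw [← Real.exp_add]
          apply Real.exp_le_exp.2
          linarith
      _ ≤ _ := by gcongr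
  -- the reference quantity
  set X := Real.exp (-(3 * x + 8 + x * ww κ ^ 2 + (ℓ + 7) ^ 2 * E / 2)) with hX
  have hX0 : 0 < X := Real.exp_pos _
  have hXle : X ≤ p * (1 / 4) * I := by
    calc X = Real.exp (-(3 * x + 3 + x * ww κ ^ 2)) * Real.exp (-2) *
          Real.exp (-(3 + (ℓ + 7) ^ 2 * E / 2)) := by
            rw [← Real.exp_add, ← Real.exp_add, hX]; congr 1; ring
      _ ≤ _ := by gcongr
  have hXq : Real.exp (-(2 * ℓ ^ 2 * E)) ≤ X * (1 / 4) := by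
    calc Real.exp (-(2 * ℓ ^ 2 * E)) ≤ X * Real.exp (-2) := by
          rw [hX, ← Real.exp_add]
          apply Real.exp_le_exp.2
          linarith
      _ ≤ _ := by gcongr
  have c1 : Real.exp (-(2 * ℓ / sa (κ + 2)) ^ 2 / 2) ≤ X * (1 / 4) := by
    refine le_trans (le_of_eq ?_) hXq
    rw [e1]; congr 1; ring
  -- size of `T`
  have hTl : 8 * x ^ 13 * Real.exp 63 * (2 * ℓ ^ 2 * E) ≤ TT (κ + 1) := by
    refine le_trans ?_ (T_large κ)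
    have : ℓ ^ 2 ≤ (2 * x ^ 6) ^ 2 := by gcongr
    calc 8 * x ^ 13 * Real.exp 63 * (2 * ℓ ^ 2 * E) ≤
        8 * x ^ 13 * Real.exp 63 * (2 * (2 * x ^ 6) ^ 2 * E) := by gcongr
      _ = _ := by rw [hE]; ring
  have hq10 : Real.exp (-63) ≤ qq 10 := by
    refine le_trans ?_ (qq_ge (u := 10) (by norm_num))
    have h7 : Real.exp (-2) ≤ 1 / 3 := by linarith
    calc Real.exp (-63) ≤ Real.exp (-2) * Real.exp (-(10 + 1) ^ 2 / 2) := by
          rw [← Real.exp_add]; apply Real.exp_le_exp.2; norm_num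
      _ ≤ _ := by gcongr
  have c2 : Real.exp (-(JJ κ * qq 10)) ≤ X * (1 / 4) := by
    refine le_trans ?_ hXq
    apply Real.exp_le_exp.2
    apply neg_le_neg
    have h1 := JJ_ge κ
    calc 2 * ℓ ^ 2 * E = (8 * x ^ 13 * Real.exp 63 * (2 * ℓ ^ 2 * E)) / (8 * x ^ 13) *
          Real.exp (-63) := by
            rw [Real.exp_neg]
            have := (Real.exp_pos 63).ne'
            field_simp
      _ ≤ (TT (κ + 1) : ℝ) / (8 * x ^ 13) * Real.exp (-63) := by gcongr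
      _ ≤ JJ κ * qq 10 := by gcongr
  have c3 : 3 / 2 * beta (κ + 1) ≤ X * (1 / 4) := by
    refine le_trans ?_ hXq
    have hT1 : (1000 : ℝ) ≤ TT (κ + 1) := by
      have h2 := T_ge_pow κ
      have h3 : (16 : ℝ) ^ 25 ≤ x ^ 25 := by gcongr
      norm_num at h3
      linarith
    have hT2 : 4 * ℓ ^ 2 * E ≤ TT (κ + 1) := by
      refine le_trans ?_ hTl
      have h2 : (1 : ℝ) ≤ Real.exp 63 := Real.one_le_exp (by norm_num)
      have h3 : (1 : ℝ) ≤ x ^ 13 := one_le_pow₀ (by linarith)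
      calc 4 * ℓ ^ 2 * E = 2 * 1 * 1 * (2 * ℓ ^ 2 * E) := by ring
        _ ≤ 8 * x ^ 13 * Real.exp 63 * (2 * ℓ ^ 2 * E) := by gcongr; norm_num
    rw [beta]
    set T : ℝ := (TT (κ + 1) : ℝ)
    have h1 : 3 / 2 * ((2 * T + 1) * 3) ≤ Real.exp (T / 2) := by
      have h2 : (T / 2) ^ 2 / 2 ≤ Real.exp (T / 2) := by
        have := Real.quadratic_le_exp_of_nonneg (x := T / 2) (by linarith)
        linarith
      nlinarith
    calc 3 / 2 * ((2 * T + 1) * (3 * Real.exp (-T))) =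
        (3 / 2 * ((2 * T + 1) * 3)) * Real.exp (-T) := by ring
      _ ≤ Real.exp (T / 2) * Real.exp (-T) := by gcongr
      _ = Real.exp (-(T / 2)) := by rw [← Real.exp_add]; congr 1; ring
      _ ≤ Real.exp (-(2 * ℓ ^ 2 * E)) := by
        apply Real.exp_le_exp.2
        linarith
  have c5 : Real.exp (-E) * I ≤ p * (1 / 4) * I := by gcongr
  nlinarith

end Pool.Agent.Zk99.Pers
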