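import Pool.Agent.Zk99.Pers.PotEx
import Pool.Agent.Zk99.Pers.Asym

/-! The equilibrium potential near the origin. -/

set_option autoImplicit false

namespace Pool.Agent.Zk99.Pers

open MeasureTheory ProbabilityTheory Filter Topology
open scoped ENNReal NNReal InnerProductSpace

/-- the density of the cosine of frequency `θ j` -/
noncomputable def gj (j : ℕ) (c : ℝ) (t : ℝ) : ℂ := if |t| = th j then ((c / am j : ℝ) : ℂ) else 0

lemma measurable_gj (j : ℕ) (c : ℝ) : Measurable (gj j c) :=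
  Measurable.ite (measurableSet_eq_fun continuous_abs.measurable measurable_const)
    measurable_const measurable_const

lemma gj_bound (j : ℕ) (c : ℝ) (t : ℝ) : ‖gj j c t‖ ≤ |c / am j| := by
  unfold gj
  split_ifs
  · rw [Complex.norm_real, Real.norm_eq_abs]
  · simp

lemma memLp_gj (j : ℕ) (c : ℝ) : MemLp (gj j c) 2 mu :=
  MemLp.of_bound (measurable_gj j c).aestronglyMeasurable |c / am j|
    (Filter.Eventually.of_forall (gj_bound j c))

lemma gj_ae (j : ℕ) (c : ℝ) :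
    ∀ᵐ t ∂(volume.restrict (Set.Ioo (-Real.pi) Real.pi)), gj j c t = 0 := by
  refine ae_restrict_of_ae ?_
  have h : ({t : ℝ | |t| = th j}) ⊆ {th j, -(th j)} := by
    intro t ht
    simp only [Set.mem_ofPred_eq] at ht
    rcases abs_cases t with ⟨h, _⟩ | ⟨h, _⟩
    · left; rw [← ht, h]
    · right; rw [Set.mem_singleton_iff, ← ht, h]; ring
  have h2 : volume ({t : ℝ | |t| = th j}) = 0 :=
    measure_mono_null h ((Set.toFinite _).measure_zero _)
  rw [ae_iff]
  refine measure_mono_null (fun t ht => ?_) h2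
  by_contra hcon
  exact ht (by simp only [gj]; exact if_neg hcon)

lemma gj_th (j : ℕ) (c : ℝ) : gj j c (th j) = ((c / am j : ℝ) : ℂ) := by
  rw [gj, if_pos (abs_of_pos (th_pos j))]

lemma gj_neg (j : ℕ) (c : ℝ) (t : ℝ) : gj j c (-t) = gj j c t := by
  simp [gj]

lemma gj_th_ne {j j' : ℕ} (h : j' ≠ j) (c : ℝ) : gj j c (th j') = 0 := by
  rw [gj, if_neg]
  rw [abs_of_pos (th_pos j')]
  exact fun h2 => h (th_injective h2)

lemma rep_gj (j : ℕ) (c : ℝ) : Rep mu (gj j c) (fun n => c * Real.cos (th j * n)) := by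
  refine ⟨memLp_gj j c, fun n => ?_⟩
  rw [FT, integral_mu (integrable_exp_mul (memLp_gj j c) n)]
  have h1 : ∫ t in Set.Ioo (-Real.pi) Real.pi, Complex.exp (Complex.I * (n * t)) * gj j c t = 0 := by
    refine integral_eq_zero_of_ae ?_
    filter_upwards [gj_ae j c] with t ht
    rw [ht, mul_zero]; rfl
  rw [h1, smul_zero, zero_add, tsum_eq_single j]
  · rw [gj_neg, gj_th]
    have h2 : Complex.exp (Complex.I * (n * (th j : ℝ))) +
        Complex.exp (Complex.I * (n * ((-(th j) : ℝ) : ℂ))) = 2 * Complex.cos ((th j : ℂ) * n) := by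
      rw [Complex.cos]
      rw [mul_div_cancel₀ _ (two_ne_zero)]
      congr 1
      · congr 1; push_cast; ring
      · congr 1; push_cast; ring
    have ha : (am j : ℂ) ≠ 0 := by exact_mod_cast (am_pos j).ne'
    rw [← add_mul, h2]
    rw [Complex.real_smul]
    push_cast
    field_simp
  · intro j' hj'
    rw [gj_neg, gj_th_ne hj', mul_zero, mul_zero, add_zero, smul_zero]

lemma norm_gj (j : ℕ) (c : ℝ) : ∫ t, ‖gj j c t‖ ^ 2 ∂mu = c ^ 2 / am j := by
  rw [integral_mu (sq_norm_integrable (memLp_gj j c))]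
  have h1 : ∫ t in Set.Ioo (-Real.pi) Real.pi, ‖gj j c t‖ ^ 2 = 0 := by
    refine integral_eq_zero_of_ae ?_
    filter_upwards [gj_ae j c] with t ht
    rw [ht]; simp
  rw [h1, smul_zero, zero_add, tsum_eq_single j]
  · rw [gj_neg, gj_th, Complex.norm_real, Real.norm_eq_abs, sq_abs, smul_eq_mul]
    have := (am_pos j).ne'
    field_simp
    ring
  · intro j' hj'
    rw [gj_neg, gj_th_ne hj']
    simp

/-- existence for all radii -/
theorem exists_eqPot_ball (T : ℝ) : ∃ h, IsEqPot mu (ball T) h := by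
  refine exists_eqPot ?_
  have h1 : Tendsto (fun j => th j * |T|) atTop (𝓝 0) := by
    simpa using tendsto_th.mul_const |T|
  obtain ⟨j, hj⟩ := (h1.eventually (ge_mem_nhds (show (0 : ℝ) < 1 by norm_num))).exists
  refine ⟨gj j 2, _, rep_gj j 2, fun x hx => ?_⟩
  have hx' : |(x : ℝ)| ≤ |T| := le_trans hx (le_abs_self T)
  have h2 : th j * |(x : ℝ)| ≤ 1 := (mul_le_mul_of_nonneg_left hx' (th_pos j).le).trans hj
  have := cos_th_half h2
  linarith

/-! the test function -/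

/-- number of blocks of the test window -/
def mm (κ : ℕ) : ℕ := 2 ^ (TT κ ^ 11)

/-- length of the test window -/
def RR (κ : ℕ) : ℕ := mm κ * (4 * TT κ)

/-- test function -/
noncomputable def rr (κ : ℕ) (t : ℝ) : ℝ :=
  (RR κ : ℝ)⁻¹ * ∑ i ∈ Finset.range (RR κ),
    Real.cos ((((TT (κ + 1) : ℤ) - RR κ + i : ℤ) : ℝ) * t)

lemma RR_pos (κ : ℕ) : 0 < RR κ := by
  have := TT_pos κ
  unfold RR mm
  positivity

lemma RR_pos' (κ : ℕ) : (0 : ℝ) < RR κ := by exact_mod_cast RR_pos κ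

lemma n4 {x : ℝ} (hx : 16 ≤ x) :
    256 * x * Real.exp (2 * x ^ 9) ≤ Real.exp ((x ^ 12 - x ^ 11) * Real.log 2) := by
  have h0 : 0 ≤ x := by linarith
  calc 256 * x * Real.exp (2 * x ^ 9) ≤ Real.exp 256 * Real.exp x * Real.exp (2 * x ^ 9) := by
        gcongr
        · exact le_exp_self _
        · exact le_exp_self _
    _ = Real.exp (256 + x + 2 * x ^ 9) := by rw [← Real.exp_add, ← Real.exp_add]
    _ ≤ _ := by
        apply Real.exp_le_exp.2
        have h1 : x ≤ x ^ 9 := le_self_pow₀ (by linarith) (by norm_num)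
        have h2 : (16 : ℝ) ^ 9 ≤ x ^ 9 := by gcongr
        have h3 : x ^ 12 - x ^ 11 = x ^ 11 * (x - 1) := by ring
        have h5 : x ^ 11 * 15 ≤ x ^ 11 * (x - 1) := by gcongr; linarith
        have h7 : x ^ 11 = x ^ 9 * x ^ 2 := by ring
        have h8 : x ^ 9 * 16 ^ 2 ≤ x ^ 9 * x ^ 2 := by gcongr
        have h6 := Real.log_two_gt_d9
        have h10 : 0 ≤ x ^ 12 - x ^ 11 := by
          rw [h3]; exact mul_nonneg (by positivity) (by linarith)
        have h9 : (x ^ 12 - x ^ 11) * (1 / 2) ≤ (x ^ 12 - x ^ 11) * Real.log 2 :=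
          mul_le_mul_of_nonneg_left (by linarith) h10
        norm_num at h2 h8
        linarith

lemma RR_eq (κ : ℕ) : (RR κ : ℝ) = 4 * TT κ * Real.exp ((TT κ : ℝ) ^ 11 * Real.log 2) := by
  have h : Real.exp ((TT κ : ℝ) ^ 11 * Real.log 2) = (2 : ℝ) ^ (TT κ ^ 11) := by
    rw [mul_comm, Real.exp_mul, Real.exp_log (by norm_num), ← Real.rpow_natCast 2 (TT κ ^ 11)]
    push_cast
    rfl
  rw [h, RR, mm]
  push_cast
  ring

/-- size of the window in units of the slow frequency -/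
lemma th_RR (κ : ℕ) : th (κ + 1) * RR κ ≤ 1 / (32 * Real.exp ((TT κ : ℝ) ^ 9) ^ 2) := by
  have hx := sixteen_le_TT κ
  have h1 := n4 hx
  have h2 : Real.exp (((TT κ : ℝ) ^ 12 - (TT κ : ℝ) ^ 11) * Real.log 2) *
      Real.exp ((TT κ : ℝ) ^ 11 * Real.log 2) = TT (κ + 1) := by
    rw [← Real.exp_add, TT_succ_eq]; congr 1; ring
  have h3 : Real.exp (2 * (TT κ : ℝ) ^ 9) = Real.exp ((TT κ : ℝ) ^ 9) ^ 2 := by
    rw [← Real.exp_nat_mul]; congr 1
  rw [h3] at h1
  have hT := TT_pos' (κ + 1)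
  have hpi := Real.pi_lt_four
  rw [RR_eq, th, ← h2]
  set A := Real.exp (((TT κ : ℝ) ^ 12 - (TT κ : ℝ) ^ 11) * Real.log 2)
  set B := Real.exp ((TT κ : ℝ) ^ 11 * Real.log 2)
  set E := Real.exp ((TT κ : ℝ) ^ 9)
  have hA : 0 < A := Real.exp_pos _
  have hB : 0 < B := Real.exp_pos _
  have hE : 0 < E := Real.exp_pos _
  have e : Real.pi / (2 * (A * B)) * (4 * TT κ * B) = (2 * Real.pi * TT κ) / A := by
    field_simp; ring
  rw [e, div_le_div_iff₀ hA (by positivity)]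
  have : 2 * Real.pi * (TT κ : ℝ) * (32 * E ^ 2) ≤ 256 * TT κ * E ^ 2 := by
    have h5 : 0 ≤ (TT κ : ℝ) * E ^ 2 := by positivity
    nlinarith
  linarith

lemma one_le_E (κ : ℕ) : 1 ≤ Real.exp ((TT κ : ℝ) ^ 9) := Real.one_le_exp (by positivity)

lemma inv_RR (κ : ℕ) : (RR κ : ℝ)⁻¹ ≤ 1 / (64 * Real.exp ((TT κ : ℝ) ^ 9) ^ 2) := by
  have hx := sixteen_le_TT κ
  rw [← one_div]
  apply one_div_le_one_div_of_le (by positivity)
  rw [RR_eq]
  have h2 : Real.exp ((TT κ : ℝ) ^ 9) ^ 2 ≤ Real.exp ((TT κ : ℝ) ^ 11 * Real.log 2) := by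
    rw [← Real.exp_nat_mul]
    apply Real.exp_le_exp.2
    have h6 := Real.log_two_gt_d9
    have h7 : (TT κ : ℝ) ^ 11 = (TT κ : ℝ) ^ 9 * (TT κ : ℝ) ^ 2 := by ring
    have h8 : (TT κ : ℝ) ^ 9 * 16 ^ 2 ≤ (TT κ : ℝ) ^ 9 * (TT κ : ℝ) ^ 2 := by gcongr
    have h9 : (TT κ : ℝ) ^ 11 * (1 / 2) ≤ (TT κ : ℝ) ^ 11 * Real.log 2 := by gcongr; linarith
    push_cast
    have h10 : 0 ≤ (TT κ : ℝ) ^ 9 := by positivity
    linarith
  have h3 : (64 : ℝ) ≤ 4 * TT κ := by linarith
  exact mul_le_mul h3 h2 (by positivity) (by positivity)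

lemma exp_neg_T (κ : ℕ) :
    Real.exp (-(TT (κ + 1) : ℝ)) ≤ 1 / (64 * Real.exp ((TT κ : ℝ) ^ 9) ^ 2) := by
  have hx := sixteen_le_TT κ
  have h1 := n4 hx
  have h3 : Real.exp (2 * (TT κ : ℝ) ^ 9) = Real.exp ((TT κ : ℝ) ^ 9) ^ 2 := by
    rw [← Real.exp_nat_mul]; congr 1
  rw [h3] at h1
  have h4 : Real.exp (((TT κ : ℝ) ^ 12 - (TT κ : ℝ) ^ 11) * Real.log 2) ≤ TT (κ + 1) := by
    rw [TT_succ_eq]
    apply Real.exp_le_exp.2
    have h6 := Real.log_two_gt_d9
    have : 0 ≤ (TT κ : ℝ) ^ 11 * Real.log 2 := by positivity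
    linarith
  have h5 : 64 * Real.exp ((TT κ : ℝ) ^ 9) ^ 2 ≤ 256 * TT κ * Real.exp ((TT κ : ℝ) ^ 9) ^ 2 := by
    gcongr
    linarith
  rw [Real.exp_neg, ← one_div]
  apply one_div_le_one_div_of_le (by positivity)
  have h7 := le_exp_self (TT (κ + 1) : ℝ)
  linarith

lemma RR_le (κ : ℕ) : 32 * (RR κ : ℝ) ≤ TT (κ + 1) := by
  have h1 := th_RR κ
  have h2 := one_le_E κ
  have h3 := th_mul_TT (κ + 1)
  have h4 := th_pos (κ + 1)
  have h5 : 1 / (32 * Real.exp ((TT κ : ℝ) ^ 9) ^ 2) ≤ 1 / 32 := by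
    apply one_div_le_one_div_of_le (by norm_num)
    have : 1 ≤ Real.exp ((TT κ : ℝ) ^ 9) ^ 2 := one_le_pow₀ h2
    linarith
  have h6 : th (κ + 1) * (32 * RR κ) ≤ th (κ + 1) * TT (κ + 1) := by
    rw [h3]
    have := Real.pi_gt_three
    linarith
  exact le_of_mul_le_mul_left h6 h4

/-- the window -/
lemma win (κ : ℕ) {i : ℕ} (hi : i ∈ Finset.range (RR κ)) :
    4 * (TT κ : ℤ) < (TT (κ + 1) : ℤ) - RR κ + i ∧ (TT (κ + 1) : ℤ) - RR κ + i ≤ TT (κ + 1) := by
  have h1 : 32 * RR κ ≤ TT (κ + 1) := by exact_mod_cast RR_le κ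
  have h2 := hb1 κ
  have h3 := RR_pos κ
  have h4 := Finset.mem_range.1 hi
  omega

lemma rr_abs_le (κ : ℕ) (t : ℝ) : |rr κ t| ≤ 1 := by
  have h := RR_pos' κ
  rw [rr, abs_mul, abs_of_pos (inv_pos.2 h)]
  rw [inv_mul_le_iff₀ h, mul_one]
  refine (Finset.abs_sum_le_sum_abs _ _).trans ?_
  calc ∑ i ∈ Finset.range (RR κ), |Real.cos ((((TT (κ + 1) : ℤ) - RR κ + i : ℤ) : ℝ) * t)| ≤
      ∑ i ∈ Finset.range (RR κ), (1 : ℝ) := Finset.sum_le_sum fun i _ => Real.abs_cos_le_one _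
    _ = RR κ := by simp

lemma rr_neg (κ : ℕ) (t : ℝ) : rr κ (-t) = rr κ t := by
  simp [rr]

lemma rr_fast {κ j : ℕ} (h : j ≤ κ) : rr κ (th j) = 0 := by
  rw [rr]
  apply mul_eq_zero_of_right
  obtain ⟨m, hm⟩ := TT_dvd h
  have h1 := TT_pos' j
  have := cos_sum_zero (θ := th j) (b := RR κ) ((mm κ : ℤ) * m) ?_ (sin_half_ne j)
    ((TT (κ + 1) : ℝ) - RR κ)
  · rw [← this]
    refine Finset.sum_congr rfl fun i _ => ?_
    push_cast
    rw [mul_comm]
  · rw [th, RR]
    have h2 : (TT κ : ℝ) = TT j * m := by rw [hm]; push_cast; ring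
    push_cast
    rw [h2]
    field_simp
    ring

lemma rr_slow (κ : ℕ) : 0 ≤ rr κ (th (κ + 1)) ∧ rr κ (th (κ + 1)) ≤ th (κ + 1) * RR κ := by
  have hR := RR_pos' κ
  have hc : ∀ i ∈ Finset.range (RR κ),
      0 ≤ Real.cos ((((TT (κ + 1) : ℤ) - RR κ + i : ℤ) : ℝ) * th (κ + 1)) ∧
      Real.cos ((((TT (κ + 1) : ℤ) - RR κ + i : ℤ) : ℝ) * th (κ + 1)) ≤ th (κ + 1) * RR κ := by
    intro i hi
    obtain ⟨w1, w2⟩ := win κ hi
    have w3 : (0 : ℤ) ≤ (TT (κ + 1) : ℤ) - RR κ + i := by omega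
    have w1' : (0 : ℝ) ≤ (((TT (κ + 1) : ℤ) - RR κ + i : ℤ) : ℝ) := by exact_mod_cast w3
    have w2' : (((TT (κ + 1) : ℤ) - RR κ + i : ℤ) : ℝ) ≤ TT (κ + 1) := by exact_mod_cast w2
    rw [mul_comm]
    refine ⟨cos_th_nonneg (by rw [abs_of_nonneg w1']; exact w2'), ?_⟩
    refine (cos_th_le w1' w2').trans ?_
    refine mul_le_mul_of_nonneg_left ?_ (th_pos _).le
    push_cast
    have : (0 : ℝ) ≤ i := by positivity
    linarith
  rw [rr]
  constructor
  · exact mul_nonneg (inv_pos.2 hR).le (Finset.sum_nonneg fun i hi => (hc i hi).1)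
  · rw [inv_mul_le_iff₀ hR]
    calc _ ≤ ∑ i ∈ Finset.range (RR κ), th (κ + 1) * RR κ := Finset.sum_le_sum fun i hi => (hc i hi).2
      _ = _ := by rw [Finset.sum_const, Finset.card_range, nsmul_eq_mul]

@[fun_prop]
lemma continuous_rr (κ : ℕ) : Continuous (rr κ) := by
  unfold rr; fun_prop

/-- weighted sums over the atoms -/
lemma atoms_le {κ : ℕ} {f : ℕ → ℝ} {δ : ℝ} (h0 : ∀ j ≤ κ, f j = 0) (h1 : f (κ + 1) ≤ δ)
    (hδ : 0 ≤ δ) (h2 : ∀ j, |f j| ≤ 1) :
    ∑' j, am j * f j ≤ am (κ + 2) + δ + 2 * Real.exp (-(TT (κ + 1) : ℝ)) := by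
  have hs : Summable fun j => am j * f j := by
    refine Summable.of_norm_bounded summable_am fun j => ?_
    rw [Real.norm_eq_abs, abs_mul, abs_of_pos (am_pos j)]
    exact mul_le_of_le_one_right (am_pos j).le (h2 j)
  rw [← hs.sum_add_tsum_nat_add (κ + 3), Finset.sum_range_succ, Finset.sum_range_succ,
    Finset.sum_eq_zero (fun j hj => by
      rw [h0 j (Nat.lt_succ_iff.1 (Finset.mem_range.1 hj)), mul_zero]), zero_add]
  have e1 : am (κ + 1) * f (κ + 1) ≤ δ := by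
    have := am_le_one (κ + 1)
    have := am_pos (κ + 1)
    nlinarith
  have e2 : am (κ + 2) * f (κ + 2) ≤ am (κ + 2) := by
    have := am_pos (κ + 2)
    have := (abs_le.1 (h2 (κ + 2))).2
    nlinarith
  have e3 : ∑' i, am (i + (κ + 3)) * f (i + (κ + 3)) ≤ 2 * Real.exp (-(TT (κ + 1) : ℝ)) := by
    refine le_trans ?_ (tail_am (κ + 2))
    have hs1 : Summable fun i => am (i + (κ + 3)) := (summable_nat_add_iff (κ + 3)).2 summable_am
    have e4 : (fun i => am (κ + 2 + i + 1)) = fun i => am (i + (κ + 3)) := by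
      funext i; congr 1; omega
    rw [e4]
    refine ((summable_nat_add_iff (κ + 3)).2 hs).tsum_le_tsum (fun i => ?_) hs1
    have := (abs_le.1 (h2 (i + (κ + 3)))).2
    have := am_pos (i + (κ + 3))
    nlinarith
  linarith

/-- the mean over the circle of `rr` times a cosine -/
lemma leb_rr_cos (κ : ℕ) (y : ℤ) :
    (2 * Real.pi)⁻¹ * ∫ t in Set.Ioo (-Real.pi) Real.pi, rr κ t * Real.cos ((y : ℝ) * t) =
      (RR κ : ℝ)⁻¹ * ∑ i ∈ Finset.range (RR κ),
        ((if (TT (κ + 1) : ℤ) - RR κ + i - y = 0 then (1 : ℝ) else 0) +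
          (if (TT (κ + 1) : ℤ) - RR κ + i + y = 0 then (1 : ℝ) else 0)) / 2 := by
  have e : ∀ t : ℝ, rr κ t * Real.cos ((y : ℝ) * t) = (RR κ : ℝ)⁻¹ * ∑ i ∈ Finset.range (RR κ),
      (Real.cos ((((TT (κ + 1) : ℤ) - RR κ + i - y : ℤ) : ℝ) * t) +
        Real.cos ((((TT (κ + 1) : ℤ) - RR κ + i + y : ℤ) : ℝ) * t)) / 2 := by
    intro t
    rw [rr, mul_assoc, Finset.sum_mul]
    congr 1
    refine Finset.sum_congr rfl fun i _ => ?_
    have := Real.two_mul_cos_mul_cos ((((TT (κ + 1) : ℤ) - RR κ + i : ℤ) : ℝ) * t) ((y : ℝ) * t)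
    push_cast at this ⊢
    rw [← sub_mul, ← add_mul] at this
    linarith
  simp only [e]
  rw [integral_const_mul, integral_finsetSum]
  · rw [mul_left_comm]
    congr 1
    rw [Finset.mul_sum]
    refine Finset.sum_congr rfl fun i _ => ?_
    rw [integral_div, integral_add]
    · rw [← integral_cos_int, ← integral_cos_int]
      ring
    · exact (Continuous.integrableOn_Icc (by fun_prop)).mono_set Set.Ioo_subset_Icc_self
    · exact (Continuous.integrableOn_Icc (by fun_prop)).mono_set Set.Ioo_subset_Icc_self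
  · intro i _
    exact (Continuous.integrableOn_Icc (by fun_prop)).mono_set Set.Ioo_subset_Icc_self

lemma leb_rr_cos_near (κ : ℕ) {y : ℤ} (hy : |y| ≤ 4 * TT κ) :
    (2 * Real.pi)⁻¹ * ∫ t in Set.Ioo (-Real.pi) Real.pi, rr κ t * Real.cos ((y : ℝ) * t) = 0 := by
  rw [leb_rr_cos]
  apply mul_eq_zero_of_right
  refine Finset.sum_eq_zero fun i hi => ?_
  obtain ⟨w1, w2⟩ := win κ hi
  rw [abs_le] at hy
  rw [if_neg (by omega), if_neg (by omega)]
  norm_num

lemma leb_rr_cos_win (κ : ℕ) {i : ℕ} (hi : i ∈ Finset.range (RR κ)) :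
    (2 * Real.pi)⁻¹ * ∫ t in Set.Ioo (-Real.pi) Real.pi,
      rr κ t * Real.cos ((((TT (κ + 1) : ℤ) - RR κ + i : ℤ) : ℝ) * t) ≤ (RR κ : ℝ)⁻¹ := by
  rw [leb_rr_cos]
  refine mul_le_of_le_one_right (inv_pos.2 (RR_pos' κ)).le ?_
  rw [Finset.sum_eq_single i]
  · obtain ⟨w1, w2⟩ := win κ hi
    rw [if_pos (by omega), if_neg (by omega)]
    norm_num
  · intro i' hi' hne
    obtain ⟨w1, w2⟩ := win κ hi
    obtain ⟨w1', w2'⟩ := win κ hi'
    rw [if_neg (by omega), if_neg (by omega)]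
    norm_num
  · intro h; exact absurd hi h

lemma leb_rr_sq (κ : ℕ) :
    (2 * Real.pi)⁻¹ * ∫ t in Set.Ioo (-Real.pi) Real.pi, rr κ t ^ 2 ≤ (RR κ : ℝ)⁻¹ := by
  have hR := RR_pos' κ
  have e : ∀ t : ℝ, rr κ t ^ 2 = (RR κ : ℝ)⁻¹ * ∑ i ∈ Finset.range (RR κ),
      rr κ t * Real.cos ((((TT (κ + 1) : ℤ) - RR κ + i : ℤ) : ℝ) * t) := by
    intro t
    rw [← Finset.mul_sum, sq, mul_left_comm, ← rr]
  simp only [e]
  rw [integral_const_mul, integral_finsetSum]
  · rw [mul_left_comm, Finset.mul_sum]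
    rw [inv_mul_le_iff₀ hR]
    calc _ ≤ ∑ i ∈ Finset.range (RR κ), (RR κ : ℝ)⁻¹ :=
          Finset.sum_le_sum fun i hi => leb_rr_cos_win κ hi
      _ = (RR κ : ℝ) * (RR κ : ℝ)⁻¹ := by
          rw [Finset.sum_const, Finset.card_range, nsmul_eq_mul]
  · intro i _
    exact (Continuous.integrableOn_Icc (by fun_prop)).mono_set Set.Ioo_subset_Icc_self

lemma integrable_bdd {f : ℝ → ℝ} (hf : Continuous f) (h : ∀ t, |f t| ≤ 1) : Integrable f mu :=
  Integrable.of_bound hf.aestronglyMeasurable 1 (Filter.Eventually.of_forall h)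

lemma rr_sq_le (κ : ℕ) : ∫ t, rr κ t ^ 2 ∂mu ≤
    am (κ + 2) + th (κ + 1) * RR κ + 2 * Real.exp (-(TT (κ + 1) : ℝ)) + (RR κ : ℝ)⁻¹ := by
  have hb : ∀ t, |rr κ t ^ 2| ≤ 1 := by
    intro t
    rw [abs_pow]
    exact pow_le_one₀ (abs_nonneg _) (rr_abs_le κ t)
  rw [integral_mu (integrable_bdd (by fun_prop) hb), smul_eq_mul]
  have h1 := leb_rr_sq κ
  have h2 := atoms_le (κ := κ) (f := fun j => rr κ (th j) ^ 2) (δ := th (κ + 1) * RR κ)
    (fun j hj => by rw [rr_fast hj]; norm_num) (by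
      obtain ⟨a, b⟩ := rr_slow κ
      have := (abs_le.1 (rr_abs_le κ (th (κ + 1)))).2
      nlinarith) (by
      have := th_pos (κ + 1)
      have := RR_pos' κ
      positivity) (fun j => hb _)
  have e : ∑' j, (am j / 2) • (rr κ (th j) ^ 2 + rr κ (-(th j)) ^ 2) =
      ∑' j, am j * rr κ (th j) ^ 2 := by
    refine tsum_congr fun j => ?_
    rw [rr_neg, smul_eq_mul]; ring
  rw [e]
  linarith

lemma rr_cos_le (κ : ℕ) {y : ℤ} (hy : |y| ≤ 4 * TT κ) :
    ∫ t, rr κ t * Real.cos ((y : ℝ) * t) ∂mu ≤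
      am (κ + 2) + th (κ + 1) * RR κ + 2 * Real.exp (-(TT (κ + 1) : ℝ)) := by
  have hb : ∀ t, |rr κ t * Real.cos ((y : ℝ) * t)| ≤ 1 := by
    intro t
    rw [abs_mul]
    exact mul_le_one₀ (rr_abs_le κ t) (abs_nonneg _) (Real.abs_cos_le_one _)
  rw [integral_mu (integrable_bdd (by fun_prop) hb), smul_eq_mul, leb_rr_cos_near κ hy, zero_add]
  have h2 := atoms_le (κ := κ) (f := fun j => rr κ (th j) * Real.cos ((y : ℝ) * th j))
    (δ := th (κ + 1) * RR κ)
    (fun j hj => by rw [rr_fast hj]; norm_num) (by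
      obtain ⟨a, b⟩ := rr_slow κ
      have := Real.cos_le_one ((y : ℝ) * th (κ + 1))
      nlinarith) (by
      have := th_pos (κ + 1)
      have := RR_pos' κ
      positivity) (fun j => hb _)
  refine le_trans (le_of_eq ?_) h2
  refine tsum_congr fun j => ?_
  rw [rr_neg, smul_eq_mul, mul_neg, Real.cos_neg]; ring

/-! the bound -/

lemma real_part_exp (x t : ℝ) (z : ℂ) :
    (Complex.exp (Complex.I * (x * t)) * z).re + (Complex.exp (Complex.I * (((-x : ℝ) : ℂ) * t)) * z).re =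
      2 * (Real.cos (x * t) * z.re) := by
  have h1 : Complex.exp (Complex.I * (x * t)) = (Real.cos (x * t) : ℂ) + (Real.sin (x * t) : ℂ) * Complex.I := by
    rw [show Complex.I * (x * t) = ((x * t : ℝ) : ℂ) * Complex.I by push_cast; ring,
      Complex.exp_mul_I]
    push_cast
    rfl
  have h2 : Complex.exp (Complex.I * (((-x : ℝ) : ℂ) * t)) =
      (Real.cos (x * t) : ℂ) - (Real.sin (x * t) : ℂ) * Complex.I := by
    rw [show Complex.I * (((-x : ℝ) : ℂ) * t) = ((-(x * t) : ℝ) : ℂ) * Complex.I by push_cast; ring,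
      Complex.exp_mul_I]
    push_cast
    rw [Complex.cos_neg, Complex.sin_neg]
    ring
  rw [h1, h2]
  simp only [Complex.mul_re, Complex.add_re, Complex.sub_re, Complex.add_im, Complex.sub_im,
    Complex.mul_im, Complex.I_re, Complex.I_im, Complex.ofReal_re, Complex.ofReal_im]
  ring

/-- the equilibrium potential is at most `3` near the origin -/
theorem pot_le (κ : ℕ) {h : ℤ → ℝ} (H : IsEqPot mu (ball (TT (κ + 1) : ℝ)) h) {x0 : ℤ}
    (hx0 : |x0| ≤ 4 * TT κ) : h x0 ≤ 3 := by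
  obtain ⟨g, hg, h1, hmin⟩ := H
  set T : ℝ := (TT (κ + 1) : ℝ) with hT
  set E : ℝ := Real.exp ((TT κ : ℝ) ^ 9) with hE
  set a : ℝ := am (κ + 2) with ha
  have hE1 : 1 ≤ E := one_le_E κ
  have hE0 : 0 < E := by linarith
  have haE : a = E⁻¹ := by rw [ha, hE, ← Real.exp_neg]; rfl
  have ha0 : 0 < a := am_pos _
  have hT0 : 0 < T := TT_pos' _
  -- the competitor
  set θ : ℝ := th (κ + 2) with hθ
  have hθT : θ * T ≤ Real.exp (-T / 2) := th_succ_le (κ + 1)
  have hθ0 : 0 < θ := th_pos _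
  set y : ℝ := Real.exp (-T) with hy
  have hy0 : 0 < y := Real.exp_pos _
  have hyE := exp_neg_T κ
  rw [← hT, ← hy, ← hE] at hyE
  have hy1 : y ≤ 1 / 64 := by
    refine hyE.trans ?_
    apply one_div_le_one_div_of_le (by norm_num)
    have : 1 ≤ E ^ 2 := one_le_pow₀ hE1
    linarith
  have hcos : ∀ x ∈ ball T, 1 - y / 2 ≤ Real.cos (θ * x) := by
    intro x hx
    have hx' : |(x : ℝ)| ≤ T := hx
    have h2 := Real.one_sub_sq_div_two_le_cos (x := θ * x)
    have h3 : (θ * x) ^ 2 ≤ y := by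
      have h6 : |θ * x| ≤ Real.exp (-T / 2) := by
        rw [abs_mul, abs_of_pos hθ0]
        exact (mul_le_mul_of_nonneg_left hx' hθ0.le).trans hθT
      rw [← sq_abs]
      calc |θ * x| ^ 2 ≤ (Real.exp (-T / 2)) ^ 2 := pow_le_pow_left₀ (abs_nonneg _) h6 2
        _ = _ := by rw [← Real.exp_nat_mul]; congr 1; push_cast; ring
    linarith
  set c : ℝ := (1 - y / 2)⁻¹ with hc
  have hc0 : 0 < 1 - y / 2 := by linarith
  have hc2 : c ^ 2 ≤ 1 + 4 * y := by
    rw [hc, inv_pow, inv_le_comm₀ (by positivity) (by positivity)]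
    rw [inv_le_iff_one_le_mul₀ (by positivity)]
    have e5 : (1 - y / 2) ^ 2 * (1 + 4 * y) = 1 + y * (3 - 15 / 4 * y + y ^ 2) := by ring
    have e6 : 0 ≤ y * (3 - 15 / 4 * y + y ^ 2) := by
      refine mul_nonneg hy0.le ?_
      have : 0 ≤ y ^ 2 := by positivity
      linarith
    rw [e5]
    linarith
  have hgn : ∫ t, ‖g t‖ ^ 2 ∂mu ≤ c ^ 2 * E := by
    have := hmin (gj (κ + 2) c) _ (rep_gj (κ + 2) c) (fun x hx => by
      have h4 := hcos x hx
      rw [hc, ← div_eq_inv_mul, le_div_iff₀ hc0, one_mul]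
      exact h4)
    rw [norm_gj, ← ha, haE, div_inv_eq_mul] at this
    exact this
  -- integrals of `Re g` against cosines
  have hgi : Integrable g mu := hg.1.integrable (by norm_num)
  have hre : ∀ n : ℤ, h n = ∫ t : ℝ, (Complex.exp (Complex.I * (n * t)) * g t).re ∂mu := by
    intro n
    have h5 := congrArg Complex.re (hg.2 n)
    rw [Complex.ofReal_re, FT, ← RCLike.re_eq_complex_re, ← integral_re (integrable_exp_mul hg.1 n)] at h5
    exact h5
  have hgre : Integrable (fun t => (g t).re) mu := hgi.re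
  have hcosint : ∀ n : ℤ, ∫ t, Real.cos ((n : ℝ) * t) * (g t).re ∂mu = (h n + h (-n)) / 2 := by
    intro n
    have i1 := (integrable_exp_mul hg.1 n).re
    have i2 := (integrable_exp_mul hg.1 (-n)).re
    have hadd := integral_add i1 i2
    simp only [RCLike.re_eq_complex_re] at hadd
    rw [hre n, hre (-n), eq_div_iff two_ne_zero, mul_comm, ← integral_const_mul]
    rw [← hadd]
    refine integral_congr_ae (Filter.Eventually.of_forall fun t => ?_)
    have := real_part_exp n t (g t)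
    simp only [Complex.ofReal_intCast] at this
    simp only [RCLike.re_eq_complex_re]
    rw [← this]
    push_cast
    rfl
  have hR := RR_pos' κ
  have hcosI : ∀ n : ℤ, Integrable (fun t => Real.cos ((n : ℝ) * t) * (g t).re) mu := by
    intro n
    refine hgre.bdd_mul (c := 1) (Continuous.aestronglyMeasurable (by fun_prop)) ?_
    exact Filter.Eventually.of_forall fun t => Real.abs_cos_le_one _
  have hrg : 1 ≤ ∫ t, rr κ t * (g t).re ∂mu := by
    have e : ∀ t, rr κ t * (g t).re = (RR κ : ℝ)⁻¹ * ∑ i ∈ Finset.range (RR κ),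
        Real.cos ((((TT (κ + 1) : ℤ) - RR κ + i : ℤ) : ℝ) * t) * (g t).re := by
      intro t; rw [rr, mul_assoc, Finset.sum_mul]
    simp only [e]
    rw [integral_const_mul, integral_finsetSum _ (fun i _ => hcosI _)]
    rw [← div_eq_inv_mul, le_div_iff₀ hR, one_mul]
    calc (RR κ : ℝ) = ∑ i ∈ Finset.range (RR κ), (1 : ℝ) := by simp
      _ ≤ _ := by
        refine Finset.sum_le_sum fun i hi => ?_
        rw [hcosint]
        obtain ⟨w1, w2⟩ := win κ hi
        have m1 : ((TT (κ + 1) : ℤ) - RR κ + i) ∈ ball T := by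
          rw [hT, mem_ball_iff, Finset.mem_Icc]; omega
        have m2 : -((TT (κ + 1) : ℤ) - RR κ + i) ∈ ball T := by
          rw [hT, mem_ball_iff, Finset.mem_Icc]; omega
        have a1 := h1 _ m1
        have a2 := h1 _ m2
        linarith
  -- the error
  set v : ℝ → ℂ := fun t => g t - ((E * rr κ t : ℝ) : ℂ) with hv
  have hvsq : ∀ t, ‖v t‖ ^ 2 = ‖g t‖ ^ 2 - 2 * E * (rr κ t * (g t).re) + E ^ 2 * rr κ t ^ 2 := by
    intro t
    rw [hv]
    simp only
    rw [← Complex.normSq_eq_norm_sq, ← Complex.normSq_eq_norm_sq, Complex.normSq_apply,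
      Complex.normSq_apply]
    simp
    ring
  have hrb : ∀ t, |rr κ t ^ 2| ≤ 1 := by
    intro t
    rw [abs_pow]
    exact pow_le_one₀ (abs_nonneg _) (rr_abs_le κ t)
  have i1 := sq_norm_integrable hg.1
  have i2 : Integrable (fun t => rr κ t * (g t).re) mu := by
    refine hgre.bdd_mul (c := 1) (Continuous.aestronglyMeasurable (by fun_prop)) ?_
    exact Filter.Eventually.of_forall fun t => rr_abs_le κ t
  have i3 : Integrable (fun t => rr κ t ^ 2) mu := integrable_bdd (by fun_prop) hrb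
  have hη : ∫ t, ‖v t‖ ^ 2 ∂mu ≤ 9 / 64 := by
    simp only [hvsq]
    rw [integral_add (f := fun t => ‖g t‖ ^ 2 - 2 * E * (rr κ t * (g t).re))
      (i1.sub (i2.const_mul _)) (i3.const_mul _), integral_sub i1 (i2.const_mul _),
      integral_const_mul, integral_const_mul]
    have q1 := rr_sq_le κ
    rw [← ha, ← hT, ← hy] at q1
    have q2 := th_RR κ
    rw [← hE] at q2
    have q3 := inv_RR κ
    rw [← hE] at q3
    have q4 : E ^ 2 * ∫ t, rr κ t ^ 2 ∂mu ≤
        E ^ 2 * (E⁻¹ + 1 / (32 * E ^ 2) + 2 * (1 / (64 * E ^ 2)) + 1 / (64 * E ^ 2)) := by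
      rw [← haE]
      gcongr
      linarith
    have q5 : E ^ 2 * (E⁻¹ + 1 / (32 * E ^ 2) + 2 * (1 / (64 * E ^ 2)) + 1 / (64 * E ^ 2)) =
        E + 5 / 64 := by
      field_simp
      ring
    have q6 : 2 * E * 1 ≤ 2 * E * ∫ t, rr κ t * (g t).re ∂mu := by gcongr
    have q7 : c ^ 2 * E ≤ (1 + 4 * y) * E := by gcongr
    have q8 : y * E ≤ 1 / 64 := by
      calc y * E ≤ (1 / (64 * E ^ 2)) * E := by gcongr
        _ = 1 / (64 * E) := by field_simp
        _ ≤ 1 / 64 := by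
          apply one_div_le_one_div_of_le (by norm_num)
          linarith
    nlinarith
  have hvm : MemLp v 2 mu := by
    refine hg.1.sub ?_
    refine MemLp.of_bound (Continuous.aestronglyMeasurable (by fun_prop)) E
      (Filter.Eventually.of_forall fun t => ?_)
    rw [Complex.norm_real, Real.norm_eq_abs, abs_mul, abs_of_pos hE0]
    exact mul_le_of_le_one_right hE0.le (rr_abs_le κ t)
  -- conclusion
  have hsplit : h x0 = ∫ t : ℝ, (Complex.exp (Complex.I * (x0 * t)) * v t).re ∂mu +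
      E * ∫ t, rr κ t * Real.cos ((x0 : ℝ) * t) ∂mu := by
    rw [hre x0, ← integral_const_mul, ← integral_add]
    · refine integral_congr_ae (Filter.Eventually.of_forall fun t => ?_)
      simp only [hv]
      rw [mul_sub, Complex.sub_re]
      have e1 : (Complex.exp (Complex.I * (x0 * t)) * ((E * rr κ t : ℝ) : ℂ)).re =
          Real.cos ((x0 : ℝ) * t) * (E * rr κ t) := by
        rw [Complex.re_mul_ofReal,
          show Complex.I * ((x0 : ℂ) * t) = (((x0 : ℝ) * t : ℝ) : ℂ) * Complex.I by push_cast; ring,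
          Complex.exp_ofReal_mul_I_re]
      rw [e1]
      ring
    · exact (integrable_exp_mul hvm x0).re
    · refine Integrable.const_mul (integrable_bdd (by fun_prop) fun t => ?_) _
      rw [abs_mul]
      exact mul_le_one₀ (rr_abs_le κ t) (abs_nonneg _) (Real.abs_cos_le_one _)
  have hfirst : ∫ t : ℝ, (Complex.exp (Complex.I * (x0 * t)) * v t).re ∂mu ≤
      3 / 2 * (9 / 64) + 1 / 2 := by
    have hint : Integrable (fun t => 3 / 2 * ‖v t‖ ^ 2 + 1 / 6) mu :=
      ((sq_norm_integrable hvm).const_mul _).add (integrable_const _)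
    calc ∫ t : ℝ, (Complex.exp (Complex.I * (x0 * t)) * v t).re ∂mu ≤
        ∫ t, (3 / 2 * ‖v t‖ ^ 2 + 1 / 6) ∂mu := by
          refine integral_mono (integrable_exp_mul hvm x0).re hint fun t => ?_
          have := norm_exp_I x0 t
          simp only [Complex.ofReal_intCast] at this
          have h6 : (Complex.exp (Complex.I * (x0 * t)) * v t).re ≤ ‖v t‖ := by
            refine (Complex.re_le_norm _).trans (le_of_eq ?_)
            rw [norm_mul, this, one_mul]
          simp only [RCLike.re_eq_complex_re]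
          nlinarith [sq_nonneg (3 * ‖v t‖ - 1)]
      _ = 3 / 2 * ∫ t, ‖v t‖ ^ 2 ∂mu + 1 / 6 * mu.real Set.univ := by
          rw [integral_add ((sq_norm_integrable hvm).const_mul _) (integrable_const _),
            integral_const_mul, integral_const, smul_eq_mul, mul_comm (mu.real _)]
      _ ≤ _ := by
          have := mu_univ_le
          linarith
  have hsecond : E * ∫ t, rr κ t * Real.cos ((x0 : ℝ) * t) ∂mu ≤ 1 + 1 / 16 := by
    have q1 := rr_cos_le κ hx0
    rw [← ha, ← hT, ← hy] at q1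
    have q2 := th_RR κ
    rw [← hE] at q2
    calc E * ∫ t, rr κ t * Real.cos ((x0 : ℝ) * t) ∂mu ≤
        E * (E⁻¹ + 1 / (32 * E ^ 2) + 2 * (1 / (64 * E ^ 2))) := by
          rw [← haE]
          gcongr
          linarith
      _ = 1 + 1 / (16 * E) := by field_simp; ring
      _ ≤ 1 + 1 / 16 := by
          gcongr
          linarith
  rw [hsplit]
  linarith

end Pool.Agent.Zk99.Pers
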