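import Pool.Agent.Zk99.Pers.Point

/-! The remainder is small with overwhelming probability. -/

set_option autoImplicit false

namespace Pool.Agent.Zk99.Pers

open MeasureTheory ProbabilityTheory Filter Topology
open scoped ENNReal NNReal

lemma two_mul_le_two_pow {m : ℕ} (hm : 1 ≤ m) : 2 * m ≤ 2 ^ m := by
  induction m, hm using Nat.le_induction with
  | base => norm_num
  | succ m hm ih =>
    rw [pow_succ]
    omega

lemma th_succ_le (k : ℕ) : th (k + 1) * TT k ≤ Real.exp (-(TT k : ℝ) / 2) := by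
  have hT : 4 ≤ TT k := four_le_TT k
  have hT' : (4 : ℝ) ≤ TT k := by exact_mod_cast hT
  have h1 : TT (k + 1) = 2 ^ (TT k ^ 12) := rfl
  have h2 : 2 * TT k ≤ TT k ^ 12 := by
    calc 2 * TT k ≤ TT k * TT k := by nlinarith
      _ = TT k ^ 2 := by ring
      _ ≤ TT k ^ 12 := Nat.pow_le_pow_right (by omega) (by norm_num)
  have h3 : (2 * TT k) * 2 ^ (TT k) ≤ TT (k + 1) := by
    rw [h1]
    calc (2 * TT k) * 2 ^ (TT k) ≤ 2 ^ (TT k) * 2 ^ (TT k) :=
          Nat.mul_le_mul_right _ (two_mul_le_two_pow (by omega))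
      _ = 2 ^ (2 * TT k) := by rw [← pow_add]; congr 1; ring
      _ ≤ _ := Nat.pow_le_pow_right (by norm_num) h2
  have h3' : (2 * (TT k : ℝ)) * 2 ^ (TT k) ≤ TT (k + 1) := by exact_mod_cast h3
  have h4 : Real.exp ((TT k : ℝ) / 2) ≤ 2 ^ (TT k) := by
    have h5 : (2 : ℝ) ^ (TT k) = Real.exp (Real.log 2 * TT k) := by
      rw [Real.exp_mul, Real.exp_log (by norm_num), Real.rpow_natCast]
    rw [h5]
    apply Real.exp_le_exp.2
    have := Real.log_two_gt_d9
    nlinarith
  have h6 : (2 * (TT k : ℝ)) * Real.exp ((TT k : ℝ) / 2) ≤ TT (k + 1) :=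
    (mul_le_mul_of_nonneg_left h4 (by positivity)).trans h3'
  have h7 := TT_pos' (k + 1)
  have h8 := TT_pos' k
  rw [th, neg_div, Real.exp_neg, div_mul_eq_mul_div, div_le_iff₀ (by positivity),
    ← div_eq_inv_mul, le_div_iff₀ (Real.exp_pos _)]
  have h9 := Real.pi_lt_four
  have h10 := Real.exp_pos ((TT k : ℝ) / 2)
  calc Real.pi * TT k * Real.exp ((TT k : ℝ) / 2) ≤ 4 * TT k * Real.exp ((TT k : ℝ) / 2) := by
        gcongr
    _ = 2 * ((2 * (TT k : ℝ)) * Real.exp ((TT k : ℝ) / 2)) := by ring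
    _ ≤ _ := by linarith

lemma summable_abs_of {c : ℕ → ℝ} (h : ∀ j, |c j| ≤ 2 * sa j) : Summable fun j => |c j| :=
  summable_of_le_sa h

lemma summable_sq_of {c : ℕ → ℝ} (h : ∀ j, |c j| ≤ 2 * sa j) : Summable fun j => c j ^ 2 := by
  refine Summable.of_nonneg_of_le (fun j => sq_nonneg _) (fun j => ?_) (summable_sa.mul_left 4)
  have h1 := h j
  have h2 := sa_le_one j
  have h3 := sa_pos j
  rw [← sq_abs]
  nlinarith [abs_nonneg (c j)]

lemma var_err_le {k : ℕ} {x : ℤ} (hx : x ∈ DD (TT k)) :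
    ∑' j, c1 k x j ^ 2 + ∑' j, d1 k x j ^ 2 ≤ 3 * Real.exp (-(TT k : ℝ)) := by
  have s1 := summable_sq_of (abs_c1_le k x)
  have s2 := summable_sq_of (abs_d1_le k x)
  rw [← s1.tsum_add s2, ← (s1.add s2).sum_add_tsum_nat_add (k + 2), Finset.sum_range_succ]
  have z : ∑ j ∈ Finset.range (k + 1), (c1 k x j ^ 2 + d1 k x j ^ 2) = 0 := by
    refine Finset.sum_eq_zero fun j hj => ?_
    have hj' : j ≤ k := Nat.lt_succ_iff.1 (Finset.mem_range.1 hj)
    simp [c1, d1, hj']
  have hx' : |(x : ℝ)| ≤ TT k := by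
    have := (mem_ball_iff (TT k) x).2 hx
    simpa [ball] using this
  have e1 : c1 k x (k + 1) ^ 2 + d1 k x (k + 1) ^ 2 ≤ Real.exp (-(TT k : ℝ)) := by
    have h1 : c1 k x (k + 1) = sa (k + 1) * (Real.cos (th (k + 1) * x) - 1) := by
      rw [c1, if_neg (by omega), if_pos rfl]
    have h2 : d1 k x (k + 1) = sa (k + 1) * Real.sin (th (k + 1) * x) := by
      rw [d1, if_neg (by omega), dd]
    have h3 := Real.cos_sq_add_sin_sq (th (k + 1) * x)
    have h4 := Real.one_sub_sq_div_two_le_cos (x := th (k + 1) * x)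
    have h5 : (th (k + 1) * x) ^ 2 ≤ Real.exp (-(TT k : ℝ)) := by
      have h6 : |th (k + 1) * x| ≤ Real.exp (-(TT k : ℝ) / 2) := by
        rw [abs_mul, abs_of_pos (th_pos _)]
        exact (mul_le_mul_of_nonneg_left hx' (th_pos _).le).trans (th_succ_le k)
      rw [← sq_abs]
      calc |th (k + 1) * x| ^ 2 ≤ (Real.exp (-(TT k : ℝ) / 2)) ^ 2 :=
            pow_le_pow_left₀ (abs_nonneg _) h6 2
        _ = _ := by rw [← Real.exp_nat_mul]; congr 1; push_cast; ring
    rw [h1, h2]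
    have h7 : (sa (k + 1) * (Real.cos (th (k + 1) * x) - 1)) ^ 2 +
        (sa (k + 1) * Real.sin (th (k + 1) * x)) ^ 2 =
        sa (k + 1) ^ 2 * (2 - 2 * Real.cos (th (k + 1) * x)) := by
      linear_combination (sa (k + 1) ^ 2) * h3
    rw [h7, sa_sq]
    have h8 := am_le_one (k + 1)
    have h9 := am_pos (k + 1)
    have h10 : 0 ≤ 2 - 2 * Real.cos (th (k + 1) * x) := by
      linarith [Real.cos_le_one (th (k + 1) * x)]
    calc am (k + 1) * (2 - 2 * Real.cos (th (k + 1) * x)) ≤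
        1 * (2 - 2 * Real.cos (th (k + 1) * x)) := mul_le_mul_of_nonneg_right h8 h10
      _ ≤ _ := by linarith
  have e2 : ∑' i, (c1 k x (i + (k + 2)) ^ 2 + d1 k x (i + (k + 2)) ^ 2) ≤
      2 * Real.exp (-(TT k : ℝ)) := by
    have h1 : ∀ i, c1 k x (i + (k + 2)) ^ 2 + d1 k x (i + (k + 2)) ^ 2 = am (k + 1 + i + 1) := by
      intro i
      rw [c1, d1, if_neg (by omega), if_neg (by omega), if_neg (by omega), cc, dd, mul_pow,
        mul_pow, ← mul_add, Real.cos_sq_add_sin_sq, mul_one, sa_sq]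
      congr 1; omega
    simp only [h1]
    exact tail_am (k + 1)
  rw [z]
  linarith

lemma map_err (k : ℕ) (x : ℤ) : M1.map (err k x) =
    gaussianReal 0 ((∑' j, c1 k x j ^ 2).toNNReal + (∑' j, d1 k x j ^ 2).toNNReal) := by
  unfold err
  exact map_prod_add (μ := GG ℕ) (ν := GG ℕ) (measurable_ser _) (measurable_ser _)
    (map_ser (summable_abs_of (abs_c1_le k x))) (map_ser (summable_abs_of (abs_d1_le k x)))

@[fun_prop]
lemma measurable_err (k : ℕ) (x : ℤ) : Measurable (err k x) := by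
  unfold err
  exact ((measurable_ser _).comp measurable_fst).add ((measurable_ser _).comp measurable_snd)

lemma gauss_cheb (v : ℝ≥0) : (gaussianReal 0 v).real {y | 1 < |y|} ≤ v := by
  have h1 : Integrable (fun y : ℝ => y ^ 2) (gaussianReal 0 v) :=
    (memLp_id_gaussianReal' (μ := 0) (v := v) 2 (by simp)).integrable_sq
  have h2 := mul_meas_ge_le_integral_of_nonneg (μ := gaussianReal 0 v)
    (Filter.Eventually.of_forall fun y : ℝ => sq_nonneg y) h1 1
  rw [one_mul, integral_sq_gaussian] at h2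
  refine le_trans (measureReal_mono ?_) h2
  intro y hy
  simp only [Set.mem_ofPred_eq] at hy ⊢
  rw [← sq_abs]
  nlinarith

lemma err_prob {k : ℕ} {x : ℤ} (hx : x ∈ DD (TT k)) :
    M1.real {p | 1 < |err k x p|} ≤ 3 * Real.exp (-(TT k : ℝ)) := by
  have h1 : M1.real {p | 1 < |err k x p|} = (M1.map (err k x)).real {y | 1 < |y|} := by
    have hs : MeasurableSet {y : ℝ | 1 < |y|} :=
      measurableSet_lt measurable_const continuous_abs.measurable
    rw [map_measureReal_apply (measurable_err k x) hs]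
    rfl
  rw [h1, map_err]
  refine (gauss_cheb _).trans ?_
  rw [NNReal.coe_add, Real.coe_toNNReal _ (tsum_nonneg fun j => sq_nonneg _),
    Real.coe_toNNReal _ (tsum_nonneg fun j => sq_nonneg _)]
  exact var_err_le hx

/-- the bound on the probability of the bad set -/
noncomputable def beta (k : ℕ) : ℝ := (2 * TT k + 1) * (3 * Real.exp (-(TT k : ℝ)))

/-- the bad set -/
def Bd (k : ℕ) : Set ((ℕ → ℝ) × (ℕ → ℝ)) := ⋃ x ∈ DD (TT k), {p | 1 < |err k x p|}

lemma measurableSet_Bd (k : ℕ) : MeasurableSet (Bd k) :=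
  Finset.measurableSet_biUnion _ fun x _ =>
    measurableSet_lt measurable_const (continuous_abs.measurable.comp (measurable_err k x))

lemma ae_good (k : ℕ) : ∀ᵐ p ∂M1, p ∉ Bd k → p ∈ Good k := by
  filter_upwards [ae_M1_SS] with p hp hpg
  refine ⟨hp.1, hp.2, fun x hx => ?_⟩
  by_contra hx2
  push Not at hx2
  exact hpg (Set.mem_biUnion hx hx2)

theorem bad_prob (k : ℕ) : M1.real (Bd k) ≤ beta k := by
  refine (measureReal_biUnion_finset_le _ _).trans ?_
  calc ∑ x ∈ DD (TT k), M1.real {p | 1 < |err k x p|} ≤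
      ∑ x ∈ DD (TT k), 3 * Real.exp (-(TT k : ℝ)) := Finset.sum_le_sum fun x hx => err_prob hx
    _ = beta k := by
      rw [Finset.sum_const, nsmul_eq_mul, beta]
      congr 1
      simp only [DD, Int.card_Icc]
      have : ((TT k : ℤ) + 1 - -(TT k : ℤ)).toNat = 2 * TT k + 1 := by omega
      rw [this]; push_cast; ring

lemma measurableSet_Fav (k : ℕ) (w : ℝ) : MeasurableSet (Fav k w) := by
  have e1 : ∀ j : ℕ, Measurable (fun p : (ℕ → ℝ) × (ℕ → ℝ) => p.1 j) := fun j =>
    (measurable_pi_apply j).comp measurable_fst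
  have e2 : ∀ j : ℕ, Measurable (fun p : (ℕ → ℝ) × (ℕ → ℝ) => p.2 j) := fun j =>
    (measurable_pi_apply j).comp measurable_snd
  have : Fav k w = {p | w ≤ sa k * p.1 k} ∩ ((⋂ j : ℕ, {p | j < k → |p.1 j| ≤ 1}) ∩
      ⋂ j : ℕ, {p | j ≤ k → |p.2 j| ≤ 1}) := by
    ext p
    simp [Fav]
  rw [this]
  refine (measurableSet_le measurable_const ((e1 k).const_mul _)).inter
    ((MeasurableSet.iInter fun j => ?_).inter (MeasurableSet.iInter fun j => ?_))
  · by_cases h : j < k
    · simpa [h] using measurableSet_le (e1 j).abs measurable_const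
    · simp [h]
  · by_cases h : j ≤ k
    · simpa [h] using measurableSet_le (e2 j).abs measurable_const
    · simp [h]

end Pool.Agent.Zk99.Pers
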