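import Pool.Agent.Zk99.Pers.Tail

/-! Comparison of the two one-dimensional integrals. -/

set_option autoImplicit false

namespace Pool.Agent.Zk99.Pers

open MeasureTheory ProbabilityTheory Filter Topology
open scoped ENNReal NNReal

lemma measurable_qq : Measurable qq := qq_anti.measurable

/-- the lower profile -/
noncomputable def gl (M v : ℝ) : ℝ := if 7 ≤ v then Real.exp (-(M * qq (v - 6))) else 0

/-- the upper profile -/
noncomputable def gu (J v : ℝ) : ℝ := Real.exp (-(J * qq (max v 0 + 2)))

lemma measurable_gl (M : ℝ) : Measurable (gl M) := by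
  unfold gl
  refine Measurable.ite measurableSet_Ici ?_ measurable_const
  exact Real.measurable_exp.comp ((measurable_const.mul
    (measurable_qq.comp (measurable_id.sub measurable_const))).neg)

lemma measurable_gu (J : ℝ) : Measurable (gu J) := by
  unfold gu
  exact Real.measurable_exp.comp ((measurable_const.mul
    (measurable_qq.comp ((measurable_id.max measurable_const).add measurable_const))).neg)

lemma gl_nonneg (M v : ℝ) : 0 ≤ gl M v := by
  unfold gl; split_ifs <;> positivity

lemma gl_le_one {M : ℝ} (hM : 0 ≤ M) (v : ℝ) : gl M v ≤ 1 := by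
  unfold gl
  split_ifs
  · exact Real.exp_le_one_iff.2 (neg_nonpos.2 (mul_nonneg hM (qq_nonneg _)))
  · norm_num

lemma gu_nonneg (J v : ℝ) : 0 ≤ gu J v := (Real.exp_pos _).le

lemma gu_le_one {J : ℝ} (hJ : 0 ≤ J) (v : ℝ) : gu J v ≤ 1 :=
  Real.exp_le_one_iff.2 (neg_nonpos.2 (mul_nonneg hJ (qq_nonneg _)))

lemma integrable_of_bdd {α : Type} [MeasurableSpace α] {μ : Measure α} [IsFiniteMeasure μ]
    {g : α → ℝ} (hg : AEStronglyMeasurable g μ) (h : ∀ x, |g x| ≤ 1) : Integrable g μ :=
  Integrable.of_bound hg 1 (Filter.Eventually.of_forall fun x => by simpa using h x)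

lemma pdf_s (s : ℝ≥0) (v : ℝ) : gaussianPDFReal 0 s v =
    (√(2 * Real.pi * s))⁻¹ * Real.exp (-v ^ 2 / (2 * s)) := by
  rw [gaussianPDFReal_def]; simp

/-- shift by one of the lower profile -/
lemma shift_le {s : ℝ≥0} (hs : 0 < s) {M : ℝ} (hM : 0 ≤ M) :
    ∫ v, gl M (v - 1) ∂(gaussianReal 0 s) ≤
      Real.exp (-(1 / (s : ℝ))) * ∫ v, gl M v ∂(gaussianReal 0 s) := by
  have hs' : (0 : ℝ) < s := hs
  rw [integral_gaussianReal_eq_integral_smul hs.ne', integral_gaussianReal_eq_integral_smul hs.ne']
  simp only [smul_eq_mul]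
  have h1 : ∫ v, gaussianPDFReal 0 s v * gl M (v - 1) =
      ∫ v, gaussianPDFReal 0 s (v + 1) * gl M v := by
    rw [← integral_add_right_eq_self (fun v => gaussianPDFReal 0 s v * gl M (v - 1)) 1]
    simp
  rw [h1, ← integral_const_mul]
  have hi : Integrable (gaussianPDFReal 0 s) := integrable_gaussianPDFReal 0 s
  refine integral_mono ?_ ?_ ?_
  · refine Integrable.mono' (hi.comp_add_right 1) ?_ ?_
    · exact ((measurable_gaussianPDFReal 0 s).comp (measurable_id.add measurable_const)).mul
        (measurable_gl M) |>.aestronglyMeasurable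
    · filter_upwards with v
      rw [Real.norm_eq_abs, abs_mul, abs_of_nonneg (gaussianPDFReal_nonneg _ _ _),
        abs_of_nonneg (gl_nonneg _ _)]
      exact mul_le_of_le_one_right (gaussianPDFReal_nonneg _ _ _) (gl_le_one hM v)
  · refine Integrable.const_mul ?_ _
    refine Integrable.mono' hi ?_ ?_
    · exact ((measurable_gaussianPDFReal 0 s)).mul (measurable_gl M) |>.aestronglyMeasurable
    · filter_upwards with v
      rw [Real.norm_eq_abs, abs_mul, abs_of_nonneg (gaussianPDFReal_nonneg _ _ _),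
        abs_of_nonneg (gl_nonneg _ _)]
      exact mul_le_of_le_one_right (gaussianPDFReal_nonneg _ _ _) (gl_le_one hM v)
  · intro v
    by_cases hv : 7 ≤ v
    · have h2 : gaussianPDFReal 0 s (v + 1) ≤ Real.exp (-(1 / (s : ℝ))) * gaussianPDFReal 0 s v := by
        rw [pdf_s, pdf_s]
        have h3 : Real.exp (-(v + 1) ^ 2 / (2 * s)) ≤
            Real.exp (-(1 / (s : ℝ))) * Real.exp (-v ^ 2 / (2 * s)) := by
          rw [← Real.exp_add]
          apply Real.exp_le_exp.2
          rw [show -(1 / (s : ℝ)) + -v ^ 2 / (2 * s) = (-v ^ 2 - 2) / (2 * s) by field_simp; ring]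
          apply div_le_div_of_nonneg_right _ (by positivity)
          nlinarith
        have h4 : 0 ≤ (√(2 * Real.pi * s))⁻¹ := by positivity
        nlinarith
      have h5 := gl_nonneg M v
      simp only
      nlinarith
    · simp [gl, hv]

/-- The comparison. -/
theorem compare {s : ℝ≥0} (hs : 0 < s) {M J B : ℝ} (hM : 0 ≤ M) (hJ : 0 ≤ J)
    (h : ∀ v, 8 ≤ v → v ≤ B → M * qq (v - 7) ≤ J * qq (v + 2)) :
    ∫ v, gu J v ∂(gaussianReal 0 s) ≤ Real.exp (-(J * qq 10)) +
      Real.exp (-(1 / (s : ℝ))) * ∫ v, gl M v ∂(gaussianReal 0 s) +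
      (gaussianReal 0 s).real (Set.Ioi B) := by
  have hp : ∀ v, gu J v ≤ Real.exp (-(J * qq 10)) + gl M (v - 1) +
      (Set.Ioi B).indicator (fun _ => (1 : ℝ)) v := by
    intro v
    rcases lt_or_ge v 8 with h8 | h8
    · have h1 : gu J v ≤ Real.exp (-(J * qq 10)) := by
        unfold gu
        apply Real.exp_le_exp.2
        have : qq 10 ≤ qq (max v 0 + 2) := qq_anti (by
          have : max v 0 ≤ 8 := max_le h8.le (by norm_num)
          linarith)
        nlinarith
      have h2 := gl_nonneg M (v - 1)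
      have h3 : 0 ≤ (Set.Ioi B).indicator (fun _ => (1 : ℝ)) v :=
        Set.indicator_nonneg (fun _ _ => zero_le_one) v
      linarith
    · rcases le_or_gt v B with hB | hB
      · have h1 : gu J v ≤ gl M (v - 1) := by
          unfold gu gl
          rw [if_pos (by linarith)]
          apply Real.exp_le_exp.2
          rw [max_eq_left (by linarith)]
          have := h v h8 hB
          rw [show v - 1 - 6 = v - 7 by ring]
          linarith
        have h2 : 0 < Real.exp (-(J * qq 10)) := Real.exp_pos _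
        have h3 : 0 ≤ (Set.Ioi B).indicator (fun _ => (1 : ℝ)) v :=
          Set.indicator_nonneg (fun _ _ => zero_le_one) v
        linarith
      · rw [Set.indicator_of_mem (show v ∈ Set.Ioi B from hB)]
        have h1 := gu_le_one hJ v
        have h2 : 0 < Real.exp (-(J * qq 10)) := Real.exp_pos _
        have h3 := gl_nonneg M (v - 1)
        linarith
  have i1 : Integrable (fun v => gu J v) (gaussianReal 0 s) :=
    integrable_of_bdd (measurable_gu J).aestronglyMeasurable fun v => by
      rw [abs_of_nonneg (gu_nonneg _ _)]; exact gu_le_one hJ v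
  have i2 : Integrable (fun v => gl M (v - 1)) (gaussianReal 0 s) :=
    integrable_of_bdd ((measurable_gl M).comp (measurable_id.sub
      measurable_const)).aestronglyMeasurable fun v => by
      rw [abs_of_nonneg (gl_nonneg _ _)]; exact gl_le_one hM _
  have i3 : Integrable ((Set.Ioi B).indicator (fun _ => (1 : ℝ))) (gaussianReal 0 s) :=
    (integrable_const (1 : ℝ)).indicator measurableSet_Ioi
  calc ∫ v, gu J v ∂(gaussianReal 0 s) ≤ ∫ v, (Real.exp (-(J * qq 10)) + gl M (v - 1) +
      (Set.Ioi B).indicator (fun _ => (1 : ℝ)) v) ∂(gaussianReal 0 s) :=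
        integral_mono i1 (((integrable_const _).add i2).add i3) hp
    _ = Real.exp (-(J * qq 10)) + ∫ v, gl M (v - 1) ∂(gaussianReal 0 s) +
        (gaussianReal 0 s).real (Set.Ioi B) := by
      rw [integral_add (f := fun v => Real.exp (-(J * qq 10)) + gl M (v - 1))
        ((integrable_const _).add i2) i3, integral_add (integrable_const _) i2,
        integral_indicator_const _ measurableSet_Ioi]
      simp
    _ ≤ _ := by gcongr; exact shift_le hs hM

lemma gauss_s_eq {σ : ℝ} (A : Set ℝ) (hA : MeasurableSet A) :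
    (gaussianReal 0 (σ ^ 2).toNNReal).real A = (gaussianReal 0 1).real ((fun x => σ * x) ⁻¹' A) := by
  have h := gaussianReal_map_const_mul (μ := 0) (v := 1) σ
  have e : gaussianReal 0 (σ ^ 2).toNNReal = (gaussianReal 0 1).map (fun x => σ * x) := by
    rw [h]
    congr 1
    · simp
    · ext; simp [Real.coe_toNNReal _ (sq_nonneg σ)]
  rw [e, map_measureReal_apply (by fun_prop) hA]

/-- upper tail -/
lemma gauss_s_tail {σ B : ℝ} (hσ : 0 < σ) (hB : 0 ≤ B) :
    (gaussianReal 0 (σ ^ 2).toNNReal).real (Set.Ioi B) ≤ Real.exp (-(B / σ) ^ 2 / 2) := by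
  rw [gauss_s_eq _ measurableSet_Ioi]
  have : (fun x => σ * x) ⁻¹' Set.Ioi B = Set.Ioi (B / σ) := by
    ext x; simp [div_lt_iff₀ hσ, mul_comm]
  rw [this]
  exact qq_le_exp (by positivity)

/-- lower bound for the second integral -/
lemma gl_integral_ge {σ : ℝ} (hσ : 0 < σ) (hσ1 : σ ≤ 1) {M u : ℝ} (hM : 0 ≤ M) (hu : 7 ≤ u)
    (hMu : M * qq (u - 6) ≤ 1) :
    Real.exp (-1) * ((1 / 3) * Real.exp (-((u + 1) / σ) ^ 2 / 2)) ≤
      ∫ v, gl M v ∂(gaussianReal 0 (σ ^ 2).toNNReal) := by
  have h1 : ∀ v, (Set.Icc u (u + 1)).indicator (fun _ => Real.exp (-1)) v ≤ gl M v := by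
    intro v
    by_cases hv : v ∈ Set.Icc u (u + 1)
    · rw [Set.indicator_of_mem hv, gl, if_pos (hu.trans hv.1)]
      apply Real.exp_le_exp.2
      have : qq (v - 6) ≤ qq (u - 6) := qq_anti (by linarith [hv.1])
      nlinarith
    · rw [Set.indicator_of_notMem hv]; exact gl_nonneg _ _
  have i1 : Integrable (fun v => gl M v) (gaussianReal 0 (σ ^ 2).toNNReal) :=
    integrable_of_bdd (measurable_gl M).aestronglyMeasurable fun v => by
      rw [abs_of_nonneg (gl_nonneg _ _)]; exact gl_le_one hM _
  have h2 := integral_mono (μ := gaussianReal 0 (σ ^ 2).toNNReal)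
    ((integrable_const (Real.exp (-1))).indicator (measurableSet_Icc (a := u) (b := u + 1))) i1 h1
  rw [integral_indicator_const _ measurableSet_Icc, smul_eq_mul] at h2
  refine le_trans ?_ h2
  rw [mul_comm (Real.exp (-1))]
  refine mul_le_mul_of_nonneg_right ?_ (Real.exp_pos _).le
  rw [gauss_s_eq _ measurableSet_Icc]
  have h3 : Set.Icc (u / σ) (u / σ + 1) ⊆ (fun x => σ * x) ⁻¹' Set.Icc u (u + 1) := by
    intro x hx
    simp only [Set.mem_preimage, Set.mem_Icc] at hx ⊢
    constructor
    · have := hx.1; rw [div_le_iff₀ hσ] at this; linarith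
    · have h4 : σ * x ≤ σ * (u / σ + 1) := mul_le_mul_of_nonneg_left hx.2 hσ.le
      have h5 : σ * (u / σ + 1) = u + σ := by field_simp
      linarith
  refine le_trans ?_ (measureReal_mono h3)
  refine le_trans ?_ (gauss_Icc_ge (u := u / σ) (by positivity))
  have h6 : u / σ + 1 ≤ (u + 1) / σ := by
    rw [add_div]
    have : 1 ≤ 1 / σ := by rw [le_div_iff₀ hσ]; linarith
    linarith
  have h7 : 0 ≤ u / σ + 1 := by positivity
  gcongr

end Pool.Agent.Zk99.Pers
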