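import Mathlib

/-! Definitions: stationary Gaussian fields on `ℤ`, their spectral measure and RKHS, equilibrium
potentials, persistence. -/

set_option autoImplicit false

namespace Pool.Agent.Zk99.Pers

open MeasureTheory ProbabilityTheory

/-- `μ` is a spectral measure on the circle `(-π, π)`: finite, non-negative, symmetric. -/
structure IsSpectral (μ : Measure ℝ) : Prop where
  finite : IsFiniteMeasure μ
  symm : μ.map (fun t => -t) = μ
  supp : μ (Set.Ioo (-Real.pi) Real.pi)ᶜ = 0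

/-- `f` is a centred stationary Gaussian field on `ℤ` (defined on the probability space `(Ω, P)`)
with spectral measure `μ`: `E[f x * f y] = K (x - y)`, where `K x = ∫ cos (x t) dμ(t)` is the
Fourier transform of `μ`. -/
structure IsField {Ω : Type} [MeasurableSpace Ω] (P : Measure Ω) (f : ℤ → Ω → ℝ)
    (μ : Measure ℝ) : Prop where
  gaussian : IsGaussianProcess f P
  mean : ∀ x, ∫ ω, f x ω ∂P = 0
  cov : ∀ x y, ∫ ω, f x ω * f y ω ∂P = ∫ t, Real.cos (((x : ℝ) - y) * t) ∂μ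

/-- non-degeneracy: every non-trivial linear combination of values has positive variance -/
def NonDegenerate {Ω : Type} [MeasurableSpace Ω] (P : Measure Ω) (f : ℤ → Ω → ℝ) : Prop :=
  ∀ (s : Finset ℤ) (c : ℤ → ℝ), (∃ x ∈ s, c x ≠ 0) → 0 < ∫ ω, (∑ x ∈ s, c x * f x ω) ^ 2 ∂P

/-- The function `F[g dμ]` on `ℤ`. -/
noncomputable def FT (μ : Measure ℝ) (g : ℝ → ℂ) (x : ℤ) : ℂ :=
  ∫ t, Complex.exp (Complex.I * (x * t)) * g t ∂μ

/-- `h` is the element `F[g dμ]`, `g ∈ L²(μ)`, of the RKHS; its squared norm is `∫ |g|² dμ`. -/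
def Rep (μ : Measure ℝ) (g : ℝ → ℂ) (h : ℤ → ℝ) : Prop :=
  MemLp g 2 μ ∧ ∀ x : ℤ, (h x : ℂ) = FT μ g x

/-- `h` is the equilibrium potential of `D`: it minimises the norm of the RKHS among the elements
which are at least `1` on `D`. -/
def IsEqPot (μ : Measure ℝ) (D : Set ℤ) (h : ℤ → ℝ) : Prop :=
  ∃ g : ℝ → ℂ, Rep μ g h ∧ (∀ x ∈ D, 1 ≤ h x) ∧
    ∀ (g' : ℝ → ℂ) (h' : ℤ → ℝ), Rep μ g' h' → (∀ x ∈ D, 1 ≤ h' x) →
      ∫ t, ‖g t‖ ^ 2 ∂μ ≤ ∫ t, ‖g' t‖ ^ 2 ∂μ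

/-- the ball `B(T)` of `ℤ` -/
def ball (T : ℝ) : Set ℤ := {x | |(x : ℝ)| ≤ T}

/-- the persistence event on `B(T)` -/
def Per {Ω : Type} (f : ℤ → Ω → ℝ) (T : ℝ) : Set Ω := {ω | ∀ x ∈ ball T, 0 ≤ f x ω}

/-- `ℓ_T = √(2 m (d - α) log T)` for `d = 1` -/
noncomputable def ell (m α T : ℝ) : ℝ := √(2 * m * (1 - α) * Real.log T)

end Pool.Agent.Zk99.Pers
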