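import Pool.Agent.Zk99.Pers.Asym

/-! The conditional expectation near the origin. -/

set_option autoImplicit false

namespace Pool.Agent.Zk99.Pers

open MeasureTheory ProbabilityTheory Filter Topology
open scoped ENNReal NNReal

/-- reflection of one coordinate -/
def refl (x : ℤ) (z : ℤ → ℝ) : ℤ → ℝ := fun y => if y = x then -z y else z y

lemma measurable_refl (x : ℤ) : Measurable (refl x) := by
  refine measurable_pi_lambda _ fun y => ?_
  unfold refl
  by_cases h : y = x
  · simp only [h, if_true]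
    exact (meas_eval x).neg
  · simp only [h, if_false]
    exact meas_eval y

lemma mp_refl (x : ℤ) : MeasurePreserving (refl x) (GG ℤ) (GG ℤ) := by
  refine ⟨measurable_refl x, ?_⟩
  have h := Measure.infinitePi_map_pi (μ := fun _ : ℤ => gaussianReal 0 1)
    (f := fun (y : ℤ) (t : ℝ) => if y = x then -t else t) (fun y => by
      by_cases h : y = x
      · simp only [h, if_true]
        exact measurable_neg
      · simp only [h, if_false]
        exact measurable_id)
  have e : (fun y : ℤ => (gaussianReal 0 1).map (fun t : ℝ => if y = x then -t else t)) =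
      fun _ => gaussianReal 0 1 := by
    funext y
    by_cases h : y = x
    · have := gaussianReal_map_neg (μ := 0) (v := 1)
      rw [neg_zero] at this
      simpa [h] using this
    · simp only [h, if_false]
      exact Measure.map_id
  rw [e] at h
  exact h

/-- reflection on the full space -/
def refl2 (x : ℤ) (q : ((ℕ → ℝ) × (ℕ → ℝ)) × (ℤ → ℝ)) : ((ℕ → ℝ) × (ℕ → ℝ)) × (ℤ → ℝ) :=
  (q.1, refl x q.2)

lemma mp_refl2 (x : ℤ) : MeasurePreserving (refl2 x) PP PP :=
  (MeasurePreserving.id M1).prod (mp_refl x)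

lemma integrable_noise (x : ℤ) : Integrable (fun q : ((ℕ → ℝ) × (ℕ → ℝ)) × (ℤ → ℝ) => q.2 x) PP := by
  have h : Integrable (fun z : ℤ → ℝ => z x) (GG ℤ) :=
    (memLp_eval x 2 (by norm_num)).integrable (by norm_num)
  exact h.comp_snd M1

/-- conditionally on persistence the noise is non-negative in mean -/
lemma noise_nonneg (T : ℕ) {x : ℤ} (hx : x ∈ DD T) {A : Set ((ℕ → ℝ) × (ℕ → ℝ))}
    (hA : MeasurableSet A) :
    0 ≤ ∫ q in Per ff (T : ℝ) ∩ Prod.fst ⁻¹' A, q.2 x ∂PP := by
  set S : Set (((ℕ → ℝ) × (ℕ → ℝ)) × (ℤ → ℝ)) := Per ff (T : ℝ) ∩ Prod.fst ⁻¹' A with hS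
  have hm : MeasurableSet S := (measurableSet_Per T).inter (measurable_fst hA)
  have hi := integrable_noise x
  have h1 : ∫ q in S, q.2 x ∂PP = ∫ q, S.indicator (fun q => q.2 x) q ∂PP :=
    (integral_indicator hm).symm
  have h2 : ∫ q, S.indicator (fun q => q.2 x) q ∂PP =
      ∫ q, S.indicator (fun q => q.2 x) (refl2 x q) ∂PP := by
    have hmp := mp_refl2 x
    have hsm : AEStronglyMeasurable (S.indicator (fun q => q.2 x)) (PP.map (refl2 x)) := by
      rw [hmp.map_eq]; exact (hi.indicator hm).aestronglyMeasurable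
    conv_lhs => rw [← hmp.map_eq]
    rw [integral_map hmp.measurable.aemeasurable hsm]
  have i1 : Integrable (S.indicator (fun q => q.2 x)) PP := hi.indicator hm
  have i2 : Integrable (fun q => S.indicator (fun q => q.2 x) (refl2 x q)) PP :=
    (mp_refl2 x).integrable_comp_of_integrable i1
  have h3 : 0 ≤ ∫ q, (S.indicator (fun q => q.2 x) q + S.indicator (fun q => q.2 x) (refl2 x q)) ∂PP := by
    refine integral_nonneg fun q => ?_
    have e2 : (refl2 x q).2 x = -q.2 x := by simp [refl2, refl]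
    have key : 0 ≤ q.2 x → refl2 x q ∈ S → q ∈ S := by
      intro h0 hq
      refine ⟨?_, hq.2⟩
      rw [Per_eq]
      have h4 := hq.1
      rw [Per_eq] at h4
      intro y hy
      have h5 := h4 y hy
      by_cases hyx : y = x
      · subst hyx
        simp only [ff, refl2, refl, if_true] at h5
        simp only [ff]
        linarith
      · simpa [ff, refl2, refl, hyx] using h5
    have key2 : q.2 x ≤ 0 → q ∈ S → refl2 x q ∈ S := by
      intro h0 hq
      refine ⟨?_, hq.2⟩
      rw [Per_eq]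
      have h4 := hq.1
      rw [Per_eq] at h4
      intro y hy
      have h5 := h4 y hy
      by_cases hyx : y = x
      · subst hyx
        simp only [ff, refl2, refl, if_true]
        simp only [ff] at h5
        linarith
      · simpa [ff, refl2, refl, hyx] using h5
    simp only [Pi.zero_apply]
    by_cases a : q ∈ S <;> by_cases b : refl2 x q ∈ S
    · rw [Set.indicator_of_mem a, Set.indicator_of_mem b, e2]; linarith
    · rw [Set.indicator_of_mem a, Set.indicator_of_notMem b]
      by_contra hcon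
      exact b (key2 (by linarith) a)
    · rw [Set.indicator_of_notMem a, Set.indicator_of_mem b, e2]
      by_contra hcon
      exact a (key (by linarith) b)
    · rw [Set.indicator_of_notMem a, Set.indicator_of_notMem b]; linarith
  rw [integral_add i1 i2, ← h2, ← h1] at h3
  linarith

lemma PP_Per_pos (κ : ℕ) : 0 < PP.real (Per ff (TT (κ + 1) : ℝ)) := by
  have h1 := half_prob κ (L := -1) (by have := TT_pos' κ; norm_num)
  have h2 : 0 ≤ PP.real (Per ff (TT (κ + 1) : ℝ) ∩ Prod.fst ⁻¹' (AA κ (-1))) := measureReal_nonneg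
  linarith

theorem exists_large (κ : ℕ) {L : ℝ} (hL0 : 0 ≤ L) (hL : 4 * (L + 1) ≤ (TT κ : ℝ) ^ 12) :
    ∃ x : ℤ, |x| ≤ 4 * TT κ ∧
      L / 2 ≤ ∫ q, ff x q ∂(ProbabilityTheory.cond PP (Per ff (TT (κ + 1) : ℝ))) := by
  have hhalf := half_prob κ hL
  have hpos := PP_Per_pos κ
  set B := Per ff (TT (κ + 1) : ℝ) with hB
  set A := AA κ L with hA
  have hBm : MeasurableSet B := measurableSet_Per _
  have hAm : MeasurableSet A := measurableSet_AA κ L
  have hb := hb1 κ
  have hb0 : 0 < 4 * TT κ := by have := TT_pos κ; omega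
  set b := 4 * TT κ with hbdef
  set F : (((ℕ → ℝ) × (ℕ → ℝ)) × (ℤ → ℝ)) → ℝ :=
    fun q => ∑ i ∈ Finset.range b, (ff (i : ℤ) q + ff (-(i : ℤ)) q) / 2 with hF
  set G : (((ℕ → ℝ) × (ℕ → ℝ)) × (ℤ → ℝ)) → ℝ :=
    fun q => ∑ i ∈ Finset.range b, (q.2 (i : ℤ) + q.2 (-(i : ℤ))) / 2 with hG
  have hFi : Integrable F PP := integrable_finsetSum _ fun i _ =>
    ((integrable_ff _).add (integrable_ff _)).div_const 2
  have hGi : Integrable G PP := integrable_finsetSum _ fun i _ =>
    ((integrable_noise _).add (integrable_noise _)).div_const 2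
  have hmem : ∀ i ∈ Finset.range b, (i : ℤ) ∈ DD (TT (κ + 1)) ∧ -(i : ℤ) ∈ DD (TT (κ + 1)) := by
    intro i hi
    have := Finset.mem_range.1 hi
    simp only [DD, Finset.mem_Icc]
    omega
  have hsplit : ∫ q in B, F q ∂PP = ∫ q in B ∩ Prod.fst ⁻¹' A, F q ∂PP +
      ∫ q in B ∩ Prod.fst ⁻¹' Aᶜ, F q ∂PP := by
    rw [← setIntegral_union _ (hBm.inter (measurable_fst hAm.compl)) hFi.integrableOn
      hFi.integrableOn]
    · rw [← Set.inter_union_distrib_left, ← Set.preimage_union, Set.union_compl_self,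
        Set.preimage_univ, Set.inter_univ]
    · refine Set.disjoint_left.2 fun q hq1 hq2 => hq2.2 hq1.2
  have h1 : 0 ≤ ∫ q in B ∩ Prod.fst ⁻¹' A, F q ∂PP := by
    refine setIntegral_nonneg (hBm.inter (measurable_fst hAm)) fun q hq => ?_
    have hq1 := hq.1
    rw [hB, Per_eq] at hq1
    refine Finset.sum_nonneg fun i hi => ?_
    have a1 := hq1 _ (hmem i hi).1
    have a2 := hq1 _ (hmem i hi).2
    linarith
  have h2 : 0 ≤ ∫ q in B ∩ Prod.fst ⁻¹' Aᶜ, G q ∂PP := by
    rw [hG, integral_finsetSum]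
    · refine Finset.sum_nonneg fun i hi => ?_
      rw [integral_div]
      have i1 := (integrable_noise (i : ℤ)).integrableOn (s := B ∩ Prod.fst ⁻¹' Aᶜ)
      have i2 := (integrable_noise (-(i : ℤ))).integrableOn (s := B ∩ Prod.fst ⁻¹' Aᶜ)
      rw [integral_add i1 i2]
      have a1 := noise_nonneg (TT (κ + 1)) (hmem i hi).1 hAm.compl
      have a2 := noise_nonneg (TT (κ + 1)) (hmem i hi).2 hAm.compl
      positivity
    · intro i _
      exact (((integrable_noise _).add (integrable_noise _)).div_const 2).integrableOn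
  have h3 : (b : ℝ) * L * PP.real (B ∩ Prod.fst ⁻¹' Aᶜ) ≤
      ∫ q in B ∩ Prod.fst ⁻¹' Aᶜ, (F q - G q) ∂PP := by
    have h4 : ∫ q in B ∩ Prod.fst ⁻¹' Aᶜ, ((b : ℝ) * L) ∂PP ≤
        ∫ q in B ∩ Prod.fst ⁻¹' Aᶜ, (F q - G q) ∂PP := by
      refine setIntegral_mono_on (integrable_const _).integrableOn (hFi.sub hGi).integrableOn
        (hBm.inter (measurable_fst hAm.compl)) fun q hq => ?_
      have hq2 : ¬ (∑ i ∈ Finset.range b, Ge i q.1 < (b : ℕ) * L) := hq.2
      push Not at hq2
      refine hq2.trans (le_of_eq ?_)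
      rw [hF, hG]
      simp only
      rw [← Finset.sum_sub_distrib]
      refine Finset.sum_congr rfl fun i _ => ?_
      rw [Ge, ff, ff]; ring
    rw [setIntegral_const, smul_eq_mul] at h4
    linarith
  rw [integral_sub hFi.integrableOn hGi.integrableOn] at h3
  have h5 : PP.real (B ∩ Prod.fst ⁻¹' Aᶜ) = PP.real B - PP.real (B ∩ Prod.fst ⁻¹' A) := by
    have := measureReal_inter_add_sdiff (μ := PP) (s := B) (measurable_fst hAm)
    rw [Set.preimage_compl, ← Set.sdiff_eq]
    linarith
  have h6 : (b : ℝ) * L * (1 / 2 * PP.real B) ≤ ∫ q in B, F q ∂PP := by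
    rw [hsplit]
    have hbL : 0 ≤ (b : ℝ) * L := by positivity
    have : (b : ℝ) * L * (1 / 2 * PP.real B) ≤ (b : ℝ) * L * PP.real (B ∩ Prod.fst ⁻¹' Aᶜ) := by
      refine mul_le_mul_of_nonneg_left ?_ hbL
      rw [h5]; linarith
    linarith
  -- pigeonhole
  have h7 : ∃ i ∈ Finset.range b, L * (1 / 2 * PP.real B) ≤
      ∫ q in B, (ff (i : ℤ) q + ff (-(i : ℤ)) q) / 2 ∂PP := by
    refine Finset.exists_le_of_sum_le (Finset.nonempty_range_iff.2 (by omega)) ?_
    rw [Finset.sum_const, Finset.card_range, nsmul_eq_mul, ← integral_finsetSum]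
    · rw [← mul_assoc]; exact h6
    · intro i _
      exact (((integrable_ff _).add (integrable_ff _)).div_const 2).integrableOn
  obtain ⟨i, hi, h8⟩ := h7
  rw [integral_div, integral_add (integrable_ff _).integrableOn (integrable_ff _).integrableOn] at h8
  have hcond : ∀ x : ℤ, ∫ q, ff x q ∂(ProbabilityTheory.cond PP B) =
      (PP.real B)⁻¹ * ∫ q in B, ff x q ∂PP := by
    intro x
    rw [ProbabilityTheory.cond, integral_smul_measure, smul_eq_mul, ENNReal.toReal_inv]
    rfl
  have hi' := Finset.mem_range.1 hi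
  have h9 : ∃ x : ℤ, |x| ≤ 4 * TT κ ∧ L / 2 * PP.real B ≤ ∫ q in B, ff x q ∂PP := by
    by_cases hc : L / 2 * PP.real B ≤ ∫ q in B, ff (i : ℤ) q ∂PP
    · exact ⟨i, by rw [abs_of_nonneg (by positivity)]; omega, hc⟩
    · refine ⟨-(i : ℤ), by rw [abs_neg, abs_of_nonneg (by positivity)]; omega, ?_⟩
      push Not at hc
      linarith
  obtain ⟨x, hx, h10⟩ := h9
  refine ⟨x, hx, ?_⟩
  rw [hcond, ← div_eq_inv_mul, le_div_iff₀ hpos]
  exact h10

end Pool.Agent.Zk99.Pers
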