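import Mathlib

/-! The scales and amplitudes of the lacunary field. -/

set_option autoImplicit false

namespace Pool.Agent.Zk99.Pers

open Filter Topology

/-- `N 0 = 2`, `N (k+1) = 2 ^ (N k ^ 12)` -/
def NN : ℕ → ℕ
  | 0 => 2
  | k + 1 => 2 ^ (NN k ^ 12)

/-- the scales `T k = 2 ^ (N k ^ 12)` -/
def TT (k : ℕ) : ℕ := 2 ^ (NN k ^ 12)

/-- the frequencies `θ k = π / (2 T k)` -/
noncomputable def th (k : ℕ) : ℝ := Real.pi / (2 * TT k)

/-- the masses `a 0 = 1`, `a (k+1) = exp (-(N k)^9)` -/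
noncomputable def am : ℕ → ℝ
  | 0 => 1
  | k + 1 => Real.exp (-(NN k : ℝ) ^ 9)

/-- the amplitudes: `(sa k)^2 = am k` -/
noncomputable def sa : ℕ → ℝ
  | 0 => 1
  | k + 1 => Real.exp (-(NN k : ℝ) ^ 9 / 2)

lemma NN_succ (k : ℕ) : NN (k + 1) = TT k := rfl

lemma two_le_NN (k : ℕ) : 2 ≤ NN k := by
  induction k with
  | zero => exact le_rfl
  | succ k ih =>
    rw [NN_succ, TT]
    calc 2 = 2 ^ 1 := rfl
      _ ≤ 2 ^ (NN k ^ 12) := Nat.pow_le_pow_right (by norm_num) (Nat.one_le_pow _ _ (by omega))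

lemma NN_lt_TT (k : ℕ) : NN k < TT k := by
  rw [TT]
  calc NN k < 2 ^ (NN k) := Nat.lt_two_pow_self
    _ ≤ 2 ^ (NN k ^ 12) := Nat.pow_le_pow_right (by norm_num) (Nat.le_self_pow (by norm_num) _)

lemma NN_lt_succ (k : ℕ) : NN k < NN (k + 1) := NN_lt_TT k

lemma NN_strictMono : StrictMono NN := strictMono_nat_of_lt_succ NN_lt_succ

lemma add_le_NN (k i : ℕ) : NN k + i ≤ NN (k + i) := by
  induction i with
  | zero => exact le_rfl
  | succ i ih =>
    have h := NN_lt_succ (k + i)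
    have e : NN (k + (i + 1)) = NN (k + i + 1) := by rw [add_assoc]
    omega

lemma le_NN (k : ℕ) : k + 2 ≤ NN k := by
  have := add_le_NN 0 k
  simp only [NN, zero_add] at this
  omega

lemma tendsto_NN : Tendsto NN atTop atTop := NN_strictMono.tendsto_atTop

lemma TT_pos (k : ℕ) : 0 < TT k := by
  rw [TT]; positivity

lemma TT_pos' (k : ℕ) : (0 : ℝ) < TT k := by exact_mod_cast TT_pos k

lemma TT_strictMono : StrictMono TT := by
  intro a b h
  have := NN_strictMono (Nat.succ_lt_succ h)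
  exact this

lemma TT_dvd {i k : ℕ} (h : i ≤ k) : TT i ∣ TT k := by
  rw [TT, TT]
  apply pow_dvd_pow
  exact Nat.pow_le_pow_left (NN_strictMono.monotone h) _

/-- the ratio `T k / T i` is even for `i < k` -/
lemma two_TT_dvd {i k : ℕ} (h : i < k) : 2 * TT i ∣ TT k := by
  rw [TT, TT, ← pow_succ']
  apply pow_dvd_pow
  exact Nat.pow_lt_pow_left (NN_strictMono h) (by norm_num)

lemma th_pos (k : ℕ) : 0 < th k := by
  rw [th]; have := TT_pos' k; positivity

lemma four_le_TT (k : ℕ) : 4 ≤ TT k := by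
  rw [TT]
  calc 4 = 2 ^ 2 := rfl
    _ ≤ 2 ^ (NN k ^ 12) := Nat.pow_le_pow_right (by norm_num) (by
      calc 2 ≤ NN k := two_le_NN k
        _ ≤ NN k ^ 12 := Nat.le_self_pow (by norm_num) _)

lemma th_le_one (k : ℕ) : th k ≤ 1 := by
  rw [th, div_le_one (by have := TT_pos' k; positivity)]
  have : (4 : ℝ) ≤ TT k := by exact_mod_cast four_le_TT k
  linarith [Real.pi_le_four]

lemma th_lt_pi (k : ℕ) : th k < Real.pi := lt_of_le_of_lt (th_le_one k) (by linarith [Real.pi_gt_three])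

lemma th_strictAnti : StrictAnti th := by
  intro a b h
  rw [th, th]
  have h1 := TT_pos' a
  have h2 : (TT a : ℝ) < TT b := by exact_mod_cast TT_strictMono h
  exact div_lt_div_of_pos_left Real.pi_pos (by positivity) (by linarith)

lemma th_injective : Function.Injective th := th_strictAnti.injective

lemma th_mul_TT (k : ℕ) : th k * TT k = Real.pi / 2 := by
  rw [th]; have := (TT_pos' k).ne'; field_simp

lemma sa_pos (k : ℕ) : 0 < sa k := by
  cases k <;> simp [sa, Real.exp_pos]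

lemma am_pos (k : ℕ) : 0 < am k := by
  cases k <;> simp [am, Real.exp_pos]

lemma sa_sq (k : ℕ) : sa k ^ 2 = am k := by
  cases k with
  | zero => simp [sa, am]
  | succ k => rw [sa, am, ← Real.exp_nat_mul]; congr 1; push_cast; ring

lemma sa_mul_self (k : ℕ) : sa k * sa k = am k := by rw [← sa_sq, sq]

lemma pow9_ge (k i : ℕ) : 2 * ((NN k : ℝ) + i) ≤ (NN (k + i) : ℝ) ^ 9 := by
  have h1 : ((NN k : ℝ) + i) ≤ NN (k + i) := by exact_mod_cast add_le_NN k i
  have h2 : (2 : ℝ) ≤ NN (k + i) := by exact_mod_cast two_le_NN (k + i)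
  have h3 : (1 : ℝ) ≤ (NN (k + i) : ℝ) ^ 7 := one_le_pow₀ (by linarith)
  calc 2 * ((NN k : ℝ) + i) ≤ NN (k + i) * NN (k + i) := by nlinarith
    _ = NN (k + i) * NN (k + i) * 1 := by ring
    _ ≤ NN (k + i) * NN (k + i) * (NN (k + i) : ℝ) ^ 7 := by gcongr
    _ = _ := by ring

lemma sa_succ_add_le (k i : ℕ) : sa (k + i + 1) ≤ Real.exp (-(NN k : ℝ)) * Real.exp (-1 * i) := by
  rw [sa, ← Real.exp_add]
  apply Real.exp_le_exp.2
  have := pow9_ge k i
  linarith

lemma summable_sa : Summable sa := by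
  rw [← summable_nat_add_iff 1]
  refine Summable.of_nonneg_of_le (fun k => (sa_pos _).le) (fun k => ?_)
    ((Real.summable_exp_neg_nat).mul_left (Real.exp (-(NN 0 : ℝ))))
  have := sa_succ_add_le 0 k
  simpa using this

lemma sa_le_one (k : ℕ) : sa k ≤ 1 := by
  cases k with
  | zero => simp [sa]
  | succ k => rw [sa]; apply Real.exp_le_one_iff.2; have := pow9_ge k 0; simp at this; linarith [(Nat.cast_nonneg (NN k) : (0:ℝ) ≤ NN k)]

lemma am_le_sa (k : ℕ) : am k ≤ sa k := by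
  rw [← sa_sq, sq]; nlinarith [sa_pos k, sa_le_one k]

lemma am_le_one (k : ℕ) : am k ≤ 1 := (am_le_sa k).trans (sa_le_one k)

lemma summable_am : Summable am :=
  Summable.of_nonneg_of_le (fun k => (am_pos k).le) am_le_sa summable_sa

lemma tsum_exp_neg : ∑' i : ℕ, Real.exp (-1 * (i : ℝ)) ≤ 2 := by
  have h : ∀ i : ℕ, Real.exp (-1 * (i : ℝ)) = (Real.exp (-1)) ^ i := by
    intro i; rw [← Real.exp_nat_mul]; ring_nf
  simp only [h]
  have h1 : Real.exp (-1) ≤ 1 / 2 := by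
    rw [Real.exp_neg, inv_le_comm₀ (Real.exp_pos 1) (by norm_num)]
    have := Real.add_one_le_exp (1 : ℝ)
    norm_num at this ⊢
    linarith
  rw [tsum_geometric_of_lt_one (Real.exp_pos _).le (by linarith)]
  rw [inv_le_comm₀ (by linarith) (by norm_num)]
  linarith

lemma tail_am (k : ℕ) : ∑' i, am (k + i + 1) ≤ 2 * Real.exp (-(NN k : ℝ)) := by
  have h1 : ∀ i, am (k + i + 1) ≤ Real.exp (-(NN k : ℝ)) * Real.exp (-1 * (i : ℝ)) :=
    fun i => (am_le_sa _).trans (sa_succ_add_le k i)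
  have h2 : Summable fun i : ℕ => Real.exp (-(NN k : ℝ)) * Real.exp (-1 * (i : ℝ)) := by
    refine Summable.mul_left _ ?_
    simpa using Real.summable_exp_neg_nat
  have h3 : Summable fun i => am (k + i + 1) :=
    Summable.of_nonneg_of_le (fun i => (am_pos _).le) h1 h2
  calc ∑' i, am (k + i + 1) ≤ ∑' i : ℕ, Real.exp (-(NN k : ℝ)) * Real.exp (-1 * (i : ℝ)) :=
        h3.tsum_le_tsum h1 h2
    _ = Real.exp (-(NN k : ℝ)) * ∑' i : ℕ, Real.exp (-1 * (i : ℝ)) := tsum_mul_left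
    _ ≤ Real.exp (-(NN k : ℝ)) * 2 := by gcongr; exact tsum_exp_neg
    _ = _ := by ring

/-- `∑ sa j ≤ 2` -/
lemma tsum_sa_le : ∑' j, sa j ≤ 2 := by
  rw [summable_sa.tsum_eq_zero_add]
  have h1 : ∀ i, sa (i + 1) ≤ Real.exp (-(NN 0 : ℝ)) * Real.exp (-1 * (i : ℝ)) := by
    intro i; simpa using sa_succ_add_le 0 i
  have h2 : Summable fun i : ℕ => Real.exp (-(NN 0 : ℝ)) * Real.exp (-1 * (i : ℝ)) := by
    refine Summable.mul_left _ ?_
    simpa using Real.summable_exp_neg_nat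
  have h3 : Summable fun i => sa (i + 1) :=
    Summable.of_nonneg_of_le (fun i => (sa_pos _).le) h1 h2
  have h4 : ∑' i, sa (i + 1) ≤ Real.exp (-(NN 0 : ℝ)) * 2 := by
    calc ∑' i, sa (i + 1) ≤ ∑' i : ℕ, Real.exp (-(NN 0 : ℝ)) * Real.exp (-1 * (i : ℝ)) :=
        h3.tsum_le_tsum h1 h2
      _ = Real.exp (-(NN 0 : ℝ)) * ∑' i : ℕ, Real.exp (-1 * (i : ℝ)) := tsum_mul_left
      _ ≤ _ := by gcongr; exact tsum_exp_neg
  have h5 : Real.exp (-(NN 0 : ℝ)) ≤ 1 / 2 := by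
    rw [Real.exp_neg, inv_le_comm₀ (Real.exp_pos _) (by norm_num)]
    have := Real.add_one_le_exp (NN 0 : ℝ)
    have h2 : (2 : ℝ) ≤ NN 0 := by exact_mod_cast two_le_NN 0
    norm_num
    linarith
  have h6 : sa 0 = 1 := rfl
  rw [h6]
  linarith

/-- `1 / a k ≤ N k` -/
lemma inv_am_le (k : ℕ) : (am k)⁻¹ ≤ NN k := by
  cases k with
  | zero => simp [am, NN]
  | succ k =>
    rw [am, ← Real.exp_neg, neg_neg, NN_succ, TT]
    push_cast
    have h2 : (2 : ℝ) ≤ NN k := by exact_mod_cast two_le_NN k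
    have h3 : ((2 : ℝ)) ^ (NN k ^ 12) = Real.exp (Real.log 2 * (NN k : ℝ) ^ 12) := by
      rw [Real.exp_mul, Real.exp_log (by norm_num)]
      rw [← Real.rpow_natCast]
      push_cast
      rfl
    rw [h3]
    apply Real.exp_le_exp.2
    have h4 : (8 : ℝ) ≤ (NN k : ℝ) ^ 3 := by
      calc (8 : ℝ) = 2 ^ 3 := by norm_num
        _ ≤ _ := by gcongr
    have h5 : (0 : ℝ) ≤ (NN k : ℝ) ^ 9 := by positivity
    have h6 := Real.log_two_gt_d9
    calc (NN k : ℝ) ^ 9 ≤ (Real.log 2 * (NN k : ℝ) ^ 3) * (NN k : ℝ) ^ 9 := by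
          have : 1 ≤ Real.log 2 * (NN k : ℝ) ^ 3 := by nlinarith
          nlinarith
      _ = _ := by ring

end Pool.Agent.Zk99.Pers
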