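import Pool.Agent.Zk99.Pers.Series
import Pool.Agent.Zk99.Pers.Seq
import Pool.Agent.Zk99.Pers.Defs

/-! The field and its law. -/

set_option autoImplicit false

namespace Pool.Agent.Zk99.Pers

open MeasureTheory ProbabilityTheory Filter Topology
open scoped ENNReal NNReal

/-- the law of the modes -/
noncomputable abbrev M1 : Measure ((ℕ → ℝ) × (ℕ → ℝ)) := (GG ℕ).prod (GG ℕ)

/-- the law of the modes and the noise -/
noncomputable abbrev PP : Measure (((ℕ → ℝ) × (ℕ → ℝ)) × (ℤ → ℝ)) := M1.prod (GG ℤ)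

/-- coefficients of the cosine modes -/
noncomputable def cc (x : ℤ) (j : ℕ) : ℝ := sa j * Real.cos (th j * x)

/-- coefficients of the sine modes -/
noncomputable def dd (x : ℤ) (j : ℕ) : ℝ := sa j * Real.sin (th j * x)

/-- the part of the field coming from the modes -/
noncomputable def FF (x : ℤ) (p : (ℕ → ℝ) × (ℕ → ℝ)) : ℝ := ser (cc x) p.1 + ser (dd x) p.2

/-- the field -/
noncomputable def ff (x : ℤ) (q : ((ℕ → ℝ) × (ℕ → ℝ)) × (ℤ → ℝ)) : ℝ := FF x q.1 + q.2 x

@[fun_prop]
lemma measurable_FF (x : ℤ) : Measurable (FF x) := by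
  unfold FF
  exact ((measurable_ser _).comp measurable_fst).add ((measurable_ser _).comp measurable_snd)

@[fun_prop]
lemma measurable_ff (x : ℤ) : Measurable (ff x) := by
  unfold ff
  exact ((measurable_FF x).comp measurable_fst).add ((meas_eval x).comp measurable_snd)

/-- general linear functional -/
noncomputable def val (c d : ℕ → ℝ) (e : ℤ → ℝ) (s : Finset ℤ)
    (q : ((ℕ → ℝ) × (ℕ → ℝ)) × (ℤ → ℝ)) : ℝ :=
  ser c q.1.1 + ser d q.1.2 + ∑ x ∈ s, e x * q.2 x

lemma measurable_val (c d : ℕ → ℝ) (e : ℤ → ℝ) (s : Finset ℤ) : Measurable (val c d e s) := by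
  unfold val
  exact (((measurable_ser _).comp (measurable_fst.comp measurable_fst)).add
    ((measurable_ser _).comp (measurable_snd.comp measurable_fst))).add
    ((measurable_finset e s).comp measurable_snd)

lemma map_prod_add {A B : Type} [MeasurableSpace A] [MeasurableSpace B] {μ : Measure A}
    {ν : Measure B} [IsProbabilityMeasure μ] [IsProbabilityMeasure ν] {X : A → ℝ} {Y : B → ℝ}
    (hX : Measurable X) (hY : Measurable Y) {u v : ℝ≥0} (h1 : μ.map X = gaussianReal 0 u)
    (h2 : ν.map Y = gaussianReal 0 v) :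
    (μ.prod ν).map (fun q => X q.1 + Y q.2) = gaussianReal 0 (u + v) := by
  have h := gaussianReal_add_gaussianReal_of_indepFun (P := μ.prod ν)
    (indepFun_prod (μ := μ) (ν := ν) hX hY) (m₁ := 0) (m₂ := 0) (v₁ := u) (v₂ := v) ?_ ?_
  · rw [add_zero] at h
    exact h
  · have : (μ.prod ν).map (fun q => X q.1) = ((μ.prod ν).map Prod.fst).map X := by
      rw [Measure.map_map hX measurable_fst]; rfl
    rw [this, Measure.map_fst_prod]
    simpa using h1
  · have : (μ.prod ν).map (fun q => Y q.2) = ((μ.prod ν).map Prod.snd).map Y := by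
      rw [Measure.map_map hY measurable_snd]; rfl
    rw [this, Measure.map_snd_prod]
    simpa using h2

/-- the variance of `val` -/
noncomputable def vv (c d : ℕ → ℝ) (e : ℤ → ℝ) (s : Finset ℤ) : ℝ :=
  ∑' j, c j ^ 2 + ∑' j, d j ^ 2 + ∑ x ∈ s, e x ^ 2

lemma vv_nonneg (c d : ℕ → ℝ) (e : ℤ → ℝ) (s : Finset ℤ) : 0 ≤ vv c d e s :=
  add_nonneg (add_nonneg (tsum_nonneg fun _ => sq_nonneg _) (tsum_nonneg fun _ => sq_nonneg _))
    (Finset.sum_nonneg fun _ _ => sq_nonneg _)

theorem map_val {c d : ℕ → ℝ} (hc : Summable fun j => |c j|) (hd : Summable fun j => |d j|)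
    (e : ℤ → ℝ) (s : Finset ℤ) :
    PP.map (val c d e s) = gaussianReal 0 (vv c d e s).toNNReal := by
  have h1 := map_prod_add (μ := GG ℕ) (ν := GG ℕ) (measurable_ser c) (measurable_ser d)
    (map_ser hc) (map_ser hd)
  have h2 := map_prod_add (μ := M1) (ν := GG ℤ) (X := fun q => ser c q.1 + ser d q.2)
    (((measurable_ser _).comp (measurable_fst)).add ((measurable_ser _).comp measurable_snd))
    (measurable_finset e s) h1 (map_finset e s)
  unfold val
  rw [h2]
  congr 1
  rw [vv, Real.toNNReal_add, Real.toNNReal_add]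
  · exact tsum_nonneg fun j => sq_nonneg _
  · exact tsum_nonneg fun j => sq_nonneg _
  · exact add_nonneg (tsum_nonneg fun j => sq_nonneg _) (tsum_nonneg fun j => sq_nonneg _)
  · exact Finset.sum_nonneg fun j _ => sq_nonneg _

lemma memLp_val {c d : ℕ → ℝ} (hc : Summable fun j => |c j|) (hd : Summable fun j => |d j|)
    (e : ℤ → ℝ) (s : Finset ℤ) : MemLp (val c d e s) 2 PP := by
  have h := memLp_id_gaussianReal' (μ := 0) (v := (vv c d e s).toNNReal) 2 (by simp)
  rw [← map_val hc hd] at h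
  exact (memLp_map_measure_iff aestronglyMeasurable_id (measurable_val _ _ _ _).aemeasurable).1 h

lemma integral_val {c d : ℕ → ℝ} (hc : Summable fun j => |c j|) (hd : Summable fun j => |d j|)
    (e : ℤ → ℝ) (s : Finset ℤ) : ∫ q, val c d e s q ∂PP = 0 := by
  have h : ∫ x, x ∂(PP.map (val c d e s)) = 0 := by
    rw [map_val hc hd, integral_id_gaussianReal]
  rwa [integral_map (f := fun x => x) (measurable_val _ _ _ _).aemeasurable
    (by fun_prop)] at h

lemma integral_sq_gaussian (v : ℝ≥0) : ∫ x, x ^ 2 ∂(gaussianReal 0 v) = v := by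
  have h := variance_fun_id_gaussianReal (μ := 0) (v := v)
  rw [variance_eq_integral (by fun_prop)] at h
  simpa using h

lemma integral_val_sq {c d : ℕ → ℝ} (hc : Summable fun j => |c j|) (hd : Summable fun j => |d j|)
    (e : ℤ → ℝ) (s : Finset ℤ) : ∫ q, (val c d e s q) ^ 2 ∂PP = vv c d e s := by
  have h : ∫ x, x ^ 2 ∂(PP.map (val c d e s)) = vv c d e s := by
    rw [map_val hc hd, integral_sq_gaussian, Real.coe_toNNReal _ (vv_nonneg _ _ _ _)]
  rwa [integral_map (measurable_val _ _ _ _).aemeasurable (by fun_prop)] at h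

/-- the set where all the series converge -/
def SS : Set (ℕ → ℝ) := {z | Summable fun j => sa j * |z j|}

lemma ae_SS : ∀ᵐ z ∂(GG ℕ), z ∈ SS := by
  have h : Summable fun j => |sa j| := by
    simpa only [abs_of_pos (sa_pos _)] using summable_sa
  filter_upwards [ae_summable h] with z hz
  show Summable fun j => sa j * |z j|
  simpa only [abs_mul, abs_of_pos (sa_pos _)] using hz

lemma abs_cc_le (x : ℤ) (j : ℕ) : |cc x j| ≤ sa j := by
  rw [cc, abs_mul, abs_of_pos (sa_pos j)]
  exact mul_le_of_le_one_right (sa_pos j).le (Real.abs_cos_le_one _)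

lemma abs_dd_le (x : ℤ) (j : ℕ) : |dd x j| ≤ sa j := by
  rw [dd, abs_mul, abs_of_pos (sa_pos j)]
  exact mul_le_of_le_one_right (sa_pos j).le (Real.abs_sin_le_one _)

lemma summable_of_le_sa {c : ℕ → ℝ} {B : ℝ} (h : ∀ j, |c j| ≤ B * sa j) :
    Summable fun j => |c j| :=
  Summable.of_nonneg_of_le (fun _ => abs_nonneg _) h (summable_sa.mul_left B)

lemma summable_cc (x : ℤ) : Summable fun j => |cc x j| :=
  summable_of_le_sa (B := 1) fun j => by rw [one_mul]; exact abs_cc_le x j

lemma summable_dd (x : ℤ) : Summable fun j => |dd x j| :=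
  summable_of_le_sa (B := 1) fun j => by rw [one_mul]; exact abs_dd_le x j

lemma summable_mul {c : ℕ → ℝ} {B : ℝ} (h : ∀ j, |c j| ≤ B * sa j) {z : ℕ → ℝ} (hz : z ∈ SS) :
    Summable fun j => c j * z j := by
  refine Summable.of_norm_bounded (g := fun j => B * (sa j * |z j|)) (Summable.mul_left B hz) ?_
  intro j
  rw [Real.norm_eq_abs, abs_mul, ← mul_assoc]
  exact mul_le_mul_of_nonneg_right (h j) (abs_nonneg _)

lemma ser_sum {ι : Type} (s : Finset ι) (c : ι → ℝ) (a : ι → ℕ → ℝ)
    (h : ∀ x j, |a x j| ≤ sa j) {z : ℕ → ℝ} (hz : z ∈ SS) :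
    ser (fun j => ∑ x ∈ s, c x * a x j) z = ∑ x ∈ s, c x * ser (a x) z := by
  simp only [ser]
  have h1 : ∀ x ∈ s, Summable fun j => c x * (a x j * z j) := fun x _ =>
    (summable_mul (B := 1) (fun j => by rw [one_mul]; exact h x j) hz).mul_left _
  rw [show (fun j => (∑ x ∈ s, c x * a x j) * z j) = fun j => ∑ x ∈ s, c x * (a x j * z j) by
    funext j; rw [Finset.sum_mul]; exact Finset.sum_congr rfl fun x _ => by ring]
  rw [Summable.tsum_finsetSum h1]
  exact Finset.sum_congr rfl fun x _ => tsum_mul_left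

lemma sum_le_sa {ι : Type} (s : Finset ι) (c : ι → ℝ) (a : ι → ℕ → ℝ)
    (h : ∀ x j, |a x j| ≤ sa j) (j : ℕ) :
    |∑ x ∈ s, c x * a x j| ≤ (∑ x ∈ s, |c x|) * sa j := by
  refine (Finset.abs_sum_le_sum_abs _ _).trans ?_
  rw [Finset.sum_mul]
  refine Finset.sum_le_sum fun x _ => ?_
  rw [abs_mul]
  exact mul_le_mul_of_nonneg_left (h x j) (abs_nonneg _)

lemma ae_PP_SS : ∀ᵐ q ∂PP, q.1.1 ∈ SS ∧ q.1.2 ∈ SS := by
  have h1 : ∀ᵐ p ∂M1, p.1 ∈ SS := Measure.quasiMeasurePreserving_fst.ae ae_SS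
  have h2 : ∀ᵐ p ∂M1, p.2 ∈ SS := Measure.quasiMeasurePreserving_snd.ae ae_SS
  have h3 : ∀ᵐ p ∂M1, p.1 ∈ SS ∧ p.2 ∈ SS := h1.and h2
  exact Measure.quasiMeasurePreserving_fst.ae h3

lemma ae_M1_SS : ∀ᵐ p ∂M1, p.1 ∈ SS ∧ p.2 ∈ SS :=
  (Measure.quasiMeasurePreserving_fst.ae ae_SS).and (Measure.quasiMeasurePreserving_snd.ae ae_SS)

/-- linear combinations of the values of the field -/
lemma lin_comb (s : Finset ℤ) (c : ℤ → ℝ) :
    (fun q => ∑ x ∈ s, c x * ff x q) =ᵐ[PP]
      val (fun j => ∑ x ∈ s, c x * cc x j) (fun j => ∑ x ∈ s, c x * dd x j) c s := by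
  filter_upwards [ae_PP_SS] with q hq
  rw [val, ser_sum s c cc abs_cc_le hq.1, ser_sum s c dd abs_dd_le hq.2,
    ← Finset.sum_add_distrib, ← Finset.sum_add_distrib]
  refine Finset.sum_congr rfl fun x _ => ?_
  rw [ff, FF]; ring

lemma sum_cc_summable (s : Finset ℤ) (c : ℤ → ℝ) :
    Summable fun j => |∑ x ∈ s, c x * cc x j| :=
  summable_of_le_sa (sum_le_sa s c cc abs_cc_le)

lemma sum_dd_summable (s : Finset ℤ) (c : ℤ → ℝ) :
    Summable fun j => |∑ x ∈ s, c x * dd x j| :=
  summable_of_le_sa (sum_le_sa s c dd abs_dd_le)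

theorem gaussian_ff : IsGaussianProcess ff PP := by
  refine ⟨fun I => ⟨?_⟩⟩
  refine isGaussian_of_map_eq_gaussianReal fun L => ?_
  have hm : Measurable (fun q => I.restrict (fun x => ff x q)) :=
    measurable_pi_lambda _ fun x => measurable_ff x.1
  let c : ℤ → ℝ := fun x => if h : x ∈ I then L (Pi.single ⟨x, h⟩ 1) else 0
  have hL : ∀ q, L (I.restrict (fun x => ff x q)) = ∑ x ∈ I, c x * ff x q := by
    intro q
    have h1 : (I.restrict (fun x => ff x q)) =
        ∑ x : I, (ff x.1 q) • (Pi.single x (1 : ℝ) : I → ℝ) := by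
      ext y
      simp [Finset.sum_apply, Pi.single_apply]
    rw [h1, map_sum, ← Finset.sum_coe_sort I]
    refine Finset.sum_congr rfl fun x _ => ?_
    rw [map_smul, smul_eq_mul, mul_comm]
    simp [c]
  refine ⟨0, (vv (fun j => ∑ x ∈ I, c x * cc x j) (fun j => ∑ x ∈ I, c x * dd x j)
    c I).toNNReal, ?_⟩
  rw [Measure.map_map L.measurable hm]
  rw [← map_val (sum_cc_summable I c) (sum_dd_summable I c) c I]
  refine Measure.map_congr ?_
  filter_upwards [lin_comb I c] with q hq
  rw [← hq, Function.comp_apply, hL]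

lemma memLp_lin (s : Finset ℤ) (c : ℤ → ℝ) : MemLp (fun q => ∑ x ∈ s, c x * ff x q) 2 PP :=
  (memLp_val (sum_cc_summable s c) (sum_dd_summable s c) c s).ae_eq (lin_comb s c).symm

lemma integral_lin_sq (s : Finset ℤ) (c : ℤ → ℝ) :
    ∫ q, (∑ x ∈ s, c x * ff x q) ^ 2 ∂PP =
      ∑' j, (∑ x ∈ s, c x * cc x j) ^ 2 + ∑' j, (∑ x ∈ s, c x * dd x j) ^ 2 +
        ∑ x ∈ s, c x ^ 2 := by
  rw [← vv, ← integral_val_sq (sum_cc_summable s c) (sum_dd_summable s c) c s]
  refine integral_congr_ae ?_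
  filter_upwards [lin_comb s c] with q hq
  rw [hq]

lemma memLp_ff (x : ℤ) : MemLp (ff x) 2 PP := by
  have := memLp_lin {x} (fun _ => 1)
  simpa using this

lemma integrable_ff (x : ℤ) : Integrable (ff x) PP := (memLp_ff x).integrable (by norm_num)

theorem mean_ff (x : ℤ) : ∫ q, ff x q ∂PP = 0 := by
  have h := integral_val (sum_cc_summable {x} (fun _ => 1)) (sum_dd_summable {x} (fun _ => 1))
    (fun _ => 1) {x}
  rw [← h]
  refine integral_congr_ae ?_
  filter_upwards [lin_comb {x} (fun _ => 1)] with q hq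
  rw [← hq]; simp

/-- the covariance function -/
noncomputable def KK (x : ℤ) : ℝ := ∑' j, am j * Real.cos (th j * x) + if x = 0 then 1 else 0

lemma nonDeg : NonDegenerate PP ff := by
  intro s c ⟨x, hx, hcx⟩
  rw [integral_lin_sq]
  have h1 : 0 < ∑ x ∈ s, c x ^ 2 :=
    Finset.sum_pos' (fun _ _ => sq_nonneg _) ⟨x, hx, by positivity⟩
  have h2 : 0 ≤ ∑' j, (∑ x ∈ s, c x * cc x j) ^ 2 := tsum_nonneg fun _ => sq_nonneg _
  have h3 : 0 ≤ ∑' j, (∑ x ∈ s, c x * dd x j) ^ 2 := tsum_nonneg fun _ => sq_nonneg _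
  linarith

lemma summable_mul_of_le {a b : ℕ → ℝ} (ha : ∀ j, |a j| ≤ sa j) (hb : ∀ j, |b j| ≤ sa j) :
    Summable fun j => a j * b j := by
  refine Summable.of_norm_bounded (g := sa) summable_sa fun j => ?_
  rw [Real.norm_eq_abs, abs_mul]
  calc |a j| * |b j| ≤ sa j * sa j := mul_le_mul (ha j) (hb j) (abs_nonneg _) (sa_pos j).le
    _ ≤ sa j * 1 := by gcongr; exacts [(sa_pos j).le, sa_le_one j]
    _ = sa j := mul_one _

theorem cov_ff (x y : ℤ) : ∫ q, ff x q * ff y q ∂PP = KK (x - y) := by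
  by_cases hxy : x = y
  · subst hxy
    have h := integral_lin_sq {x} (fun _ => 1)
    simp only [Finset.sum_singleton, one_mul] at h
    rw [show (fun q => ff x q * ff x q) = fun q => ff x q ^ 2 by funext q; ring, h, KK]
    simp only [sub_self, Int.cast_zero, mul_zero, Real.cos_zero, mul_one, if_true, one_pow]
    rw [← Summable.tsum_add]
    · congr 1
      refine tsum_congr fun j => ?_
      rw [cc, dd, mul_pow, mul_pow, ← mul_add, Real.cos_sq_add_sin_sq, mul_one, sa_sq]
    · simpa only [sq] using summable_mul_of_le (abs_cc_le x) (abs_cc_le x)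
    · simpa only [sq] using summable_mul_of_le (abs_dd_le x) (abs_dd_le x)
  · have h1 := integral_lin_sq {x, y} (fun _ => 1)
    have h2 := integral_lin_sq {x} (fun _ => 1)
    have h3 := integral_lin_sq {y} (fun _ => 1)
    simp only [Finset.sum_singleton, one_mul] at h2 h3
    simp only [Finset.sum_pair hxy, one_mul] at h1
    have e : ∀ q, ff x q * ff y q = ((ff x q + ff y q) ^ 2 - ff x q ^ 2 - ff y q ^ 2) / 2 := by
      intro q; ring
    have i1 : Integrable (fun q => (ff x q + ff y q) ^ 2) PP := by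
      have := (memLp_lin {x, y} (fun _ => 1)).integrable_sq
      simpa only [Finset.sum_pair hxy, one_mul] using this
    have i2 := (memLp_ff x).integrable_sq
    have i3 := (memLp_ff y).integrable_sq
    simp only [e]
    rw [integral_div, integral_sub (f := fun q => (ff x q + ff y q) ^ 2 - ff x q ^ 2)
      (g := fun q => ff y q ^ 2) (i1.sub i2) i3, integral_sub i1 i2, h1, h2, h3, KK]
    have hs := summable_mul_of_le (abs_cc_le x) (abs_cc_le y)
    have ht := summable_mul_of_le (abs_dd_le x) (abs_dd_le y)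
    have s1 : Summable fun j => cc x j ^ 2 := by
      simpa only [sq] using summable_mul_of_le (abs_cc_le x) (abs_cc_le x)
    have s2 : Summable fun j => cc y j ^ 2 := by
      simpa only [sq] using summable_mul_of_le (abs_cc_le y) (abs_cc_le y)
    have s3 : Summable fun j => dd x j ^ 2 := by
      simpa only [sq] using summable_mul_of_le (abs_dd_le x) (abs_dd_le x)
    have s4 : Summable fun j => dd y j ^ 2 := by
      simpa only [sq] using summable_mul_of_le (abs_dd_le y) (abs_dd_le y)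
    have e1 : ∑' j, (cc x j + cc y j) ^ 2 =
        ∑' j, cc x j ^ 2 + ∑' j, cc y j ^ 2 + 2 * ∑' j, cc x j * cc y j := by
      rw [← tsum_mul_left, ← Summable.tsum_add s1 s2, ← Summable.tsum_add (s1.add s2)
        (hs.mul_left 2)]
      exact tsum_congr fun j => by ring
    have e2 : ∑' j, (dd x j + dd y j) ^ 2 =
        ∑' j, dd x j ^ 2 + ∑' j, dd y j ^ 2 + 2 * ∑' j, dd x j * dd y j := by
      rw [← tsum_mul_left, ← Summable.tsum_add s3 s4, ← Summable.tsum_add (s3.add s4)
        (ht.mul_left 2)]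
      exact tsum_congr fun j => by ring
    have e3 : ∑' j, am j * Real.cos (th j * ((x - y : ℤ) : ℝ)) =
        ∑' j, cc x j * cc y j + ∑' j, dd x j * dd y j := by
      rw [← Summable.tsum_add hs ht]
      refine tsum_congr fun j => ?_
      push_cast
      rw [mul_sub, Real.cos_sub, cc, cc, dd, dd, ← sa_mul_self]
      ring
    rw [e1, e2, e3, if_neg (sub_ne_zero.2 hxy)]
    ring

end Pool.Agent.Zk99.Pers
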