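import Pool.Agent.Zk99.Pers.Compare
import Pool.Agent.Zk99.Pers.Field

/-! Conditioning on the modes. -/

set_option autoImplicit false

namespace Pool.Agent.Zk99.Pers

open MeasureTheory ProbabilityTheory Filter Topology
open scoped ENNReal NNReal

lemma gauss_Ici (u : ℝ) : gaussianReal 0 1 (Set.Ici (-u)) = ENNReal.ofReal (1 - qq u) := by
  have h1 : (gaussianReal 0 1).real (Set.Iio (-u)) = qq u := by
    rw [qq, measureReal_def, measureReal_def]
    congr 1
    have := gaussianReal_map_neg (μ := 0) (v := 1)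
    rw [neg_zero] at this
    conv_rhs => rw [← this]
    rw [Measure.map_apply (by fun_prop) measurableSet_Ioi]
    congr 1
    ext x; simp
  have h2 : (Set.Ici (-u))ᶜ = Set.Iio (-u) := Set.compl_Ici
  have h3 := prob_add_prob_compl (μ := gaussianReal 0 1) (measurableSet_Ici (a := -u))
  rw [h2] at h3
  rw [← h1, measureReal_def, ENNReal.ofReal_sub _ ENNReal.toReal_nonneg, ENNReal.ofReal_one,
    ENNReal.ofReal_toReal (measure_ne_top _ _), ← h3]
  rw [ENNReal.add_sub_cancel_right (measure_ne_top _ _)]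

/-- the finite index set of `B(T)` -/
noncomputable abbrev DD (T : ℕ) : Finset ℤ := Finset.Icc (-(T : ℤ)) T

lemma mem_ball_iff (T : ℕ) (x : ℤ) : x ∈ ball (T : ℝ) ↔ x ∈ DD T := by
  simp only [ball, Set.mem_ofPred_eq, DD, Finset.mem_Icc, abs_le]
  constructor
  · rintro ⟨h1, h2⟩
    exact ⟨by exact_mod_cast h1, by exact_mod_cast h2⟩
  · rintro ⟨h1, h2⟩
    exact ⟨by exact_mod_cast h1, by exact_mod_cast h2⟩

lemma Per_eq (T : ℕ) : Per ff (T : ℝ) = {q | ∀ x ∈ DD T, 0 ≤ ff x q} := by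
  ext q
  simp only [Per, Set.mem_ofPred_eq, mem_ball_iff]

lemma measurableSet_Per (T : ℕ) : MeasurableSet (Per ff (T : ℝ)) := by
  rw [Per_eq]
  have : {q | ∀ x ∈ DD T, 0 ≤ ff x q} = ⋂ x ∈ DD T, {q | 0 ≤ ff x q} := by
    ext q; simp
  rw [this]
  exact Finset.measurableSet_biInter _ fun x _ => measurableSet_le measurable_const (measurable_ff x)

/-- the conditional probability of persistence given the modes -/
noncomputable def pr (T : ℕ) (p : (ℕ → ℝ) × (ℕ → ℝ)) : ℝ := ∏ x ∈ DD T, (1 - qq (FF x p))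

lemma pr_nonneg (T : ℕ) (p : (ℕ → ℝ) × (ℕ → ℝ)) : 0 ≤ pr T p :=
  Finset.prod_nonneg fun x _ => by linarith [qq_le_one (FF x p)]

lemma pr_le_one (T : ℕ) (p : (ℕ → ℝ) × (ℕ → ℝ)) : pr T p ≤ 1 :=
  Finset.prod_le_one (fun x _ => by linarith [qq_le_one (FF x p)])
    (fun x _ => by linarith [qq_nonneg (FF x p)])

lemma measurable_pr (T : ℕ) : Measurable (pr T) := by
  unfold pr
  exact Finset.measurable_fun_prod _ fun x _ =>
    measurable_const.sub (measurable_qq.comp (measurable_FF x))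

lemma slice (T : ℕ) (p : (ℕ → ℝ) × (ℕ → ℝ)) :
    GG ℤ {ω | ∀ x ∈ DD T, 0 ≤ FF x p + ω x} = ENNReal.ofReal (pr T p) := by
  have h : {ω : ℤ → ℝ | ∀ x ∈ DD T, 0 ≤ FF x p + ω x} =
      Set.pi (DD T) (fun x => Set.Ici (-(FF x p))) := by
    ext ω
    simp only [Set.mem_ofPred_eq, Set.mem_pi, Finset.mem_coe, Set.mem_Ici]
    exact forall₂_congr fun x _ => by constructor <;> intro h <;> linarith
  rw [h, Measure.infinitePi_pi _ (fun _ _ => measurableSet_Ici), pr, ENNReal.ofReal_prod_of_nonneg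
    (fun x _ => by linarith [qq_le_one (FF x p)])]
  exact Finset.prod_congr rfl fun x _ => gauss_Ici _

theorem fubini (T : ℕ) {A : Set ((ℕ → ℝ) × (ℕ → ℝ))} (hA : MeasurableSet A) :
    PP.real (Per ff (T : ℝ) ∩ Prod.fst ⁻¹' A) = ∫ p in A, pr T p ∂M1 := by
  have hm : MeasurableSet (Per ff (T : ℝ) ∩ Prod.fst ⁻¹' A) :=
    (measurableSet_Per T).inter (measurable_fst hA)
  have h1 : PP (Per ff (T : ℝ) ∩ Prod.fst ⁻¹' A) = ∫⁻ p in A, ENNReal.ofReal (pr T p) ∂M1 := by
    rw [Measure.prod_apply hm, ← lintegral_indicator hA]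
    refine lintegral_congr fun p => ?_
    by_cases hp : p ∈ A
    · rw [Set.indicator_of_mem hp, ← slice]
      congr 1
      ext ω
      simp [Per_eq, hp, ff]
    · rw [Set.indicator_of_notMem hp]
      have : Prod.mk p ⁻¹' (Per ff (T : ℝ) ∩ Prod.fst ⁻¹' A) = ∅ := by
        ext ω; simp [hp]
      rw [this, measure_empty]
  rw [measureReal_def, h1, integral_eq_lintegral_of_nonneg_ae
    (Filter.Eventually.of_forall fun p => pr_nonneg T p) (measurable_pr T).aestronglyMeasurable]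

lemma integrable_pr (T : ℕ) : Integrable (pr T) M1 :=
  integrable_of_bdd (measurable_pr T).aestronglyMeasurable fun p => by
    rw [abs_of_nonneg (pr_nonneg _ _)]; exact pr_le_one T p

end Pool.Agent.Zk99.Pers
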