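import Pool.Agent.Zk99.Pers.Field

/-! Block sums of the fast modes and elementary facts on the slow ones. -/

set_option autoImplicit false

namespace Pool.Agent.Zk99.Pers

open Filter Topology

/-- sum of a cosine over a full number of periods -/
lemma cos_sum_zero {θ : ℝ} {b : ℕ} (m : ℤ) (hb : θ * b = 2 * Real.pi * m)
    (hs : Real.sin (θ / 2) ≠ 0) (x0 : ℝ) :
    ∑ i ∈ Finset.range b, Real.cos (θ * (x0 + i)) = 0 := by
  have h1 : ∀ i : ℕ, 2 * Real.sin (θ / 2) * Real.cos (θ * (x0 + i)) =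
      Real.sin (θ * (x0 + (i + 1 : ℕ)) - θ / 2) - Real.sin (θ * (x0 + i) - θ / 2) := by
    intro i
    rw [show θ * (x0 + (i + 1 : ℕ)) - θ / 2 = θ * (x0 + i) + θ / 2 by push_cast; ring,
      Real.sin_add, Real.sin_sub]
    ring
  have h2 : 2 * Real.sin (θ / 2) * ∑ i ∈ Finset.range b, Real.cos (θ * (x0 + i)) = 0 := by
    rw [Finset.mul_sum, Finset.sum_congr rfl fun i _ => h1 i,
      Finset.sum_range_sub (fun i : ℕ => Real.sin (θ * (x0 + i) - θ / 2))]
    have : θ * (x0 + b) - θ / 2 = (θ * (x0 + (0 : ℕ)) - θ / 2) + m * (2 * Real.pi) := by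
      push_cast
      linarith
    rw [this, Real.sin_add_int_mul_two_pi, sub_self]
  have h3 : 2 * Real.sin (θ / 2) ≠ 0 := mul_ne_zero two_ne_zero hs
  exact (mul_eq_zero.1 h2).resolve_left h3

lemma sin_half_ne (j : ℕ) : Real.sin (th j / 2) ≠ 0 := by
  have h1 := th_pos j
  have h2 := th_lt_pi j
  exact (Real.sin_pos_of_pos_of_lt_pi (by linarith) (by linarith)).ne'

/-- the fast modes have mean zero over blocks of length `4 T κ` -/
lemma block_cos {j κ : ℕ} (h : j ≤ κ) (x0 : ℤ) :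
    ∑ i ∈ Finset.range (4 * TT κ), Real.cos (th j * ((x0 + i : ℤ) : ℝ)) = 0 := by
  obtain ⟨m, hm⟩ := TT_dvd h
  have h1 := TT_pos' j
  have := cos_sum_zero (θ := th j) (b := 4 * TT κ) m ?_ (sin_half_ne j) x0
  · simpa using this
  · rw [th]
    have h2 : (TT κ : ℝ) = TT j * m := by rw [hm]; push_cast; ring
    push_cast
    rw [h2]
    field_simp
    ring

lemma cos_th_nonneg {k : ℕ} {x : ℝ} (h : |x| ≤ TT k) : 0 ≤ Real.cos (th k * x) := by
  apply Real.cos_nonneg_of_mem_Icc
  have h1 := th_pos k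
  have h2 := th_mul_TT k
  rw [abs_le] at h
  constructor <;> nlinarith

/-- `cos (θ k x) ≥ 1 - |x| / T k` -/
lemma cos_th_ge {k : ℕ} {x : ℝ} (h : |x| ≤ TT k) : 1 - |x| / TT k ≤ Real.cos (th k * x) := by
  have h1 := th_pos k
  have h2 := th_mul_TT k
  have h3 := TT_pos' k
  have h4 : Real.cos (th k * x) = Real.cos (th k * |x|) := by
    rcases abs_cases x with ⟨h, _⟩ | ⟨h, _⟩
    · rw [h]
    · rw [h, mul_neg, Real.cos_neg]
  rw [h4]
  have h5 := Real.one_sub_mul_le_cos (x := th k * |x|) (by positivity) (by nlinarith [abs_nonneg x])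
  refine le_trans (le_of_eq ?_) h5
  rw [th]
  have := Real.pi_pos.ne'
  field_simp

/-- near the end of the interval the slow mode is small -/
lemma cos_th_le {k : ℕ} {x : ℝ} (h0 : 0 ≤ x) (h : x ≤ TT k) :
    Real.cos (th k * x) ≤ th k * (TT k - x) := by
  have h1 := th_pos k
  have h2 := th_mul_TT k
  have h3 : Real.cos (th k * x) = Real.sin (th k * (TT k - x)) := by
    rw [mul_sub, h2, Real.sin_pi_div_two_sub]
  rw [h3]
  exact Real.sin_le (by nlinarith)

/-- near the origin the slow mode is at least `1/2` -/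
lemma cos_th_half {k : ℕ} {x : ℝ} (h : th k * |x| ≤ 1) : 1 / 2 ≤ Real.cos (th k * x) := by
  have h1 := Real.one_sub_sq_div_two_le_cos (x := th k * x)
  have h2 : (th k * x) ^ 2 ≤ 1 := by
    rw [← sq_abs, abs_mul, abs_of_pos (th_pos k)]
    have : 0 ≤ th k * |x| := mul_nonneg (th_pos k).le (abs_nonneg _)
    nlinarith
  linarith

/-- the coefficients of the small remainder -/
noncomputable def c1 (k : ℕ) (x : ℤ) (j : ℕ) : ℝ :=
  if j ≤ k then 0 else if j = k + 1 then sa (k + 1) * (Real.cos (th (k + 1) * x) - 1) else cc x j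

noncomputable def d1 (k : ℕ) (x : ℤ) (j : ℕ) : ℝ := if j ≤ k then 0 else dd x j

/-- the remainder -/
noncomputable def err (k : ℕ) (x : ℤ) (p : (ℕ → ℝ) × (ℕ → ℝ)) : ℝ :=
  ser (c1 k x) p.1 + ser (d1 k x) p.2

lemma abs_c1_le (k : ℕ) (x : ℤ) (j : ℕ) : |c1 k x j| ≤ 2 * sa j := by
  unfold c1
  split_ifs with h1 h2
  · rw [abs_zero]; have := sa_pos j; positivity
  · rw [h2, abs_mul, abs_of_pos (sa_pos _), mul_comm]
    refine mul_le_mul_of_nonneg_right ?_ (sa_pos _).le
    have h3 := Real.neg_one_le_cos (th (k + 1) * x)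
    have h4 := Real.cos_le_one (th (k + 1) * x)
    rw [abs_le]; constructor <;> linarith
  · have := abs_cc_le x j; linarith [sa_pos j]

lemma abs_d1_le (k : ℕ) (x : ℤ) (j : ℕ) : |d1 k x j| ≤ 2 * sa j := by
  unfold d1
  split_ifs with h1
  · rw [abs_zero]; have := sa_pos j; positivity
  · have := abs_dd_le x j; linarith [sa_pos j]

/-- decomposition of the field -/
lemma decomp (k : ℕ) (x : ℤ) {p : (ℕ → ℝ) × (ℕ → ℝ)} (h1 : p.1 ∈ SS) (h2 : p.2 ∈ SS) :
    FF x p = ∑ j ∈ Finset.range k, (cc x j * p.1 j + dd x j * p.2 j) +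
      (cc x k * p.1 k + dd x k * p.2 k) + sa (k + 1) * p.1 (k + 1) + err k x p := by
  have s1 := summable_mul (c := cc x) (B := 1) (fun j => by rw [one_mul]; exact abs_cc_le x j) h1
  have s2 := summable_mul (c := dd x) (B := 1) (fun j => by rw [one_mul]; exact abs_dd_le x j) h2
  have s3 := summable_mul (abs_c1_le k x) h1
  have s4 := summable_mul (abs_d1_le k x) h2
  have e1 : ser (cc x) p.1 - ser (c1 k x) p.1 =
      ∑ j ∈ Finset.range k, cc x j * p.1 j + cc x k * p.1 k + sa (k + 1) * p.1 (k + 1) := by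
    rw [ser, ser, ← s1.tsum_sub s3, tsum_eq_sum (s := Finset.range (k + 2)) ?_,
      Finset.sum_range_succ, Finset.sum_range_succ]
    · congr 1
      · congr 1
        · refine Finset.sum_congr rfl fun j hj => ?_
          rw [c1, if_pos (by have := Finset.mem_range.1 hj; omega)]; ring
        · rw [c1, if_pos le_rfl]; ring
      · rw [c1, if_neg (by omega), if_pos rfl, cc]; ring
    · intro j hj
      have : ¬ j < k + 2 := fun h => hj (Finset.mem_range.2 h)
      rw [c1, if_neg (by omega), if_neg (by omega)]; ring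
  have e2 : ser (dd x) p.2 - ser (d1 k x) p.2 =
      ∑ j ∈ Finset.range k, dd x j * p.2 j + dd x k * p.2 k := by
    rw [ser, ser, ← s2.tsum_sub s4, tsum_eq_sum (s := Finset.range (k + 1)) ?_,
      Finset.sum_range_succ]
    · congr 1
      · refine Finset.sum_congr rfl fun j hj => ?_
        rw [d1, if_pos (by have := Finset.mem_range.1 hj; omega)]; ring
      · rw [d1, if_pos le_rfl]; ring
    · intro j hj
      have : ¬ j < k + 1 := fun h => hj (Finset.mem_range.2 h)
      rw [d1, if_neg (by omega)]; ring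
  rw [Finset.sum_add_distrib, FF, err]
  linarith

lemma cc_neg (x : ℤ) (j : ℕ) : cc (-x) j = cc x j := by
  simp [cc]

lemma dd_neg (x : ℤ) (j : ℕ) : dd (-x) j = -dd x j := by
  simp [dd]

/-- decomposition of the even part -/
lemma decomp_even (k : ℕ) (x : ℤ) {p : (ℕ → ℝ) × (ℕ → ℝ)} (h1 : p.1 ∈ SS) (h2 : p.2 ∈ SS) :
    (FF x p + FF (-x) p) / 2 = ∑ j ∈ Finset.range k, cc x j * p.1 j +
      cc x k * p.1 k + sa (k + 1) * p.1 (k + 1) + (err k x p + err k (-x) p) / 2 := by
  rw [decomp k x h1 h2, decomp k (-x) h1 h2, Finset.sum_add_distrib, Finset.sum_add_distrib]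
  simp only [cc_neg, dd_neg, neg_mul, Finset.sum_neg_distrib]
  ring

end Pool.Agent.Zk99.Pers
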