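import Pool.Agent.Zk99.Pers.Fub
import Pool.Agent.Zk99.Pers.Trig

/-! Pointwise bounds for the conditional probability of persistence. -/

set_option autoImplicit false

namespace Pool.Agent.Zk99.Pers

open MeasureTheory ProbabilityTheory Filter Topology
open scoped ENNReal NNReal

/-- even part of the field -/
noncomputable def Ge (x : ℤ) (p : (ℕ → ℝ) × (ℕ → ℝ)) : ℝ := (FF x p + FF (-x) p) / 2

/-- good set of the modes -/
def Good (k : ℕ) : Set ((ℕ → ℝ) × (ℕ → ℝ)) :=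
  {p | p.1 ∈ SS ∧ p.2 ∈ SS ∧ ∀ x ∈ DD (TT k), |err k x p| ≤ 1}

lemma block_sum {κ : ℕ} (x0 : ℤ) {p : (ℕ → ℝ) × (ℕ → ℝ)} (h1 : p.1 ∈ SS) (h2 : p.2 ∈ SS) :
    ∑ i ∈ Finset.range (4 * TT κ), Ge (x0 + i) p =
      (sa (κ + 1) * p.1 (κ + 1)) *
        ∑ i ∈ Finset.range (4 * TT κ), Real.cos (th (κ + 1) * ((x0 + i : ℤ) : ℝ)) +
      (4 * TT κ : ℕ) * (sa (κ + 2) * p.1 (κ + 2)) +
      ∑ i ∈ Finset.range (4 * TT κ),
        (err (κ + 1) (x0 + i) p + err (κ + 1) (-(x0 + i)) p) / 2 := by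
  have e : ∀ i : ℕ, Ge (x0 + i) p = ∑ j ∈ Finset.range (κ + 1), cc (x0 + i) j * p.1 j +
      (sa (κ + 1) * p.1 (κ + 1)) * Real.cos (th (κ + 1) * ((x0 + i : ℤ) : ℝ)) +
      sa (κ + 2) * p.1 (κ + 2) + (err (κ + 1) (x0 + i) p + err (κ + 1) (-(x0 + i)) p) / 2 := by
    intro i
    rw [Ge, decomp_even (κ + 1) (x0 + i) h1 h2]
    rw [cc]
    ring
  simp only [e]
  rw [Finset.sum_add_distrib, Finset.sum_add_distrib, Finset.sum_add_distrib, Finset.sum_comm,
    ← Finset.mul_sum, Finset.sum_const, Finset.card_range, nsmul_eq_mul]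
  have z : ∑ j ∈ Finset.range (κ + 1), ∑ i ∈ Finset.range (4 * TT κ), cc (x0 + i) j * p.1 j = 0 := by
    refine Finset.sum_eq_zero fun j hj => ?_
    have hj' : j ≤ κ := Nat.lt_succ_iff.1 (Finset.mem_range.1 hj)
    have := block_cos hj' x0
    calc ∑ i ∈ Finset.range (4 * TT κ), cc (x0 + i) j * p.1 j =
        sa j * p.1 j * ∑ i ∈ Finset.range (4 * TT κ), Real.cos (th j * ((x0 + i : ℤ) : ℝ)) := by
          rw [Finset.mul_sum]; exact Finset.sum_congr rfl fun i _ => by rw [cc]; ring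
      _ = 0 := by rw [this, mul_zero]
  rw [z, zero_add]

/-- every block of the window contains a point where the even part is small -/
lemma exists_small {κ J : ℕ} {L ε : ℝ} {p : (ℕ → ℝ) × (ℕ → ℝ)} (hg : p ∈ Good (κ + 1))
    (hb : 2 * (4 * TT κ) ≤ TT (κ + 1)) (hJ : J * (4 * TT κ) ≤ TT (κ + 1))
    (hε : th (κ + 1) * (J * (4 * TT κ) : ℕ) ≤ ε) (hε1 : ε ≤ 1 / 4)
    (hL : 2 * ε * (L + 1) ≤ 1)
    (hA : ∑ i ∈ Finset.range (4 * TT κ), Ge i p < (4 * TT κ : ℕ) * L) {m : ℕ} (hm : m < J) :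
    ∃ i : ℕ, i < 4 * TT κ ∧ Ge ((TT (κ + 1) : ℤ) - J * (4 * TT κ : ℕ) + m * (4 * TT κ : ℕ) + i) p ≤
      max (sa (κ + 2) * p.1 (κ + 2)) 0 + 2 := by
  obtain ⟨h1, h2, he⟩ := hg
  set b : ℕ := 4 * TT κ with hbdef
  set T : ℕ := TT (κ + 1) with hTdef
  set Z : ℝ := sa (κ + 1) * p.1 (κ + 1) with hZ
  set V : ℝ := sa (κ + 2) * p.1 (κ + 2) with hV
  have hb0 : 0 < b := by have := TT_pos κ; omega
  have hb0' : (0 : ℝ) < b := by exact_mod_cast hb0
  have hθ := th_pos (κ + 1)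
  have hT' : th (κ + 1) * (T : ℝ) = Real.pi / 2 := th_mul_TT (κ + 1)
  have hTpos : (0 : ℝ) < T := TT_pos' (κ + 1)
  have hJ1 : 1 ≤ J := by omega
  have hε0 : 0 ≤ ε := le_trans (by positivity) hε
  -- block zero
  have hZb : 0 ≤ Z → Z ≤ 2 * (L + 1 - V) := by
    intro hZ0
    have hs := block_sum (κ := κ) 0 h1 h2
    simp only [zero_add] at hs
    rw [hs] at hA
    have hc : (b : ℝ) * (1 / 2) ≤ ∑ i ∈ Finset.range b, Real.cos (th (κ + 1) * ((i : ℤ) : ℝ)) := by
      calc (b : ℝ) * (1 / 2) = ∑ i ∈ Finset.range b, (1 / 2 : ℝ) := by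
            rw [Finset.sum_const, Finset.card_range, nsmul_eq_mul]
        _ ≤ _ := by
            refine Finset.sum_le_sum fun i hi => ?_
            have hi' : i < b := Finset.mem_range.1 hi
            have hi'' : (i : ℝ) ≤ b := by exact_mod_cast hi'.le
            have hbT : (2 : ℝ) * b ≤ T := by exact_mod_cast hb
            refine cos_th_half ?_
            push_cast
            rw [abs_of_nonneg (by positivity)]
            have := Real.pi_lt_four
            nlinarith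
    have herr : -(b : ℝ) ≤ ∑ i ∈ Finset.range b,
        (err (κ + 1) (i : ℤ) p + err (κ + 1) (-(i : ℤ)) p) / 2 := by
      calc -(b : ℝ) = ∑ i ∈ Finset.range b, (-1 : ℝ) := by
            rw [Finset.sum_const, Finset.card_range, nsmul_eq_mul]; ring
        _ ≤ _ := by
            refine Finset.sum_le_sum fun i hi => ?_
            have hi' : i < b := Finset.mem_range.1 hi
            have a1 := he (i : ℤ) (by simp only [DD, Finset.mem_Icc]; omega)
            have a2 := he (-(i : ℤ)) (by simp only [DD, Finset.mem_Icc]; omega)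
            rw [abs_le] at a1 a2
            linarith [a1.1, a2.1]
    have h3 : Z * ((b : ℝ) * (1 / 2)) ≤ Z *
        ∑ i ∈ Finset.range b, Real.cos (th (κ + 1) * ((i : ℤ) : ℝ)) :=
      mul_le_mul_of_nonneg_left hc hZ0
    have h4 : (b : ℝ) * (Z / 2 + V - 1 - L) < 0 := by nlinarith
    have h5 : Z / 2 + V - 1 - L < 0 := by
      by_contra hcon
      push Not at hcon
      nlinarith
    linarith
  -- the block
  set x0 : ℤ := (T : ℤ) - J * (b : ℕ) + m * (b : ℕ) with hx0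
  have hJb : (J : ℤ) * b ≤ T := by exact_mod_cast hJ
  have hmb : (m : ℤ) * b + b ≤ J * b := by
    have : m + 1 ≤ J := hm
    have h3 : (m + 1) * b ≤ J * b := Nat.mul_le_mul_right _ this
    have h4 : m * b + b ≤ J * b := by nlinarith
    exact_mod_cast h4
  have hmb0 : (0 : ℤ) ≤ (m : ℤ) * b := by positivity
  have hJb0 : (0 : ℤ) ≤ (J : ℤ) * b := by positivity
  have hcos : ∀ i ∈ Finset.range b, 0 ≤ Real.cos (th (κ + 1) * ((x0 + i : ℤ) : ℝ)) ∧
      Real.cos (th (κ + 1) * ((x0 + i : ℤ) : ℝ)) ≤ ε := by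
    intro i hi
    have hi' : i < b := Finset.mem_range.1 hi
    have l1 : (0 : ℤ) ≤ x0 + i := by omega
    have l2 : x0 + i ≤ T := by omega
    have l3 : (T : ℤ) - (x0 + i) ≤ J * b := by omega
    have l1' : (0 : ℝ) ≤ ((x0 + i : ℤ) : ℝ) := by exact_mod_cast l1
    have l2' : ((x0 + i : ℤ) : ℝ) ≤ T := by exact_mod_cast l2
    have l3' : (T : ℝ) - ((x0 + i : ℤ) : ℝ) ≤ J * b := by exact_mod_cast l3
    refine ⟨cos_th_nonneg (by rw [abs_of_nonneg l1']; exact l2'), ?_⟩
    refine (cos_th_le l1' l2').trans (le_trans ?_ hε)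
    have e : ((J * (4 * TT κ) : ℕ) : ℝ) = J * b := by rw [hbdef]; push_cast; ring
    rw [e]
    exact mul_le_mul_of_nonneg_left l3' hθ.le
  have hs := block_sum (κ := κ) x0 h1 h2
  have hle : ∑ i ∈ Finset.range b, Ge (x0 + i) p ≤ ∑ i ∈ Finset.range b, (max V 0 + 2) := by
    rw [hs, Finset.sum_const, Finset.card_range, nsmul_eq_mul]
    have herr : ∑ i ∈ Finset.range b,
        (err (κ + 1) (x0 + i) p + err (κ + 1) (-(x0 + i)) p) / 2 ≤ b := by
      calc _ ≤ ∑ i ∈ Finset.range b, (1 : ℝ) := by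
            refine Finset.sum_le_sum fun i hi => ?_
            have hi' : i < b := Finset.mem_range.1 hi
            have a1 := he (x0 + i) (by simp only [DD, Finset.mem_Icc]; omega)
            have a2 := he (-(x0 + i)) (by simp only [DD, Finset.mem_Icc]; omega)
            rw [abs_le] at a1 a2
            linarith [a1.2, a2.2]
        _ = b := by rw [Finset.sum_const, Finset.card_range, nsmul_eq_mul]; ring
    have hcs0 : 0 ≤ ∑ i ∈ Finset.range b, Real.cos (th (κ + 1) * ((x0 + i : ℤ) : ℝ)) :=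
      Finset.sum_nonneg fun i hi => (hcos i hi).1
    have hcs1 : ∑ i ∈ Finset.range b, Real.cos (th (κ + 1) * ((x0 + i : ℤ) : ℝ)) ≤ b * ε := by
      calc _ ≤ ∑ i ∈ Finset.range b, ε := Finset.sum_le_sum fun i hi => (hcos i hi).2
        _ = b * ε := by rw [Finset.sum_const, Finset.card_range, nsmul_eq_mul]
    have hV0 := le_max_left V 0
    have hV1 := le_max_right V 0
    rcases le_or_gt 0 Z with hZ0 | hZ0
    · have h3 := hZb hZ0
      have h4 : Z * ∑ i ∈ Finset.range b, Real.cos (th (κ + 1) * ((x0 + i : ℤ) : ℝ)) ≤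
          Z * (b * ε) := mul_le_mul_of_nonneg_left hcs1 hZ0
      have h5 : Z * ε ≤ 2 * (L + 1 - V) * ε := mul_le_mul_of_nonneg_right h3 hε0
      have h6 : Z * ε + V ≤ 1 + max V 0 := by
        have : 2 * (L + 1 - V) * ε + V = 2 * ε * (L + 1) + (1 - 2 * ε) * V := by ring
        have h7 : (1 - 2 * ε) * V ≤ max V 0 := by
          rcases le_or_gt 0 V with hv | hv
          · rw [max_eq_left hv]; nlinarith
          · have : (1 - 2 * ε) * V ≤ 0 := mul_nonpos_of_nonneg_of_nonpos (by linarith) hv.le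
            linarith
        linarith
      have h8 : (b : ℝ) * (Z * ε + V) ≤ b * (1 + max V 0) := mul_le_mul_of_nonneg_left h6 hb0'.le
      nlinarith
    · have h4 : Z * ∑ i ∈ Finset.range b, Real.cos (th (κ + 1) * ((x0 + i : ℤ) : ℝ)) ≤ 0 :=
        mul_nonpos_of_nonpos_of_nonneg hZ0.le hcs0
      nlinarith
  obtain ⟨i, hi, h⟩ := Finset.exists_le_of_sum_le (Finset.nonempty_range_iff.2 (by omega)) hle
  exact ⟨i, Finset.mem_range.1 hi, h⟩

/-- Upper bound. -/
theorem pr_upper {κ J : ℕ} {L ε : ℝ} {p : (ℕ → ℝ) × (ℕ → ℝ)} (hg : p ∈ Good (κ + 1))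
    (hb : 2 * (4 * TT κ) ≤ TT (κ + 1)) (hJ : J * (4 * TT κ) ≤ TT (κ + 1))
    (hε : th (κ + 1) * (J * (4 * TT κ) : ℕ) ≤ ε) (hε1 : ε ≤ 1 / 4)
    (hL : 2 * ε * (L + 1) ≤ 1)
    (hA : ∑ i ∈ Finset.range (4 * TT κ), Ge i p < (4 * TT κ : ℕ) * L) :
    pr (TT (κ + 1)) p ≤ gu J (sa (κ + 2) * p.1 (κ + 2)) := by
  have hex : ∀ m : ℕ, ∃ y : ℤ, m < J →
      ((TT (κ + 1) : ℤ) - J * (4 * TT κ : ℕ) + m * (4 * TT κ : ℕ) ≤ |y| ∧
        |y| < (TT (κ + 1) : ℤ) - J * (4 * TT κ : ℕ) + m * (4 * TT κ : ℕ) + (4 * TT κ : ℕ) ∧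
        FF y p ≤ max (sa (κ + 2) * p.1 (κ + 2)) 0 + 2) := by
    intro m
    by_cases hm : m < J
    · obtain ⟨i, hi, h⟩ := exists_small hg hb hJ hε hε1 hL hA hm
      set x : ℤ := (TT (κ + 1) : ℤ) - J * (4 * TT κ : ℕ) + m * (4 * TT κ : ℕ) + i with hx
      have hJb : (J : ℤ) * (4 * TT κ : ℕ) ≤ TT (κ + 1) := by exact_mod_cast hJ
      have hmb0 : (0 : ℤ) ≤ (m : ℤ) * (4 * TT κ : ℕ) := by positivity
      have hx0 : 0 ≤ x := by omega
      have hi2 : (i : ℤ) < (4 * TT κ : ℕ) := by exact_mod_cast hi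
      by_cases hF : FF x p ≤ max (sa (κ + 2) * p.1 (κ + 2)) 0 + 2
      · refine ⟨x, fun _ => ⟨?_, ?_, hF⟩⟩
        · rw [abs_of_nonneg hx0]; omega
        · rw [abs_of_nonneg hx0]; omega
      · refine ⟨-x, fun _ => ⟨?_, ?_, ?_⟩⟩
        · rw [abs_neg, abs_of_nonneg hx0]; omega
        · rw [abs_neg, abs_of_nonneg hx0]; omega
        · rw [Ge] at h
          push Not at hF
          linarith
    · exact ⟨0, fun h => absurd h hm⟩
  choose y hy using hex
  have hinj : Set.InjOn y (Finset.range J) := by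
    intro m hm m' hm' he
    have hm := Finset.mem_range.1 (Finset.mem_coe.1 hm)
    have hm' := Finset.mem_range.1 (Finset.mem_coe.1 hm')
    obtain ⟨a1, a2, -⟩ := hy m hm
    obtain ⟨b1, b2, -⟩ := hy m' hm'
    rw [he] at a1 a2
    by_contra hne
    rcases Nat.lt_or_gt_of_ne hne with hlt | hlt
    · have : (m : ℤ) * (4 * TT κ : ℕ) + (4 * TT κ : ℕ) ≤ m' * (4 * TT κ : ℕ) := by
        have h3 : (m + 1) * (4 * TT κ) ≤ m' * (4 * TT κ) := Nat.mul_le_mul_right _ hlt
        have h4 : m * (4 * TT κ) + (4 * TT κ) ≤ m' * (4 * TT κ) := by nlinarith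
        exact_mod_cast h4
      omega
    · have : (m' : ℤ) * (4 * TT κ : ℕ) + (4 * TT κ : ℕ) ≤ m * (4 * TT κ : ℕ) := by
        have h3 : (m' + 1) * (4 * TT κ) ≤ m * (4 * TT κ) := Nat.mul_le_mul_right _ hlt
        have h4 : m' * (4 * TT κ) + (4 * TT κ) ≤ m * (4 * TT κ) := by nlinarith
        exact_mod_cast h4
      omega
  have hsub : (Finset.range J).image y ⊆ DD (TT (κ + 1)) := by
    intro z hz
    obtain ⟨m, hm, rfl⟩ := Finset.mem_image.1 hz
    have hm := Finset.mem_range.1 hm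
    obtain ⟨-, a2, -⟩ := hy m hm
    have hmb : (m : ℤ) * (4 * TT κ : ℕ) + (4 * TT κ : ℕ) ≤ J * (4 * TT κ : ℕ) := by
      have h3 : (m + 1) * (4 * TT κ) ≤ J * (4 * TT κ) := Nat.mul_le_mul_right _ hm
      have h4 : m * (4 * TT κ) + (4 * TT κ) ≤ J * (4 * TT κ) := by nlinarith
      exact_mod_cast h4
    have h5 : |y m| ≤ TT (κ + 1) := by omega
    rw [abs_le] at h5
    exact Finset.mem_Icc.2 h5
  set V' : ℝ := max (sa (κ + 2) * p.1 (κ + 2)) 0 + 2 with hV'
  have h1 : pr (TT (κ + 1)) p ≤ ∏ x ∈ (Finset.range J).image y, (1 - qq (FF x p)) := by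
    rw [pr, ← Finset.prod_sdiff hsub]
    refine mul_le_of_le_one_left (Finset.prod_nonneg fun x _ => by
      linarith [qq_le_one (FF x p)]) ?_
    exact Finset.prod_le_one (fun x _ => by linarith [qq_le_one (FF x p)])
      (fun x _ => by linarith [qq_nonneg (FF x p)])
  refine h1.trans ?_
  rw [Finset.prod_image hinj]
  calc ∏ m ∈ Finset.range J, (1 - qq (FF (y m) p)) ≤ ∏ m ∈ Finset.range J, (1 - qq V') := by
        refine Finset.prod_le_prod (fun m _ => by linarith [qq_le_one (FF (y m) p)]) ?_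
        intro m hm
        have := qq_anti (hy m (Finset.mem_range.1 hm)).2.2
        linarith
    _ = (1 - qq V') ^ J := by rw [Finset.prod_const, Finset.card_range]
    _ ≤ (Real.exp (-qq V')) ^ J := by
        refine pow_le_pow_left₀ (by linarith [qq_le_one V']) ?_ _
        linarith [Real.add_one_le_exp (-qq V')]
    _ = gu J (sa (κ + 2) * p.1 (κ + 2)) := by
        rw [← Real.exp_nat_mul, gu]; congr 1; ring

lemma sum_natAbs_le (T : ℕ) (g : ℕ → ℝ) (hg : ∀ i, 0 ≤ g i) :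
    ∑ x ∈ DD T, g x.natAbs ≤ 2 * ∑ i ∈ Finset.range (T + 1), g i := by
  have hm : ∀ x ∈ DD T, x.natAbs ∈ Finset.range (T + 1) := by
    intro x hx
    simp only [DD, Finset.mem_Icc] at hx
    simp only [Finset.mem_range]
    omega
  rw [← Finset.sum_fiberwise_of_maps_to hm, Finset.mul_sum]
  refine Finset.sum_le_sum fun i _ => ?_
  have h1 : ∑ x ∈ (DD T).filter (fun x => x.natAbs = i), g x.natAbs =
      ((DD T).filter (fun x => x.natAbs = i)).card * g i := by
    rw [Finset.sum_congr rfl (g := fun _ => g i) (fun x hx => by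
      rw [(Finset.mem_filter.1 hx).2]), Finset.sum_const, nsmul_eq_mul]
  rw [h1]
  have h2 : ((DD T).filter (fun x => x.natAbs = i)).card ≤ 2 := by
    refine (Finset.card_le_card (t := {(i : ℤ), -(i : ℤ)}) ?_).trans Finset.card_le_two
    intro x hx
    have := (Finset.mem_filter.1 hx).2
    simp only [Finset.mem_insert, Finset.mem_singleton]
    omega
  have h3 : (((DD T).filter (fun x => x.natAbs = i)).card : ℝ) ≤ 2 := by exact_mod_cast h2
  exact mul_le_mul_of_nonneg_right h3 (hg i)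

lemma exp_sum_le {T : ℕ} {w : ℝ} (hT : 0 < T) (hw : 0 < w) (hwT : w ≤ T) :
    ∑ x ∈ DD T, Real.exp (-(w * (1 - |(x : ℝ)| / T))) ≤ 4 * T / w := by
  have hT' : (0 : ℝ) < T := by exact_mod_cast hT
  have h1 : ∀ x : ℤ, Real.exp (-(w * (1 - |(x : ℝ)| / T))) =
      (fun i : ℕ => Real.exp (-(w * (1 - (i : ℝ) / T)))) x.natAbs := by
    intro x
    simp only [Nat.cast_natAbs, Int.cast_abs]
  rw [Finset.sum_congr rfl fun x _ => h1 x]
  refine (sum_natAbs_le T (fun i : ℕ => Real.exp (-(w * (1 - (i : ℝ) / T))))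
    fun i => (Real.exp_pos _).le).trans ?_
  have h2 : ∑ i ∈ Finset.range (T + 1), Real.exp (-(w * (1 - (i : ℝ) / T))) =
      ∑ i ∈ Finset.range (T + 1), (Real.exp (-(w / T))) ^ i := by
    rw [← Finset.sum_range_reflect]
    refine Finset.sum_congr rfl fun i hi => ?_
    have hi' : i ≤ T := Nat.lt_succ_iff.1 (Finset.mem_range.1 hi)
    rw [← Real.exp_nat_mul]
    congr 1
    rw [show T + 1 - 1 - i = T - i by omega, Nat.cast_sub hi']
    field_simp
    ring
  rw [h2]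
  set r : ℝ := Real.exp (-(w / T)) with hr
  have hy0 : 0 < w / T := by positivity
  have hy1 : w / T ≤ 1 := by rw [div_le_one hT']; exact hwT
  have hr1 : r ≤ 1 - (w / T) / 2 := by
    have h3 : 1 + w / T ≤ Real.exp (w / T) := by linarith [Real.add_one_le_exp (w / T)]
    rw [hr, Real.exp_neg]
    refine (inv_anti₀ (by linarith) h3).trans ?_
    rw [inv_le_iff_one_le_mul₀ (by linarith)]
    nlinarith
  have h4 : (∑ i ∈ Finset.range (T + 1), r ^ i) * (1 - r) ≤ 1 := by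
    rw [geom_sum_mul_neg]
    have : 0 < r ^ (T + 1) := by positivity
    linarith
  have h5 : 0 ≤ ∑ i ∈ Finset.range (T + 1), r ^ i := Finset.sum_nonneg fun i _ => by positivity
  have h6 : (∑ i ∈ Finset.range (T + 1), r ^ i) * ((w / T) / 2) ≤ 1 := by
    refine le_trans (mul_le_mul_of_nonneg_left ?_ h5) h4
    linarith
  rw [le_div_iff₀ hw]
  have h7 : (∑ i ∈ Finset.range (T + 1), r ^ i) * w ≤ 2 * T := by
    have : (∑ i ∈ Finset.range (T + 1), r ^ i) * w =
      ((∑ i ∈ Finset.range (T + 1), r ^ i) * ((w / T) / 2)) * (2 * T) := by field_simp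
    rw [this]
    calc _ ≤ 1 * (2 * (T : ℝ)) := mul_le_mul_of_nonneg_right h6 (by positivity)
      _ = _ := one_mul _
  linarith

/-- The favourable values of the first modes. -/
def Fav (k : ℕ) (w : ℝ) : Set ((ℕ → ℝ) × (ℕ → ℝ)) :=
  {p | w ≤ sa k * p.1 k ∧ (∀ j < k, |p.1 j| ≤ 1) ∧ ∀ j ≤ k, |p.2 j| ≤ 1}

lemma sum_sa_le (k : ℕ) : ∑ j ∈ Finset.range k, sa j ≤ 2 :=
  (summable_sa.sum_le_tsum _ fun j _ => (sa_pos j).le).trans tsum_sa_le

lemma FF_lower {k : ℕ} {w : ℝ} (hw : 0 < w) {p : (ℕ → ℝ) × (ℕ → ℝ)} (hg : p ∈ Good k)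
    (hf : p ∈ Fav k w) {x : ℤ} (hx : x ∈ DD (TT k)) :
    sa (k + 1) * p.1 (k + 1) - 6 + w * (1 - |(x : ℝ)| / TT k) ≤ FF x p := by
  obtain ⟨h1, h2, he⟩ := hg
  obtain ⟨f1, f2, f3⟩ := hf
  rw [decomp k x h1 h2]
  have a1 := (abs_le.1 (he x hx)).1
  have hx' : |(x : ℝ)| ≤ TT k := by
    have := (mem_ball_iff (TT k) x).2 hx
    simpa [ball] using this
  have a2 := cos_th_ge hx'
  have a3 := cos_th_nonneg hx'
  have a4 : w * (1 - |(x : ℝ)| / TT k) ≤ cc x k * p.1 k := by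
    rw [cc]
    have : w * Real.cos (th k * x) ≤ sa k * p.1 k * Real.cos (th k * x) :=
      mul_le_mul_of_nonneg_right f1 a3
    have h5 : w * (1 - |(x : ℝ)| / TT k) ≤ w * Real.cos (th k * x) :=
      mul_le_mul_of_nonneg_left a2 hw.le
    linarith
  have a5 : -(sa k) ≤ dd x k * p.2 k := by
    have h6 : |dd x k * p.2 k| ≤ sa k := by
      rw [abs_mul]
      calc |dd x k| * |p.2 k| ≤ sa k * 1 :=
            mul_le_mul (abs_dd_le x k) (f3 k le_rfl) (abs_nonneg _) (sa_pos k).le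
        _ = sa k := mul_one _
    exact (abs_le.1 h6).1
  have a6 : -(∑ j ∈ Finset.range k, 2 * sa j) ≤
      ∑ j ∈ Finset.range k, (cc x j * p.1 j + dd x j * p.2 j) := by
    rw [← Finset.sum_neg_distrib]
    refine Finset.sum_le_sum fun j hj => ?_
    have hj' := Finset.mem_range.1 hj
    have h6 : |cc x j * p.1 j| ≤ sa j := by
      rw [abs_mul]
      calc |cc x j| * |p.1 j| ≤ sa j * 1 :=
            mul_le_mul (abs_cc_le x j) (f2 j hj') (abs_nonneg _) (sa_pos j).le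
        _ = sa j := mul_one _
    have h7 : |dd x j * p.2 j| ≤ sa j := by
      rw [abs_mul]
      calc |dd x j| * |p.2 j| ≤ sa j * 1 :=
            mul_le_mul (abs_dd_le x j) (f3 j hj'.le) (abs_nonneg _) (sa_pos j).le
        _ = sa j := mul_one _
    have := (abs_le.1 h6).1
    have := (abs_le.1 h7).1
    linarith
  rw [← Finset.mul_sum] at a6
  have a7 := sum_sa_le k
  have a8 := sa_le_one k
  linarith

/-- Lower bound. -/
theorem pr_lower {k : ℕ} {w : ℝ} (hw : 0 < w) (hwT : w ≤ TT k) {p : (ℕ → ℝ) × (ℕ → ℝ)}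
    (hg : p ∈ Good k) (hf : p ∈ Fav k w) :
    gl (8 * TT k / w) (sa (k + 1) * p.1 (k + 1)) ≤ pr (TT k) p := by
  rw [gl]
  split_ifs with hV
  · set V := sa (k + 1) * p.1 (k + 1) with hVdef
    have hT := TT_pos' k
    have hq : ∀ x ∈ DD (TT k), qq (FF x p) ≤
        Real.exp (-(w * (1 - |(x : ℝ)| / TT k))) * qq (V - 6) := by
      intro x hx
      have hx' : |(x : ℝ)| ≤ TT k := by
        have := (mem_ball_iff (TT k) x).2 hx
        simpa [ball] using this
      have h0 : 0 ≤ w * (1 - |(x : ℝ)| / TT k) := by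
        refine mul_nonneg hw.le ?_
        have : |(x : ℝ)| / TT k ≤ 1 := by rw [div_le_one hT]; exact hx'
        linarith
      refine (qq_anti (FF_lower hw hg hf hx)).trans ?_
      refine (qq_add_le h0).trans ?_
      refine mul_le_mul_of_nonneg_right ?_ (qq_nonneg _)
      apply Real.exp_le_exp.2
      nlinarith
    have hF0 : ∀ x ∈ DD (TT k), 0 ≤ FF x p := by
      intro x hx
      have hx' : |(x : ℝ)| ≤ TT k := by
        have := (mem_ball_iff (TT k) x).2 hx
        simpa [ball] using this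
      have h0 : 0 ≤ w * (1 - |(x : ℝ)| / TT k) := by
        refine mul_nonneg hw.le ?_
        have : |(x : ℝ)| / TT k ≤ 1 := by rw [div_le_one hT]; exact hx'
        linarith
      have := FF_lower hw hg hf hx
      linarith
    calc Real.exp (-(8 * TT k / w * qq (V - 6)))
        ≤ Real.exp (-(2 * ∑ x ∈ DD (TT k), qq (FF x p))) := by
          apply Real.exp_le_exp.2
          have h1 : ∑ x ∈ DD (TT k), qq (FF x p) ≤
              (∑ x ∈ DD (TT k), Real.exp (-(w * (1 - |(x : ℝ)| / TT k)))) * qq (V - 6) := by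
            rw [Finset.sum_mul]
            exact Finset.sum_le_sum hq
          have h2 := exp_sum_le (TT_pos k) hw hwT
          have h3 : (∑ x ∈ DD (TT k), Real.exp (-(w * (1 - |(x : ℝ)| / TT k)))) * qq (V - 6) ≤
              (4 * TT k / w) * qq (V - 6) := mul_le_mul_of_nonneg_right h2 (qq_nonneg _)
          have h4 : 8 * (TT k : ℝ) / w * qq (V - 6) = 2 * ((4 * TT k / w) * qq (V - 6)) := by ring
          linarith
      _ = ∏ x ∈ DD (TT k), Real.exp (-(2 * qq (FF x p))) := by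
          rw [← Real.exp_sum]; congr 1
          rw [Finset.mul_sum, Finset.sum_neg_distrib]
      _ ≤ pr (TT k) p := by
          refine Finset.prod_le_prod (fun x _ => (Real.exp_pos _).le) fun x hx => ?_
          exact one_sub_ge (qq_nonneg _) (qq_le_half (hF0 x hx))
  · exact pr_nonneg _ _

end Pool.Agent.Zk99.Pers
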