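import Pool.Agent.Zk99.Pers.Spec

/-! Existence and uniqueness of equilibrium potentials. -/

set_option autoImplicit false

namespace Pool.Agent.Zk99.Pers

open MeasureTheory ProbabilityTheory Filter Topology
open scoped ENNReal NNReal InnerProductSpace

section general

variable {μ : Measure ℝ} [IsFiniteMeasure μ]

lemma norm_exp_I (x t : ℝ) : ‖Complex.exp (Complex.I * (x * t))‖ = 1 := by
  rw [show Complex.I * (x * t) = ((x * t : ℝ) : ℂ) * Complex.I by push_cast; ring,
    Complex.norm_exp_ofReal_mul_I]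

lemma integrable_exp_mul {g : ℝ → ℂ} (hg : MemLp g 2 μ) (n : ℤ) :
    Integrable (fun t : ℝ => Complex.exp (Complex.I * (n * t)) * g t) μ := by
  have h1 : Integrable g μ := hg.integrable (by norm_num)
  refine Integrable.mono' h1.norm ?_ ?_
  · exact (Continuous.aestronglyMeasurable (by fun_prop)).mul h1.aestronglyMeasurable
  · filter_upwards with t
    have := norm_exp_I n t
    push_cast at this
    rw [norm_mul, this, one_mul]

lemma Rep.add_smul {g g' : ℝ → ℂ} {h h' : ℤ → ℝ} (H : Rep μ g h) (H' : Rep μ g' h') (a b : ℝ) :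
    Rep μ (fun t => (a : ℂ) * g t + (b : ℂ) * g' t) (fun n => a * h n + b * h' n) := by
  refine ⟨(H.1.const_mul (a : ℂ)).add (H'.1.const_mul (b : ℂ)), fun n => ?_⟩
  have i1 := (integrable_exp_mul H.1 n).const_mul (a : ℂ)
  have i2 := (integrable_exp_mul H'.1 n).const_mul (b : ℂ)
  push_cast
  rw [H.2 n, H'.2 n, FT, FT, FT, ← integral_const_mul, ← integral_const_mul,
    ← integral_add i1 i2]
  refine integral_congr_ae (Filter.Eventually.of_forall fun t => ?_)
  simp only
  ring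

lemma sq_norm_integrable {g : ℝ → ℂ} (hg : MemLp g 2 μ) : Integrable (fun t => ‖g t‖ ^ 2) μ :=
  (memLp_two_iff_integrable_sq_norm hg.1).1 hg

/-- uniqueness of the equilibrium potential -/
theorem IsEqPot.unique {D : Set ℤ} {h h' : ℤ → ℝ} (H : IsEqPot μ D h) (H' : IsEqPot μ D h') :
    h' = h := by
  obtain ⟨g, hg, h1, hmin⟩ := H
  obtain ⟨g', hg', h1', hmin'⟩ := H'
  have hm := hg.add_smul hg' (1 / 2) (1 / 2)
  have hN : ∫ t, ‖g t‖ ^ 2 ∂μ = ∫ t, ‖g' t‖ ^ 2 ∂μ :=
    le_antisymm (hmin g' h' hg' h1') (hmin' g h hg h1)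
  have h2 := hmin _ _ hm (fun x hx => by
    have a := h1 x hx
    have b := h1' x hx
    linarith)
  have e : ∀ t, ‖((1 / 2 : ℝ) : ℂ) * g t + ((1 / 2 : ℝ) : ℂ) * g' t‖ ^ 2 =
      (1 / 2) * ‖g t‖ ^ 2 + (1 / 2) * ‖g' t‖ ^ 2 - (1 / 4) * ‖g t - g' t‖ ^ 2 := by
    intro t
    have h3 := parallelogram_law_with_norm ℝ (g t) (g' t)
    have h4 : ((1 / 2 : ℝ) : ℂ) * g t + ((1 / 2 : ℝ) : ℂ) * g' t =
        ((1 / 2 : ℝ) : ℂ) * (g t + g' t) := by ring
    rw [h4, norm_mul, Complex.norm_real, Real.norm_of_nonneg (by norm_num)]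
    nlinarith
  have i1 := sq_norm_integrable hg.1
  have i2 := sq_norm_integrable hg'.1
  have i3 := sq_norm_integrable (hg.1.sub hg'.1)
  simp only [Pi.sub_apply] at i3
  simp only [e] at h2
  rw [integral_sub (f := fun t => (1 / 2) * ‖g t‖ ^ 2 + (1 / 2) * ‖g' t‖ ^ 2)
    ((i1.const_mul _).add (i2.const_mul _)) (i3.const_mul _),
    integral_add (i1.const_mul _) (i2.const_mul _), integral_const_mul, integral_const_mul,
    integral_const_mul, ← hN] at h2
  have h5 : ∫ t, ‖g t - g' t‖ ^ 2 ∂μ = 0 := by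
    have : 0 ≤ ∫ t, ‖g t - g' t‖ ^ 2 ∂μ := integral_nonneg fun t => by positivity
    linarith
  have h6 : g =ᵐ[μ] g' := by
    rw [integral_eq_zero_iff_of_nonneg (fun t => by positivity) i3] at h5
    filter_upwards [h5] with t ht
    simpa [sub_eq_zero] using ht
  funext n
  have h7 : ((h' n : ℝ) : ℂ) = (h n : ℂ) := by
    rw [hg.2 n, hg'.2 n, FT, FT]
    refine integral_congr_ae ?_
    filter_upwards [h6] with t ht
    rw [ht]
  exact_mod_cast h7

/-- the functions giving the real and the imaginary parts of the Fourier transform -/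
noncomputable def uf (n : ℤ) (c : ℂ) (t : ℝ) : ℂ := c * Complex.exp (-(Complex.I * (n * t)))

lemma norm_exp_I' (x t : ℝ) : ‖Complex.exp (-(Complex.I * (x * t)))‖ = 1 := by
  rw [show -(Complex.I * (x * t)) = ((-(x * t) : ℝ) : ℂ) * Complex.I by push_cast; ring,
    Complex.norm_exp_ofReal_mul_I]

lemma memLp_uf (n : ℤ) (c : ℂ) : MemLp (uf n c) 2 μ := by
  refine MemLp.of_bound (Continuous.aestronglyMeasurable (by unfold uf; fun_prop)) ‖c‖
    (Filter.Eventually.of_forall fun t => ?_)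
  have := norm_exp_I' n t
  push_cast at this
  rw [uf, norm_mul, this, mul_one]

lemma inner_uf (n : ℤ) (c : ℂ) (G : Lp ℂ 2 μ) :
    ⟪(memLp_uf (μ := μ) n c).toLp (uf n c), G⟫_ℝ =
      ((starRingEnd ℂ) c * FT μ G n).re := by
  rw [L2.inner_def, FT, ← integral_const_mul]
  have hi : Integrable (fun t : ℝ => (starRingEnd ℂ) c *
      (Complex.exp (Complex.I * (n * t)) * G t)) μ := (integrable_exp_mul (Lp.memLp G) n).const_mul _
  rw [← RCLike.re_eq_complex_re, ← integral_re hi]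
  refine integral_congr_ae ?_
  filter_upwards [(memLp_uf (μ := μ) n c).coeFn_toLp] with t ht
  rw [ht, Complex.inner, uf, map_mul, ← Complex.exp_conj]
  simp only [RCLike.re_eq_complex_re, map_neg, map_mul, Complex.conj_I, Complex.conj_ofReal,
    map_intCast]
  congr 1
  rw [neg_mul, neg_neg]
  ring

/-- existence of the equilibrium potential -/
theorem exists_eqPot {D : Set ℤ} (hne : ∃ g h, Rep μ g h ∧ ∀ x ∈ D, 1 ≤ h x) :
    ∃ h, IsEqPot μ D h := by
  -- the closed convex set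
  let K : Set (Lp ℂ 2 μ) := (⋂ n : ℤ, {G | (FT μ G n).im = 0}) ∩ ⋂ n ∈ D, {G | 1 ≤ (FT μ G n).re}
  have hre : ∀ (n : ℤ) (G : Lp ℂ 2 μ), (FT μ G n).re =
      ⟪(memLp_uf (μ := μ) n 1).toLp (uf n 1), G⟫_ℝ := by
    intro n G; rw [inner_uf]; simp
  have him : ∀ (n : ℤ) (G : Lp ℂ 2 μ), (FT μ G n).im =
      ⟪(memLp_uf (μ := μ) n Complex.I).toLp (uf n Complex.I), G⟫_ℝ := by
    intro n G; rw [inner_uf]; simp
  have hK : ∀ G : Lp ℂ 2 μ, G ∈ K ↔ (∀ n : ℤ, (FT μ G n).im = 0) ∧
      ∀ n ∈ D, 1 ≤ (FT μ G n).re := by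
    intro G
    simp only [K, Set.mem_inter_iff, Set.mem_iInter, Set.mem_ofPred_eq]
  have hclosed : IsClosed K := by
    refine (isClosed_iInter fun n => ?_).inter (isClosed_iInter fun n => isClosed_iInter fun _ => ?_)
    · simp only [him]
      exact isClosed_eq (continuous_const.inner continuous_id) continuous_const
    · simp only [hre]
      exact isClosed_le continuous_const (continuous_const.inner continuous_id)
  have hconv : Convex ℝ K := by
    intro G hG G' hG' a b ha hb hab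
    rw [hK] at hG hG' ⊢
    constructor
    · intro n
      have e1 := hG.1 n
      have e2 := hG'.1 n
      rw [him] at e1 e2 ⊢
      rw [inner_add_right, real_inner_smul_right, real_inner_smul_right, e1, e2]
      ring
    · intro n hn
      have e1 := hG.2 n hn
      have e2 := hG'.2 n hn
      rw [hre] at e1 e2 ⊢
      rw [inner_add_right, real_inner_smul_right, real_inner_smul_right]
      nlinarith
  have hmemK : ∀ (g : ℝ → ℂ) (h : ℤ → ℝ) (H : Rep μ g h), (∀ x ∈ D, 1 ≤ h x) →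
      H.1.toLp g ∈ K := by
    intro g h H h1
    have e : ∀ n, FT μ (H.1.toLp g) n = (h n : ℂ) := by
      intro n
      rw [H.2 n, FT, FT]
      refine integral_congr_ae ?_
      filter_upwards [H.1.coeFn_toLp] with t ht
      rw [ht]
    rw [hK]
    constructor
    · intro n; rw [e, Complex.ofReal_im]
    · intro n hn; rw [e, Complex.ofReal_re]; exact h1 n hn
  have hsq : ∀ G : Lp ℂ 2 μ, ‖G‖ ^ 2 = ∫ t, ‖G t‖ ^ 2 ∂μ := by
    intro G
    rw [← real_inner_self_eq_norm_sq, L2.inner_def]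
    refine integral_congr_ae (Filter.Eventually.of_forall fun t => ?_)
    exact real_inner_self_eq_norm_sq (G t)
  obtain ⟨g0, h0, H0, h01⟩ := hne
  obtain ⟨v, hvK, hv⟩ := exists_norm_eq_iInf_of_complete_convex
    ⟨_, hmemK g0 h0 H0 h01⟩ hclosed.isComplete hconv 0
  rw [zero_sub, norm_neg] at hv
  have hvK' := (hK v).1 hvK
  refine ⟨fun n => (FT μ v n).re, v, ⟨Lp.memLp v, fun n => ?_⟩, fun x hx => hvK'.2 x hx, ?_⟩
  · apply Complex.ext
    · rw [Complex.ofReal_re]
    · rw [Complex.ofReal_im, hvK'.1 n]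
  · intro g' h' H' h1'
    have h2 := hmemK g' h' H' h1'
    have h3 : ‖v‖ ≤ ‖H'.1.toLp g'‖ := by
      rw [hv]
      have := ciInf_le (f := fun w : K => ‖(0 : Lp ℂ 2 μ) - w‖)
        ⟨0, Set.forall_mem_range.2 fun _ => norm_nonneg _⟩ ⟨_, h2⟩
      simpa using this
    have h4 : ‖v‖ ^ 2 ≤ ‖H'.1.toLp g'‖ ^ 2 := pow_le_pow_left₀ (norm_nonneg _) h3 2
    rw [hsq, hsq] at h4
    refine h4.trans (le_of_eq ?_)
    refine integral_congr_ae ?_
    filter_upwards [H'.1.coeFn_toLp] with t ht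
    rw [ht]

end general

end Pool.Agent.Zk99.Pers
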