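import Pool.Agent.Zk99.Pers.Bad

/-! Bounds for the probability of persistence. -/

set_option autoImplicit false

namespace Pool.Agent.Zk99.Pers

open MeasureTheory ProbabilityTheory Filter Topology
open scoped ENNReal NNReal

/-- product integrals -/
lemma integral_prod_GG {ι : Type} (s : Finset ι) (g : ι → ℝ → ℝ) (hg : ∀ j, Measurable (g j)) :
    ∫ z, ∏ j ∈ s, g j (z j) ∂(GG ι) = ∏ j ∈ s, ∫ x, g j x ∂(gaussianReal 0 1) := by
  have h1 : ∀ z : ι → ℝ, ∏ j ∈ s, g j (z j) =
      (fun y : s → ℝ => ∏ j : s, g j (y j)) (s.restrict z) := by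
    intro z
    simp only [Finset.restrict]
    rw [Finset.prod_coe_sort s (fun j => g j (z j))]
  rw [integral_congr_ae (Filter.Eventually.of_forall h1)]
  have hm : Measurable (fun y : s → ℝ => ∏ j : s, g j (y j)) :=
    Finset.measurable_fun_prod _ fun j _ => (hg _).comp (measurable_pi_apply j)
  have h2 := integral_restrict_infinitePi (μ := fun _ : ι => gaussianReal 0 1) (s := s)
    (f := fun y : s → ℝ => ∏ j : s, g j (y j)) hm.aestronglyMeasurable
  refine h2.trans ?_
  rw [integral_fintype_prod_eq_prod (fun (j : s) x => g j x),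
    Finset.prod_coe_sort s (fun j => ∫ x, g j x ∂(gaussianReal 0 1))]

/-- the set for the block average at the origin -/
def AA (κ : ℕ) (L : ℝ) : Set ((ℕ → ℝ) × (ℕ → ℝ)) :=
  {p | ∑ i ∈ Finset.range (4 * TT κ), Ge i p < (4 * TT κ : ℕ) * L}

lemma measurable_Ge (x : ℤ) : Measurable (Ge x) := by
  unfold Ge
  exact ((measurable_FF x).add (measurable_FF (-x))).div_const 2

lemma measurableSet_AA (κ : ℕ) (L : ℝ) : MeasurableSet (AA κ L) :=
  measurableSet_lt (Finset.measurable_fun_sum _ fun i _ => measurable_Ge i) measurable_const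

/-- the law of the slow mode -/
lemma map_slow (k : ℕ) (s : ℝ) : M1.map (fun p => s * p.1 k) = gaussianReal 0 (s ^ 2).toNNReal := by
  have h0 : Measurable (fun z : ℕ → ℝ => s * z k) := (meas_eval k).const_mul s
  have h1 : M1.map (fun p => s * p.1 k) = (M1.map Prod.fst).map (fun z => s * z k) := by
    rw [Measure.map_map h0 measurable_fst]; rfl
  rw [h1, Measure.map_fst_prod]
  simp only [measure_univ, one_smul]
  exact map_scaled (fun _ => s) k

lemma measurable_slow (k : ℕ) (s : ℝ) :
    Measurable (fun p : (ℕ → ℝ) × (ℕ → ℝ) => s * p.1 k) :=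
  ((meas_eval k).comp measurable_fst).const_mul s

/-- Upper bound for the probability of persistence with a small average near the origin. -/
theorem upper_prob {κ J : ℕ} {L ε : ℝ}
    (hb : 2 * (4 * TT κ) ≤ TT (κ + 1)) (hJ : J * (4 * TT κ) ≤ TT (κ + 1))
    (hε : th (κ + 1) * (J * (4 * TT κ) : ℕ) ≤ ε) (hε1 : ε ≤ 1 / 4)
    (hL : 2 * ε * (L + 1) ≤ 1) :
    PP.real (Per ff (TT (κ + 1) : ℝ) ∩ Prod.fst ⁻¹' (AA κ L)) ≤ beta (κ + 1) +
      ∫ v, gu J v ∂(gaussianReal 0 (sa (κ + 2) ^ 2).toNNReal) := by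
  rw [fubini _ (measurableSet_AA κ L), ← integral_indicator (measurableSet_AA κ L)]
  have i2 : Integrable (fun p => gu J (sa (κ + 2) * p.1 (κ + 2))) M1 :=
    integrable_of_bdd ((measurable_gu J).comp (measurable_slow _ _)).aestronglyMeasurable
      fun p => by rw [abs_of_nonneg (gu_nonneg _ _)]; exact gu_le_one (by positivity) _
  have i1 : Integrable ((Bd (κ + 1)).indicator (fun _ => (1 : ℝ))) M1 :=
    (integrable_const (1 : ℝ)).indicator (measurableSet_Bd _)
  have h1 : ∫ p, (AA κ L).indicator (pr (TT (κ + 1))) p ∂M1 ≤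
      ∫ p, ((Bd (κ + 1)).indicator (fun _ => (1 : ℝ)) p +
        gu J (sa (κ + 2) * p.1 (κ + 2))) ∂M1 := by
    refine integral_mono_ae ((integrable_pr _).indicator (measurableSet_AA κ L)) (i1.add i2) ?_
    filter_upwards [ae_good (κ + 1)] with p hp
    have h0 := gu_nonneg J (sa (κ + 2) * p.1 (κ + 2))
    have h01 := pr_le_one (TT (κ + 1)) p
    by_cases hA : p ∈ AA κ L
    · rw [Set.indicator_of_mem hA]
      by_cases hB : p ∈ Bd (κ + 1)
      · simp only [Set.indicator_of_mem hB]; linarith
      · simp only [Set.indicator_of_notMem hB]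
        have := pr_upper (hp hB) hb hJ hε hε1 hL hA
        linarith
    · rw [Set.indicator_of_notMem hA]
      have : 0 ≤ (Bd (κ + 1)).indicator (fun _ => (1 : ℝ)) p :=
        Set.indicator_nonneg (fun _ _ => zero_le_one) p
      linarith
  refine h1.trans ?_
  rw [integral_add i1 i2, integral_indicator_const _ (measurableSet_Bd _), smul_eq_mul, mul_one]
  have h2 : ∫ p, gu J (sa (κ + 2) * p.1 (κ + 2)) ∂M1 =
      ∫ v, gu J v ∂(gaussianReal 0 (sa (κ + 2) ^ 2).toNNReal) := by
    rw [← map_slow (κ + 2) (sa (κ + 2)), integral_map (measurable_slow _ _).aemeasurable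
      (measurable_gu J).aestronglyMeasurable]
  rw [h2]
  linarith [bad_prob (κ + 1)]

/-- probability of the favourable event for the first modes -/
noncomputable def pG (k : ℕ) (w : ℝ) : ℝ :=
  (gaussianReal 0 1).real (Set.Icc (-1) 1) ^ (2 * k + 1) *
    (gaussianReal 0 1).real (Set.Ici (w / sa k))

/-- the factors -/
noncomputable def fac (k : ℕ) (w M : ℝ) (j : ℕ) (x : ℝ) : ℝ :=
  if j < k then (Set.Icc (-1 : ℝ) 1).indicator (fun _ => 1) x else
    if j = k then (Set.Ici (w / sa k)).indicator (fun _ => 1) x else gl M (sa (k + 1) * x)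

lemma measurable_fac (k : ℕ) (w M : ℝ) (j : ℕ) : Measurable (fac k w M j) := by
  unfold fac
  split_ifs
  · exact measurable_const.indicator measurableSet_Icc
  · exact measurable_const.indicator measurableSet_Ici
  · exact (measurable_gl M).comp (measurable_const.mul measurable_id)

lemma integral_gl_slow (k : ℕ) (M : ℝ) :
    ∫ x, gl M (sa k * x) ∂(gaussianReal 0 1) =
      ∫ v, gl M v ∂(gaussianReal 0 (sa k ^ 2).toNNReal) := by
  have h := gaussianReal_map_const_mul (μ := 0) (v := 1) (sa k)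
  have e : gaussianReal 0 (sa k ^ 2).toNNReal = (gaussianReal 0 1).map (fun x => sa k * x) := by
    rw [h]
    congr 1
    · simp
    · ext; simp [Real.coe_toNNReal _ (sq_nonneg (sa k))]
  rw [e, integral_map (by fun_prop) (measurable_gl M).aestronglyMeasurable]

lemma integral_fac (k : ℕ) (w M : ℝ) :
    ∫ z, ∏ j ∈ Finset.range (k + 2), fac k w M j (z j) ∂(GG ℕ) =
      (gaussianReal 0 1).real (Set.Icc (-1) 1) ^ k *
        (gaussianReal 0 1).real (Set.Ici (w / sa k)) *
        ∫ v, gl M v ∂(gaussianReal 0 (sa (k + 1) ^ 2).toNNReal) := by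
  rw [integral_prod_GG _ _ (measurable_fac k w M), Finset.prod_range_succ, Finset.prod_range_succ]
  congr 1
  · congr 1
    · rw [Finset.prod_congr rfl (g := fun _ => (gaussianReal 0 1).real (Set.Icc (-1) 1))]
      · rw [Finset.prod_const, Finset.card_range]
      · intro j hj
        have hj' := Finset.mem_range.1 hj
        unfold fac
        simp only [hj', if_true]
        rw [integral_indicator_const _ measurableSet_Icc, smul_eq_mul, mul_one]
    · unfold fac
      simp only [lt_irrefl, if_false, if_true]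
      rw [integral_indicator_const _ measurableSet_Ici, smul_eq_mul, mul_one]
  · rw [← integral_gl_slow]
    unfold fac
    simp

lemma integral_fac2 (k : ℕ) :
    ∫ z, ∏ j ∈ Finset.range (k + 1), (Set.Icc (-1 : ℝ) 1).indicator (fun _ => (1 : ℝ)) (z j)
      ∂(GG ℕ) = (gaussianReal 0 1).real (Set.Icc (-1) 1) ^ (k + 1) := by
  rw [integral_prod_GG _ (fun _ => (Set.Icc (-1 : ℝ) 1).indicator (fun _ => (1 : ℝ)))
    (fun _ => measurable_const.indicator measurableSet_Icc), Finset.prod_const, Finset.card_range,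
    integral_indicator_const _ measurableSet_Icc, smul_eq_mul, mul_one]

lemma fav_eq (k : ℕ) (w M : ℝ) (p : (ℕ → ℝ) × (ℕ → ℝ)) :
    (Fav k w).indicator (fun p => gl M (sa (k + 1) * p.1 (k + 1))) p =
      (∏ j ∈ Finset.range (k + 2), fac k w M j (p.1 j)) *
        ∏ j ∈ Finset.range (k + 1), (Set.Icc (-1 : ℝ) 1).indicator (fun _ => (1 : ℝ)) (p.2 j) := by
  rw [Finset.prod_range_succ, Finset.prod_range_succ]
  have e1 : fac k w M (k + 1) (p.1 (k + 1)) = gl M (sa (k + 1) * p.1 (k + 1)) := by
    simp [fac]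
  have e2 : fac k w M k (p.1 k) = (Set.Ici (w / sa k)).indicator (fun _ => (1 : ℝ)) (p.1 k) := by
    simp [fac]
  have e3 : ∀ j ∈ Finset.range k, fac k w M j (p.1 j) =
      (Set.Icc (-1 : ℝ) 1).indicator (fun _ => (1 : ℝ)) (p.1 j) := by
    intro j hj
    simp [fac, Finset.mem_range.1 hj]
  rw [e1, e2, Finset.prod_congr rfl e3]
  have hw : ∀ y, w / sa k ≤ y ↔ w ≤ sa k * y := by
    intro y; rw [div_le_iff₀ (sa_pos k), mul_comm]
  by_cases hp : p ∈ Fav k w
  · obtain ⟨f1, f2, f3⟩ := hp
    rw [Set.indicator_of_mem (show p ∈ Fav k w from ⟨f1, f2, f3⟩),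
      Set.indicator_of_mem (show p.1 k ∈ Set.Ici (w / sa k) from (hw _).2 f1),
      Finset.prod_congr rfl (g := fun _ => (1 : ℝ)) (s₁ := Finset.range k),
      Finset.prod_congr rfl (g := fun _ => (1 : ℝ)) (s₁ := Finset.range (k + 1))]
    · simp
    · intro j hj
      have := f3 j (Nat.lt_succ_iff.1 (Finset.mem_range.1 hj))
      exact Set.indicator_of_mem (show p.2 j ∈ Set.Icc (-1 : ℝ) 1 from abs_le.1 this) _
    · intro j hj
      have := f2 j (Finset.mem_range.1 hj)
      exact Set.indicator_of_mem (show p.1 j ∈ Set.Icc (-1 : ℝ) 1 from abs_le.1 this) _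
  · rw [Set.indicator_of_notMem hp]
    symm
    by_cases f1 : w ≤ sa k * p.1 k
    · by_cases f2 : ∀ j < k, |p.1 j| ≤ 1
      · have f3 : ¬ ∀ j ≤ k, |p.2 j| ≤ 1 := fun f3 => hp ⟨f1, f2, f3⟩
        push Not at f3
        obtain ⟨j, hj, hj2⟩ := f3
        apply mul_eq_zero_of_right
        refine Finset.prod_eq_zero (Finset.mem_range.2 (Nat.lt_succ_iff.2 hj)) ?_
        exact Set.indicator_of_notMem (s := Set.Icc (-1 : ℝ) 1)
          (fun h => absurd (abs_le.2 h) (not_le.2 hj2)) _
      · push Not at f2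
        obtain ⟨j, hj, hj2⟩ := f2
        apply mul_eq_zero_of_left
        apply mul_eq_zero_of_left
        apply mul_eq_zero_of_left
        refine Finset.prod_eq_zero (Finset.mem_range.2 hj) ?_
        exact Set.indicator_of_notMem (s := Set.Icc (-1 : ℝ) 1)
          (fun h => absurd (abs_le.2 h) (not_le.2 hj2)) _
    · apply mul_eq_zero_of_left
      apply mul_eq_zero_of_left
      apply mul_eq_zero_of_right
      exact Set.indicator_of_notMem (fun h => f1 ((hw _).1 h)) _

/-- Lower bound for the probability of persistence. -/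
theorem lower_prob {k : ℕ} {w : ℝ} (hw : 0 < w) (hwT : w ≤ TT k) :
    pG k w * (∫ v, gl (8 * TT k / w) v ∂(gaussianReal 0 (sa (k + 1) ^ 2).toNNReal)) - beta k ≤
      PP.real (Per ff (TT k : ℝ)) := by
  have hf := fubini (TT k) (A := Set.univ) MeasurableSet.univ
  rw [Set.preimage_univ, Set.inter_univ, Measure.restrict_univ] at hf
  rw [hf]
  set M : ℝ := 8 * TT k / w with hM
  have hM0 : 0 ≤ M := by have := TT_pos' k; positivity
  have hT := measurable_gl M
  have i2 : Integrable ((Fav k w).indicator (fun p => gl M (sa (k + 1) * p.1 (k + 1)))) M1 := by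
    refine Integrable.indicator ?_ (measurableSet_Fav k w)
    exact integrable_of_bdd ((measurable_gl M).comp (measurable_slow _ _)).aestronglyMeasurable
      fun p => by rw [abs_of_nonneg (gl_nonneg _ _)]; exact gl_le_one hM0 _
  have i1 : Integrable ((Bd k).indicator (fun _ => (1 : ℝ))) M1 :=
    (integrable_const (1 : ℝ)).indicator (measurableSet_Bd _)
  have h1 : ∫ p, ((Fav k w).indicator (fun p => gl M (sa (k + 1) * p.1 (k + 1))) p -
      (Bd k).indicator (fun _ => (1 : ℝ)) p) ∂M1 ≤ ∫ p, pr (TT k) p ∂M1 := by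
    refine integral_mono_ae (i2.sub i1) (integrable_pr _) ?_
    filter_upwards [ae_good k] with p hp
    have h0 := pr_nonneg (TT k) p
    have h01 := gl_le_one hM0 (sa (k + 1) * p.1 (k + 1))
    by_cases hB : p ∈ Bd k
    · rw [Set.indicator_of_mem hB]
      have : (Fav k w).indicator (fun p => gl M (sa (k + 1) * p.1 (k + 1))) p ≤ 1 := by
        by_cases hF : p ∈ Fav k w
        · rw [Set.indicator_of_mem hF]; exact h01
        · rw [Set.indicator_of_notMem hF]; norm_num
      linarith
    · rw [Set.indicator_of_notMem hB]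
      by_cases hF : p ∈ Fav k w
      · rw [Set.indicator_of_mem hF]
        have := pr_lower hw hwT (hp hB) hF
        linarith
      · rw [Set.indicator_of_notMem hF]; linarith
  refine le_trans ?_ h1
  rw [integral_sub i2 i1, integral_indicator_const _ (measurableSet_Bd _), smul_eq_mul, mul_one]
  have h2 : ∫ p, (Fav k w).indicator (fun p => gl M (sa (k + 1) * p.1 (k + 1))) p ∂M1 =
      pG k w * (∫ v, gl M v ∂(gaussianReal 0 (sa (k + 1) ^ 2).toNNReal)) := by
    rw [integral_congr_ae (Filter.Eventually.of_forall (fav_eq k w M)),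
      integral_prod_mul (fun z : ℕ → ℝ => ∏ j ∈ Finset.range (k + 2), fac k w M j (z j))
        (fun z : ℕ → ℝ => ∏ j ∈ Finset.range (k + 1),
          (Set.Icc (-1 : ℝ) 1).indicator (fun _ => (1 : ℝ)) (z j)), integral_fac, integral_fac2, pG]
    ring
  rw [h2]
  linarith [bad_prob k]

lemma pG_ge {k : ℕ} {w : ℝ} (hw : 0 < w) :
    (1 / 4) ^ (2 * k + 1) * ((1 / 3) * Real.exp (-(w / sa k + 1) ^ 2 / 2)) ≤ pG k w := by
  unfold pG
  have h1 := gauss_unit_ge
  have h2 : (1 / 3) * Real.exp (-(w / sa k + 1) ^ 2 / 2) ≤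
      (gaussianReal 0 1).real (Set.Ici (w / sa k)) := by
    have h0 : 0 ≤ w / sa k := by have := sa_pos k; positivity
    refine (gauss_Icc_ge h0).trans (measureReal_mono fun x hx => hx.1)
  exact mul_le_mul (pow_le_pow_left₀ (by norm_num) h1 _) h2 (by positivity) (by positivity)

end Pool.Agent.Zk99.Pers
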