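import Mathlib

/-! Absolutely summable series of independent standard Gaussian variables. -/

set_option autoImplicit false

namespace Pool.Agent.Zk99.Pers

open MeasureTheory ProbabilityTheory Filter Topology
open scoped ENNReal NNReal

/-- the law of a family of independent standard Gaussian variables -/
noncomputable abbrev GG (ι : Type) : Measure (ι → ℝ) :=
  Measure.infinitePi (fun _ : ι => gaussianReal 0 1)

/-- the series `∑ c j * z j` -/
noncomputable def ser (c : ℕ → ℝ) (z : ℕ → ℝ) : ℝ := ∑' j, c j * z j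

@[fun_prop]
lemma measurable_ser (c : ℕ → ℝ) : Measurable (ser c) :=
  Measurable.tsum fun j => (measurable_const.mul (measurable_pi_apply j))

lemma meas_eval {ι : Type} (j : ι) : Measurable (fun z : ι → ℝ => z j) := measurable_pi_apply j

lemma eval_law {ι : Type} (j : ι) : (GG ι).map (fun z : ι → ℝ => z j) = gaussianReal 0 1 :=
  Measure.infinitePi_map_eval _ j

lemma memLp_eval {ι : Type} (j : ι) (p : ℝ≥0∞) (hp : p ≠ ∞) :
    MemLp (fun z : ι → ℝ => z j) p (GG ι) := by
  have h := memLp_id_gaussianReal' (μ := 0) (v := 1) p hp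
  rw [← eval_law j] at h
  exact (memLp_map_measure_iff aestronglyMeasurable_id (meas_eval j).aemeasurable).1 h

lemma ae_summable {c : ℕ → ℝ} (hc : Summable fun j => |c j|) :
    ∀ᵐ z ∂(GG ℕ), Summable (fun j => |c j * z j|) := by
  have h := summable_norm_of_tsum_eLpNorm_ne_top (μ := GG ℕ) (p := 1) le_rfl
    (f := fun j (z : ℕ → ℝ) => c j * z j)
    (fun j => (measurable_const.mul (measurable_pi_apply j)).aestronglyMeasurable) ?_
  · simpa [Real.norm_eq_abs] using h
  · have e : ∀ j, eLpNorm (fun z : ℕ → ℝ => c j * z j) 1 (GG ℕ) =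
        ENNReal.ofReal |c j| * eLpNorm (fun x : ℝ => x) 1 (gaussianReal 0 1) := by
      intro j
      have h1 : eLpNorm (fun z : ℕ → ℝ => c j * z j) 1 (GG ℕ) =
          eLpNorm (fun x : ℝ => c j * x) 1 (gaussianReal 0 1) := by
        rw [← eval_law j, eLpNorm_map_measure (g := fun x : ℝ => c j * x)
          (f := fun z : ℕ → ℝ => z j) (by fun_prop) (meas_eval j).aemeasurable]
        rfl
      rw [h1]
      have h2 : (fun x : ℝ => c j * x) = (c j) • (fun x : ℝ => x) := by
        funext x; simp
      rw [h2, eLpNorm_const_smul, Real.enorm_eq_ofReal_abs]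
    simp only [e]
    rw [ENNReal.tsum_mul_right]
    refine ENNReal.mul_ne_top ?_ ?_
    · rw [← ENNReal.ofReal_tsum_of_nonneg (fun j => abs_nonneg _) hc]
      exact ENNReal.ofReal_ne_top
    · exact (memLp_id_gaussianReal' (μ := 0) (v := 1) 1 (by simp)).2.ne

lemma ae_hasSum {c : ℕ → ℝ} (hc : Summable fun j => |c j|) :
    ∀ᵐ z ∂(GG ℕ), HasSum (fun j => c j * z j) (ser c z) := by
  filter_upwards [ae_summable hc] with z hz
  exact (Summable.of_abs hz).hasSum

lemma indep_scaled {ι : Type} (c : ι → ℝ) :
    iIndepFun (fun (j : ι) (z : ι → ℝ) => c j * z j) (GG ι) :=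
  iIndepFun_infinitePi (P := fun _ : ι => gaussianReal 0 1) (X := fun j x => c j * x)
    (fun _ => by fun_prop)

lemma map_scaled {ι : Type} (c : ι → ℝ) (j : ι) :
    (GG ι).map (fun z => c j * z j) = gaussianReal 0 (c j ^ 2).toNNReal := by
  have h : (GG ι).map (fun z => c j * z j) =
      ((GG ι).map (fun z => z j)).map (fun x => c j * x) := by
    rw [Measure.map_map (g := fun x : ℝ => c j * x) (f := fun z : ι → ℝ => z j)
      (by fun_prop) (meas_eval j)]
    rfl
  rw [h, eval_law, gaussianReal_map_const_mul]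
  congr 1
  · simp
  · ext
    simp [Real.coe_toNNReal _ (sq_nonneg (c j))]

/-- law of a finite sum -/
lemma charFun_finset {ι : Type} (c : ι → ℝ) (s : Finset ι) (t : ℝ) :
    charFun ((GG ι).map (fun z => ∑ j ∈ s, c j * z j)) t =
      Complex.exp (-((∑ j ∈ s, c j ^ 2 : ℝ) * t ^ 2 / 2)) := by
  rw [iIndepFun.charFun_map_fun_finsetSum_eq_prod (X := fun (j : ι) (z : ι → ℝ) => c j * z j)
    (fun j _ => (measurable_const.mul (measurable_pi_apply j)).aemeasurable)
    ((indep_scaled c).restrict s)]
  rw [Finset.prod_apply]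
  have : ∀ j ∈ s, charFun ((GG ι).map (fun z => c j * z j)) t =
      Complex.exp (-((c j ^ 2 : ℝ) * t ^ 2 / 2)) := by
    intro j _
    rw [map_scaled, charFun_gaussianReal, Real.coe_toNNReal _ (sq_nonneg (c j))]
    congr 1
    simp
  rw [Finset.prod_congr rfl this, ← Complex.exp_sum]
  congr 1
  push_cast
  rw [Finset.sum_neg_distrib, Finset.sum_mul, Finset.sum_div]

lemma measurable_finset {ι : Type} (c : ι → ℝ) (s : Finset ι) :
    Measurable (fun z : ι → ℝ => ∑ j ∈ s, c j * z j) :=
  Finset.measurable_fun_sum s fun j _ => measurable_const.mul (measurable_pi_apply j)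

lemma map_finset {ι : Type} (c : ι → ℝ) (s : Finset ι) :
    (GG ι).map (fun z => ∑ j ∈ s, c j * z j) =
      gaussianReal 0 (∑ j ∈ s, c j ^ 2).toNNReal := by
  have : IsProbabilityMeasure ((GG ι).map (fun z => ∑ j ∈ s, c j * z j)) :=
    Measure.isProbabilityMeasure_map (measurable_finset c s).aemeasurable
  refine Measure.ext_of_charFun (funext fun t => ?_)
  rw [charFun_finset, charFun_gaussianReal,
    Real.coe_toNNReal _ (Finset.sum_nonneg fun j _ => sq_nonneg (c j))]
  congr 1
  simp

/-- The law of an absolutely summable series. -/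
theorem map_ser {c : ℕ → ℝ} (hc : Summable fun j => |c j|) :
    (GG ℕ).map (ser c) = gaussianReal 0 (∑' j, c j ^ 2).toNNReal := by
  have hp : IsProbabilityMeasure ((GG ℕ).map (ser c)) :=
    Measure.isProbabilityMeasure_map (measurable_ser c).aemeasurable
  have hc2 : Summable fun j => c j ^ 2 := by
    have := hc.tendsto_atTop_zero
    refine (hc.of_norm_bounded_eventually_nat (g := fun j => |c j|) ?_)
    filter_upwards [this.eventually (ge_mem_nhds (show (0:ℝ) < 1 by norm_num))] with j hj
    rw [Real.norm_eq_abs, abs_of_nonneg (sq_nonneg _), ← sq_abs]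
    nlinarith [abs_nonneg (c j)]
  refine Measure.ext_of_charFun (funext fun t => ?_)
  have h1 : Tendsto (fun n => charFun ((GG ℕ).map (fun z => ∑ j ∈ Finset.range n, c j * z j)) t)
      atTop (𝓝 (charFun ((GG ℕ).map (ser c)) t)) := by
    simp only [charFun_apply_real]
    have e1 : ∀ n, ∫ x, Complex.exp (t * x * Complex.I)
        ∂((GG ℕ).map (fun z => ∑ j ∈ Finset.range n, c j * z j)) =
        ∫ z, Complex.exp (t * (∑ j ∈ Finset.range n, c j * z j : ℝ) * Complex.I) ∂(GG ℕ) := by
      intro n
      rw [integral_map (measurable_finset c _).aemeasurable (by fun_prop)]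
    have e2 : ∫ x, Complex.exp (t * x * Complex.I) ∂((GG ℕ).map (ser c)) =
        ∫ z, Complex.exp (t * (ser c z : ℝ) * Complex.I) ∂(GG ℕ) := by
      rw [integral_map (measurable_ser c).aemeasurable (by fun_prop)]
    simp only [e1, e2]
    refine tendsto_integral_of_dominated_convergence (fun _ => (1 : ℝ)) ?_ (integrable_const _) ?_ ?_
    · intro n
      have hm := (measurable_finset c (Finset.range n))
      exact (Complex.measurable_exp.comp (((measurable_const.mul
        (Complex.measurable_ofReal.comp hm))).mul measurable_const)).aestronglyMeasurable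
    · intro n
      filter_upwards with z
      rw [show (t * (∑ j ∈ Finset.range n, c j * z j : ℝ) * Complex.I : ℂ) =
        ((t * ∑ j ∈ Finset.range n, c j * z j : ℝ) : ℂ) * Complex.I by push_cast; ring,
        Complex.norm_exp_ofReal_mul_I]
    · filter_upwards [ae_hasSum hc] with z hz
      have := hz.tendsto_sum_nat
      have h3 : Continuous fun y : ℝ => Complex.exp (t * (y : ℝ) * Complex.I) := by fun_prop
      exact (h3.tendsto _).comp this
  have h2 : Tendsto (fun n => charFun ((GG ℕ).map (fun z => ∑ j ∈ Finset.range n, c j * z j)) t)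
      atTop (𝓝 (charFun (gaussianReal 0 (∑' j, c j ^ 2).toNNReal) t)) := by
    simp only [charFun_finset]
    rw [charFun_gaussianReal, Real.coe_toNNReal _ (tsum_nonneg fun j => sq_nonneg (c j))]
    have h3 : Continuous fun y : ℝ => Complex.exp (-((y : ℝ) * t ^ 2 / 2)) := by fun_prop
    have := (h3.tendsto _).comp hc2.hasSum.tendsto_sum_nat
    convert this using 2
    congr 1
    simp
  exact tendsto_nhds_unique h1 h2

end Pool.Agent.Zk99.Pers
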