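import Pool.Agent.Zk99.Pers.Field

/-! The spectral measure. -/

set_option autoImplicit false

namespace Pool.Agent.Zk99.Pers

open MeasureTheory ProbabilityTheory Filter Topology
open scoped ENNReal NNReal

/-- the pair of atoms at `± θ j` -/
noncomputable def pairm (j : ℕ) : Measure ℝ :=
  ENNReal.ofReal (am j / 2) • (Measure.dirac (th j) + Measure.dirac (-(th j)))

/-- the discrete part -/
noncomputable def atm : Measure ℝ := Measure.sum pairm

/-- the absolutely continuous part -/
noncomputable def leb : Measure ℝ :=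
  ENNReal.ofReal (2 * Real.pi)⁻¹ • volume.restrict (Set.Ioo (-Real.pi) Real.pi)

/-- the spectral measure -/
noncomputable def mu : Measure ℝ := leb + atm

lemma pairm_univ (j : ℕ) : pairm j Set.univ = ENNReal.ofReal (am j) := by
  rw [pairm, Measure.smul_apply, Measure.add_apply, measure_univ, measure_univ, smul_eq_mul,
    one_add_one_eq_two, show (2 : ℝ≥0∞) = ENNReal.ofReal 2 by simp, ← ENNReal.ofReal_mul
    (by have := am_pos j; positivity)]
  congr 1; ring

lemma atm_univ : atm Set.univ = ENNReal.ofReal (∑' j, am j) := by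
  rw [atm, Measure.sum_apply _ MeasurableSet.univ,
    ENNReal.ofReal_tsum_of_nonneg (fun j => (am_pos j).le) summable_am]
  exact tsum_congr pairm_univ

lemma leb_univ : leb Set.univ = 1 := by
  rw [leb, Measure.smul_apply, Measure.restrict_apply_univ, Real.volume_Ioo, smul_eq_mul,
    ← ENNReal.ofReal_mul (by have := Real.pi_pos; positivity)]
  have : (2 * Real.pi)⁻¹ * (Real.pi - -Real.pi) = 1 := by
    have := Real.pi_pos.ne'
    field_simp; ring
  rw [this, ENNReal.ofReal_one]

instance : IsFiniteMeasure atm := ⟨by rw [atm_univ]; exact ENNReal.ofReal_lt_top⟩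

instance : IsFiniteMeasure leb := ⟨by rw [leb_univ]; exact ENNReal.one_lt_top⟩

instance : IsFiniteMeasure mu := by unfold mu; infer_instance

lemma tsum_am_le : ∑' j, am j ≤ 2 := by
  refine le_trans ?_ tsum_sa_le
  exact summable_am.tsum_le_tsum am_le_sa summable_sa

lemma mu_univ_le : mu.real Set.univ ≤ 3 := by
  rw [measureReal_def, mu, Measure.add_apply, leb_univ, atm_univ,
    ENNReal.toReal_add (by simp) (by simp), ENNReal.toReal_ofReal (tsum_nonneg fun j =>
    (am_pos j).le)]
  have := tsum_am_le
  simp only [ENNReal.toReal_one]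
  linarith

lemma leb_ac : leb ≪ volume := by
  unfold leb
  exact (Measure.smul_absolutelyContinuous).trans Measure.restrict_le_self.absolutelyContinuous

lemma atm_countable : ∃ C : Set ℝ, C.Countable ∧ atm Cᶜ = 0 := by
  refine ⟨Set.range th ∪ Set.range (fun j => -(th j)),
    (Set.countable_range _).union (Set.countable_range _), ?_⟩
  rw [atm, Measure.sum_apply_eq_zero]
  intro j
  rw [pairm, Measure.smul_apply, Measure.add_apply]
  have hm : MeasurableSet (Set.range th ∪ Set.range (fun j => -(th j)))ᶜ :=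
    ((Set.countable_range _).union (Set.countable_range _)).measurableSet.compl
  rw [Measure.dirac_apply' _ hm, Measure.dirac_apply' _ hm, Set.indicator_of_notMem,
    Set.indicator_of_notMem, add_zero, smul_zero]
  · intro h; exact h (Or.inr ⟨j, rfl⟩)
  · intro h; exact h (Or.inl ⟨j, rfl⟩)

lemma pairm_map_neg (j : ℕ) : (pairm j).map (fun t => -t) = pairm j := by
  rw [pairm, Measure.map_smul, Measure.map_add _ _ measurable_neg, Measure.map_dirac,
    Measure.map_dirac, neg_neg, add_comm]

lemma mu_symm : mu.map (fun t => -t) = mu := by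
  rw [mu, Measure.map_add _ _ measurable_neg]
  congr 1
  · rw [leb, Measure.map_smul]
    congr 1
    have h : MeasurePreserving (fun t : ℝ => -t) (volume.restrict (Set.Ioo (-Real.pi) Real.pi))
        (volume.restrict (Set.Ioo (-Real.pi) Real.pi)) := by
      have h1 := (Measure.measurePreserving_neg (volume : Measure ℝ)).restrict_preimage
        (s := Set.Ioo (-Real.pi) Real.pi) measurableSet_Ioo
      have h2 : (fun t : ℝ => -t) ⁻¹' Set.Ioo (-Real.pi) Real.pi = Set.Ioo (-Real.pi) Real.pi := by
        ext t; simp only [Set.mem_preimage, Set.mem_Ioo]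
        constructor <;> rintro ⟨h1, h2⟩ <;> constructor <;> linarith
      rw [show (Neg.neg : ℝ → ℝ) = fun t => -t from rfl] at h1
      rw [h2] at h1
      exact h1
    exact h.map_eq
  · rw [atm, Measure.map_sum measurable_neg.aemeasurable]
    congr 1
    funext j
    exact pairm_map_neg j

lemma mu_supp : mu (Set.Ioo (-Real.pi) Real.pi)ᶜ = 0 := by
  rw [mu, Measure.add_apply, add_eq_zero]
  constructor
  · rw [leb, Measure.smul_apply, Measure.restrict_apply measurableSet_Ioo.compl,
      Set.compl_inter_self, measure_empty, smul_zero]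
  · rw [atm, Measure.sum_apply_eq_zero]
    intro j
    rw [pairm, Measure.smul_apply, Measure.add_apply,
      Measure.dirac_apply' _ measurableSet_Ioo.compl,
      Measure.dirac_apply' _ measurableSet_Ioo.compl, Set.indicator_of_notMem,
      Set.indicator_of_notMem, add_zero, smul_zero]
    · intro h
      have h1 := th_pos j
      have h2 := th_lt_pi j
      exact h ⟨by linarith, by linarith⟩
    · intro h
      have h1 := th_pos j
      have h2 := th_lt_pi j
      exact h ⟨by linarith, by linarith⟩

theorem isSpectral_mu : IsSpectral mu := ⟨inferInstance, mu_symm, mu_supp⟩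

/-- integration against `mu` -/
lemma integral_mu {E : Type} [NormedAddCommGroup E] [NormedSpace ℝ E] [CompleteSpace E]
    {g : ℝ → E} (hg : Integrable g mu) :
    ∫ t, g t ∂mu = (2 * Real.pi)⁻¹ • (∫ t in Set.Ioo (-Real.pi) Real.pi, g t) +
      ∑' j, (am j / 2) • (g (th j) + g (-(th j))) := by
  have hg' : Integrable g leb ∧ Integrable g atm := integrable_add_measure.1 hg
  rw [mu, integral_add_measure hg'.1 hg'.2]
  congr 1
  · rw [leb, integral_smul_measure, ENNReal.toReal_ofReal (by have := Real.pi_pos; positivity)]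
  · rw [atm, integral_sum_measure hg'.2]
    refine tsum_congr fun j => ?_
    rw [pairm, integral_smul_measure, ENNReal.toReal_ofReal (by have := am_pos j; positivity),
      integral_add_measure (by
        exact integrable_dirac (by simp)) (by exact integrable_dirac (by simp)), integral_dirac,
      integral_dirac]

lemma integral_cos_int (n : ℤ) :
    (2 * Real.pi)⁻¹ * ∫ t in Set.Ioo (-Real.pi) Real.pi, Real.cos ((n : ℝ) * t) =
      if n = 0 then 1 else 0 := by
  have hpi := Real.pi_pos
  rw [← integral_Ioc_eq_integral_Ioo, ← intervalIntegral.integral_of_le (by linarith)]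
  split_ifs with h
  · subst h
    simp only [Int.cast_zero, zero_mul, Real.cos_zero, intervalIntegral.integral_const, smul_eq_mul]
    field_simp
    ring
  · have hn : (n : ℝ) ≠ 0 := by exact_mod_cast h
    rw [intervalIntegral.integral_comp_mul_left (fun t => Real.cos t) hn, integral_cos]
    rw [mul_neg, Real.sin_neg, Real.sin_int_mul_pi]
    simp

lemma integrable_cos (a : ℝ) : Integrable (fun t => Real.cos (a * t)) mu := by
  refine Integrable.of_bound (by fun_prop) 1 (Filter.Eventually.of_forall fun t => ?_)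
  exact Real.abs_cos_le_one _

theorem integral_cos_mu (n : ℤ) : ∫ t, Real.cos ((n : ℝ) * t) ∂mu = KK n := by
  rw [integral_mu (integrable_cos n), smul_eq_mul, integral_cos_int, KK, add_comm]
  congr 1
  refine tsum_congr fun j => ?_
  rw [smul_eq_mul, mul_neg, Real.cos_neg, mul_comm (n : ℝ)]
  ring

theorem isField : IsField PP ff mu where
  gaussian := gaussian_ff
  mean := mean_ff
  cov := fun x y => by
    rw [cov_ff, ← integral_cos_mu]
    push_cast
    rfl

/-! the order of the singularity -/

lemma atom_le {j : ℕ} {S : Set ℝ} (hS : th j ∈ S) (hS2 : -(th j) ∈ S) :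
    am j ≤ mu.real S := by
  have h1 : ENNReal.ofReal (am j) ≤ mu S := by
    calc ENNReal.ofReal (am j) = pairm j S := by
          rw [pairm, Measure.smul_apply, Measure.add_apply, Measure.dirac_apply_of_mem hS,
            Measure.dirac_apply_of_mem hS2, smul_eq_mul,
            one_add_one_eq_two, show (2 : ℝ≥0∞) = ENNReal.ofReal 2 by simp, ← ENNReal.ofReal_mul
            (by have := am_pos j; positivity)]
          congr 1; ring
      _ ≤ atm S := by
          rw [atm]; exact Measure.le_sum_apply pairm S |>.trans' (ENNReal.le_tsum j)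
      _ ≤ mu S := by rw [mu, Measure.add_apply]; exact le_add_self
  rw [measureReal_def, ← ENNReal.toReal_ofReal (am_pos j).le]
  exact ENNReal.toReal_mono (measure_ne_top _ _) h1

lemma tendsto_th : Tendsto th atTop (𝓝 0) := by
  have h1 : Tendsto (fun k => (TT k : ℝ)) atTop atTop :=
    tendsto_natCast_atTop_atTop.comp TT_strictMono.tendsto_atTop
  have h2 : Tendsto (fun k => Real.pi / 2 / (TT k : ℝ)) atTop (𝓝 0) :=
    Tendsto.const_div_atTop h1 _
  refine h2.congr fun k => ?_
  rw [th, div_div]

/-- `mu` has a singularity of order zero at the origin -/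
theorem order_zero {S : ℝ → Set ℝ} (hS1 : ∀ δ, Metric.ball 0 δ ⊆ S δ) :
    Tendsto (fun δ => Real.log (mu.real (S δ)) / Real.log δ) (𝓝[>] 0) (𝓝 0) := by
  rw [Metric.tendsto_nhdsWithin_nhds]
  intro ε hε
  -- choose the index
  have hN : Tendsto (fun j => (NN j : ℝ)) atTop atTop :=
    tendsto_natCast_atTop_atTop.comp tendsto_NN
  obtain ⟨J0, hJ0⟩ := (hN.eventually_ge_atTop (8 / ε)).exists
  refine ⟨min (th J0) (1 / 2), lt_min (th_pos _) (by norm_num), ?_⟩
  intro δ hδ hδ2
  have hδ0 : 0 < δ := hδ
  rw [Real.dist_eq, sub_zero, abs_of_pos hδ0] at hδ2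
  have hδ3 : δ < th J0 := lt_of_lt_of_le hδ2 (min_le_left _ _)
  have hδ4 : δ < 1 / 2 := lt_of_lt_of_le hδ2 (min_le_right _ _)
  have hex : ∃ i, th i < δ := (tendsto_th.eventually (gt_mem_nhds hδ0)).exists
  obtain ⟨i, hi1, hi2⟩ : ∃ i, th i < δ ∧ ∀ i' < i, δ ≤ th i' := by
    classical
    exact ⟨Nat.find hex, Nat.find_spec hex, fun i hi => not_lt.1 (Nat.find_min hex hi)⟩
  have hiJ : J0 < i := by
    by_contra hcon
    push Not at hcon
    have := th_strictAnti.antitone hcon
    linarith
  obtain ⟨j, rfl⟩ : ∃ j, i = j + 1 := ⟨i - 1, by omega⟩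
  have hjJ : J0 ≤ j := by omega
  have hδj : δ ≤ th j := hi2 j (by omega)
  have hNj : 8 / ε ≤ NN j := by
    have : (NN J0 : ℝ) ≤ NN j := by exact_mod_cast NN_strictMono.monotone hjJ
    linarith
  have h2 : (2 : ℝ) ≤ NN j := by exact_mod_cast two_le_NN j
  -- lower bound for the logarithm of `1 / δ`
  have hlog : (NN j : ℝ) ^ 12 / 4 ≤ -Real.log δ := by
    have h3 : Real.log δ ≤ Real.log (th j) := Real.log_le_log hδ0 hδj
    have h4 : Real.log (th j) ≤ Real.log 2 - (NN j : ℝ) ^ 12 * Real.log 2 := by
      have h5 : th j ≤ 2 / TT j := by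
        rw [th, div_le_div_iff₀ (by have := TT_pos' j; positivity) (TT_pos' j)]
        have := Real.pi_lt_four
        have := TT_pos' j
        nlinarith
      refine (Real.log_le_log (th_pos j) h5).trans (le_of_eq ?_)
      rw [Real.log_div (by norm_num) (TT_pos' j).ne', TT]
      push_cast
      rw [Real.log_pow]
      push_cast
      ring
    have h6 := Real.log_two_gt_d9
    have h7 := Real.log_two_lt_d9
    have h8 : (2 : ℝ) ^ 12 ≤ (NN j : ℝ) ^ 12 := by gcongr
    norm_num at h8
    have h9 : (NN j : ℝ) ^ 12 * (1 / 2) ≤ (NN j : ℝ) ^ 12 * Real.log 2 := by gcongr; linarith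
    linarith
  -- bound for the logarithm of the measure
  have hm1 : am (j + 1) ≤ mu.real (S δ) := by
    refine atom_le (hS1 δ ?_) (hS1 δ ?_)
    · rw [Metric.mem_ball, Real.dist_eq, sub_zero, abs_of_pos (th_pos _)]; exact hi1
    · rw [Metric.mem_ball, Real.dist_eq, sub_zero, abs_neg, abs_of_pos (th_pos _)]; exact hi1
  have hm2 : mu.real (S δ) ≤ 3 := (measureReal_mono (Set.subset_univ _)).trans mu_univ_le
  have hm0 : 0 < mu.real (S δ) := lt_of_lt_of_le (am_pos _) hm1
  have hl1 : -((NN j : ℝ) ^ 9) ≤ Real.log (mu.real (S δ)) := by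
    have := Real.log_le_log (am_pos (j + 1)) hm1
    rwa [am, Real.log_exp] at this
  have hl2 : Real.log (mu.real (S δ)) ≤ (NN j : ℝ) ^ 9 := by
    have h3 := Real.log_le_sub_one_of_pos hm0
    have h8 : (2 : ℝ) ^ 9 ≤ (NN j : ℝ) ^ 9 := by gcongr
    norm_num at h8
    linarith
  have hl : |Real.log (mu.real (S δ))| ≤ (NN j : ℝ) ^ 9 := abs_le.2 ⟨hl1, hl2⟩
  have hpos : (0 : ℝ) < (NN j : ℝ) ^ 12 / 4 := by positivity
  rw [Real.dist_eq, sub_zero, abs_div]
  have h10 : |Real.log δ| = -Real.log δ := abs_of_nonpos (by linarith)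
  rw [h10]
  calc |Real.log (mu.real (S δ))| / -Real.log δ ≤ (NN j : ℝ) ^ 9 / ((NN j : ℝ) ^ 12 / 4) := by
        gcongr
    _ = 4 / (NN j : ℝ) ^ 3 := by field_simp
    _ ≤ 4 / (NN j : ℝ) := by
        apply div_le_div_of_nonneg_left (by norm_num) (by linarith)
        exact le_self_pow₀ (by linarith) (by norm_num)
    _ ≤ 4 / (8 / ε) := by
        apply div_le_div_of_nonneg_left (by norm_num) (by positivity) hNj
    _ < ε := by field_simp; norm_num

end Pool.Agent.Zk99.Pers
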