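import Mathlib

/-! Elementary estimates for the standard Gaussian tail. -/

set_option autoImplicit false

namespace Pool.Agent.Zk99.Pers

open MeasureTheory ProbabilityTheory Filter Topology
open scoped ENNReal NNReal

/-- the Gaussian tail `P(ξ > u)` -/
noncomputable def qq (u : ℝ) : ℝ := (gaussianReal 0 1).real (Set.Ioi u)

lemma pdf_eq (x : ℝ) : gaussianPDFReal 0 1 x = (√(2 * Real.pi))⁻¹ * Real.exp (-x ^ 2 / 2) := by
  rw [gaussianPDFReal_def]; simp

lemma qq_eq_integral (u : ℝ) : qq u = ∫ x in Set.Ioi u, gaussianPDFReal 0 1 x := by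
  rw [qq, measureReal_def, gaussianReal_apply_eq_integral 0 (by norm_num)]
  rw [ENNReal.toReal_ofReal]
  exact setIntegral_nonneg measurableSet_Ioi fun x _ => gaussianPDFReal_nonneg _ _ _

lemma qq_nonneg (u : ℝ) : 0 ≤ qq u := measureReal_nonneg

lemma qq_le_one (u : ℝ) : qq u ≤ 1 := measureReal_le_one

lemma qq_anti : Antitone qq := fun _ _ h => measureReal_mono (Set.Ioi_subset_Ioi h)

/-- translation form of the tail -/
lemma qq_add (u h : ℝ) : qq (u + h) = ∫ x in Set.Ioi u, gaussianPDFReal 0 1 (x + h) := by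
  rw [qq_eq_integral]
  have := (measurePreserving_add_right (volume : Measure ℝ) h).setIntegral_preimage_emb
    (MeasurableEquiv.addRight h).measurableEmbedding (fun x => gaussianPDFReal 0 1 x) (Set.Ioi (u + h))
  simp only [Set.preimage_add_const_Ioi, add_sub_cancel_right] at this
  rw [← this]

/-- `q (u + h) ≤ exp (-u h) q u` for `h ≥ 0` and `u ≥ 0` -/
lemma qq_add_le {u h : ℝ} (hh : 0 ≤ h) : qq (u + h) ≤ Real.exp (-(u * h)) * qq u := by
  rw [qq_add, qq_eq_integral, ← integral_const_mul]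
  have hi : Integrable (gaussianPDFReal 0 1) := integrable_gaussianPDFReal 0 1
  refine setIntegral_mono_on ?_ ((hi.const_mul _).integrableOn) measurableSet_Ioi ?_
  · exact (hi.comp_add_right h).integrableOn
  · intro x hx
    rw [pdf_eq, pdf_eq]
    have h1 : Real.exp (-(x + h) ^ 2 / 2) ≤ Real.exp (-(u * h)) * Real.exp (-x ^ 2 / 2) := by
      rw [← Real.exp_add]
      apply Real.exp_le_exp.2
      have : u < x := hx
      nlinarith
    have h2 : 0 ≤ (√(2 * Real.pi))⁻¹ := by positivity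
    nlinarith

lemma qq_zero_le : qq 0 ≤ 1 / 2 := by
  have h1 : (gaussianReal 0 1).real (Set.Iio 0) = qq 0 := by
    rw [qq, measureReal_def, measureReal_def]
    congr 1
    have := gaussianReal_map_neg (μ := 0) (v := 1)
    rw [neg_zero] at this
    conv_rhs => rw [← this]
    rw [Measure.map_apply (by fun_prop) measurableSet_Ioi]
    congr 1
    ext x; simp
  have h2 : (gaussianReal 0 1).real (Set.Iio 0) + qq 0 ≤ 1 := by
    rw [qq, ← measureReal_union]
    · exact measureReal_le_one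
    · rw [Set.disjoint_left]; intro x hx hx2; simp at hx hx2; linarith
    · exact measurableSet_Ioi
  linarith

lemma qq_le_half {u : ℝ} (hu : 0 ≤ u) : qq u ≤ 1 / 2 := (qq_anti hu).trans qq_zero_le

/-- `q u ≤ exp (-u^2/2)` for `u ≥ 0` -/
lemma qq_le_exp {u : ℝ} (hu : 0 ≤ u) : qq u ≤ Real.exp (-u ^ 2 / 2) := by
  have h : qq (0 + u) = ∫ x in Set.Ioi (0:ℝ), gaussianPDFReal 0 1 (x + u) := qq_add 0 u
  rw [zero_add] at h
  have hi : Integrable (gaussianPDFReal 0 1) := integrable_gaussianPDFReal 0 1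
  have h2 : ∫ x in Set.Ioi (0:ℝ), gaussianPDFReal 0 1 (x + u) ≤
      ∫ x in Set.Ioi (0:ℝ), Real.exp (-u ^ 2 / 2) * gaussianPDFReal 0 1 x := by
    refine setIntegral_mono_on (hi.comp_add_right u).integrableOn ((hi.const_mul _).integrableOn)
      measurableSet_Ioi ?_
    intro x hx
    rw [pdf_eq, pdf_eq]
    have h1 : Real.exp (-(x + u) ^ 2 / 2) ≤ Real.exp (-u ^ 2 / 2) * Real.exp (-x ^ 2 / 2) := by
      rw [← Real.exp_add]
      apply Real.exp_le_exp.2
      have : 0 < x := hx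
      nlinarith [mul_nonneg this.le hu]
    have h2 : 0 ≤ (√(2 * Real.pi))⁻¹ := by positivity
    nlinarith
  rw [integral_const_mul, ← qq_eq_integral] at h2
  have h3 := qq_zero_le
  have h4 := Real.exp_pos (-u ^ 2 / 2)
  rw [h]
  nlinarith

lemma inv_sqrt_two_pi : (1 / 3 : ℝ) ≤ (√(2 * Real.pi))⁻¹ := by
  rw [one_div]
  apply inv_anti₀ (by have := Real.pi_pos; positivity)
  rw [Real.sqrt_le_left (by norm_num)]
  have := Real.pi_lt_d2
  nlinarith

lemma pdf_ge (x : ℝ) : (1 / 3) * Real.exp (-x ^ 2 / 2) ≤ gaussianPDFReal 0 1 x := by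
  rw [pdf_eq]
  have := inv_sqrt_two_pi
  have h := Real.exp_pos (-x ^ 2 / 2)
  nlinarith

/-- lower bound for the measure of an interval of length one -/
lemma gauss_Icc_ge {u : ℝ} (hu : 0 ≤ u) :
    (1 / 3) * Real.exp (-(u + 1) ^ 2 / 2) ≤ (gaussianReal 0 1).real (Set.Icc u (u + 1)) := by
  rw [measureReal_def, gaussianReal_apply_eq_integral 0 (by norm_num), ENNReal.toReal_ofReal
    (setIntegral_nonneg measurableSet_Icc fun x _ => gaussianPDFReal_nonneg _ _ _)]
  have h1 : ∫ x in Set.Icc u (u + 1), (1 / 3) * Real.exp (-(u + 1) ^ 2 / 2) =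
      (1 / 3) * Real.exp (-(u + 1) ^ 2 / 2) := by
    rw [setIntegral_const]; simp
  rw [← h1]
  refine setIntegral_mono_on ?_ ((integrable_gaussianPDFReal 0 1).integrableOn) measurableSet_Icc ?_
  · exact integrableOn_const (by simp)
  · intro x hx
    refine le_trans ?_ (pdf_ge x)
    gcongr
    · linarith [hx.1]
    · exact hx.2

lemma qq_ge {u : ℝ} (hu : 0 ≤ u) : (1 / 3) * Real.exp (-(u + 1) ^ 2 / 2) ≤ qq u := by
  refine (gauss_Icc_ge hu).trans ?_
  have : (gaussianReal 0 1).real (Set.Icc u (u + 1)) =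
      (gaussianReal 0 1).real (Set.Ioc u (u + 1)) := by
    haveI := nullSingletonClass_gaussianReal (μ := 0) (v := 1) one_ne_zero
    rw [measureReal_def, measureReal_def, Ioc_ae_eq_Icc.measure_eq]
  rw [this]
  exact measureReal_mono fun x hx => hx.1

lemma gauss_unit_ge : (1 / 4 : ℝ) ≤ (gaussianReal 0 1).real (Set.Icc (-1) 1) := by
  rw [measureReal_def, gaussianReal_apply_eq_integral 0 (by norm_num), ENNReal.toReal_ofReal
    (setIntegral_nonneg measurableSet_Icc fun x _ => gaussianPDFReal_nonneg _ _ _)]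
  have h1 : ∫ x in Set.Icc (-1 : ℝ) 1, (1 / 8 : ℝ) = 1 / 4 := by
    rw [setIntegral_const]; norm_num
  rw [← h1]
  refine setIntegral_mono_on ?_ ((integrable_gaussianPDFReal 0 1).integrableOn) measurableSet_Icc ?_
  · exact integrableOn_const (by simp)
  · intro x hx
    refine le_trans ?_ (pdf_ge x)
    have h2 : (1 / 2 : ℝ) ≤ Real.exp (-x ^ 2 / 2) := by
      have : x ^ 2 ≤ 1 := by nlinarith [hx.1, hx.2]
      have := Real.add_one_le_exp (-x ^ 2 / 2)
      linarith
    linarith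

/-- `1 - q ≥ exp (-2 q)` for `0 ≤ q ≤ 1/2` -/
lemma one_sub_ge {q : ℝ} (h0 : 0 ≤ q) (h1 : q ≤ 1 / 2) : Real.exp (-(2 * q)) ≤ 1 - q := by
  have h2 : 1 + 2 * q ≤ Real.exp (2 * q) := by linarith [Real.add_one_le_exp (2 * q)]
  rw [Real.exp_neg, inv_le_comm₀ (Real.exp_pos _) (by linarith)]
  refine le_trans ?_ h2
  rw [inv_le_comm₀ (by linarith) (by linarith)]
  rw [← one_div, div_le_iff₀ (by linarith)]
  nlinarith

end Pool.Agent.Zk99.Pers
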